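import Pool.Agent.SIM.St

/-!
# Percolation games on Cayley graphs: blocks of bounded radius
-/

set_option autoImplicit false

namespace Pool.Agent.SIM

open Finset Filter Pool.Agent.Helper30.Perc Pool.Agent.Helper22.PG

theorem thm_Blk (h : St_Min) : St_Blk := by
  classical
  intro Γ _ _ G _ d c v hG n c₁ hcap
  obtain ⟨M, hME, hMc, hM⟩ := hcap
  set M1 : Finset (Sym2 Γ) := M.filter fun e => ∀ u ∈ e, G.dist 1 u ≤ rad d c n with hM1
  have hsub : M1 ⊆ M := filter_subset _ _
  have hM1E : (M1 : Set (Sym2 Γ)) ⊆ G.edgeSet := fun e he => hME (hsub he)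
  have hM1c : M1.card ≤ n := (card_le_card hsub).trans_eq hMc
  obtain ⟨⟨W, hW⟩, h2⟩ := h Γ G d c v hG 1 M1
  obtain ⟨h3, h4⟩ := h2 hM1E W hW
  have hrad : W.card ≤ rad d c n := by
    refine h4.trans ?_
    unfold rad
    refine Nat.mul_le_mul_left _ (Nat.pow_le_pow_left (Nat.mul_le_mul_left _
      (Nat.mul_le_mul_left _ ?_)) 2)
    omega
  have hadm : Adm 1 M W := by
    refine ⟨hW.1.1, fun a b hab ha => ?_⟩
    have hadj : G.Adj a b := hME hab
    refine hW.1.2 a b ?_ ha
    rw [hM1, mem_filter]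
    refine ⟨hab, fun u hu => ?_⟩
    have h5 := h3 a ha
    rw [Sym2.mem_iff] at hu
    rcases hu with rfl | rfl
    · omega
    · have h6 := hG.conn.dist_triangle (u := 1) (v := a) (w := u)
      have h7 : G.dist a u = 1 := SimpleGraph.dist_eq_one_iff_adj.2 hadj
      omega
  refine ⟨M1, hM1E, hM1c, ?_, ?_⟩
  · intro u hu
    rw [mem_insert] at hu
    rcases hu with rfl | hu
    · simp
    · obtain ⟨e, he, hue⟩ := (mem_vert _ _).1 hu
      exact (mem_filter.1 he).2 u hue
  · intro W' hW'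
    have h5 := hM W hadm
    have h6 := (hW.2 W' hW').1
    have h7 : (cut G W : ℝ) ≤ cut G W' := by exact_mod_cast h6
    linarith

end Pool.Agent.SIM
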