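import Pool.Agent.SIM.St

/-!
# The cut bound for separated blocks
-/

set_option autoImplicit false

namespace Pool.Agent.SIM

open Finset Filter Pool.Agent.Helper30.Perc Pool.Agent.Helper22.PG

theorem thm_Cut : St_Cut := by
  intro Γ _ _ G _ d c v h M1 R1 ℓ ρ R0 R2 Rθ m C0 z γ g π H hR2 hC0 W hW hnear
  set U : ℕ → Finset Γ := fun j => (insert 1 (vert M1)).biUnion fun u => bl G (g j * u) R0 with hU
  have hUmem : ∀ j x, x ∈ U j ↔ ∃ u ∈ insert 1 (vert M1), G.dist (g j * u) x ≤ R0 := by
    intro j x
    simp only [hU, mem_biUnion, mem_bl h.conn]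
  have hV0U : ∀ j, ∀ u ∈ insert 1 (vert M1), g j * u ∈ U j := by
    intro j u hu
    rw [hUmem]
    exact ⟨u, hu, by simp⟩
  -- the geodesic
  have hγW : ∀ t, t ≤ m * ℓ → γ.getVert t ∈ W := by
    intro t
    induction t with
    | zero => intro _; rw [SimpleGraph.Walk.getVert_zero]; exact hW.1
    | succ t ih =>
      intro ht
      have h1 := ih (by omega)
      refine hW.2 (γ.getVert t) _ ?_ h1
      rw [hngE, mem_union, mem_image]
      exact Or.inl ⟨t, by rw [mem_range]; omega, rfl⟩
  have hblock : ∀ j < m, ∀ e ∈ blkE M1 π j, e ∈ hngE M1 π m := by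
    intro j hj e he
    rw [hngE, mem_union, mem_biUnion]
    exact Or.inr ⟨j, mem_range.2 hj, he⟩
  have hroot : ∀ j < m, g j ∈ W := by
    intro j hj
    have h1 : γ.getVert (j * ℓ) ∈ W := hγW _ (Nat.mul_le_mul_right _ hj.le)
    refine walk_closed (hngE M1 π m) W hW.2 (π j) ?_ h1
    intro e he
    refine hblock j hj e ?_
    rw [blkE, mem_union, List.mem_toFinset]
    exact Or.inr he
  -- each block
  have hcutj : ∀ j < m, C0 ≤ cut G (W ∩ U j) := by
    intro j hj
    have key := h.adm_mul (g j) M1 (C0 : ℝ) (fun W' hW' => by exact_mod_cast hC0 W' hW')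
      (W ∩ U j) ?_ ?_
    · exact_mod_cast key
    · rw [mem_inter]
      refine ⟨hroot j hj, ?_⟩
      have := hV0U j 1 (mem_insert_self _ _)
      rwa [mul_one] at this
    · intro a b hab ha
      rw [mem_inter] at ha ⊢
      refine ⟨hW.2 (g j * a) _ (hblock j hj _ ?_) ha.1, hV0U j b ?_⟩
      · rw [blkE, mem_union, mem_image]
        exact Or.inl ⟨s(a, b), hab, by simp⟩
      · rw [mem_insert, mem_vert]
        exact Or.inr ⟨_, hab, by simp⟩
  have hdisj : ∀ j < m, ∀ j' < m, j ≠ j' → ∀ x ∈ U j, ∀ b ∈ U j', 1 < G.dist x b := by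
    intro j hj j' hj' hne x hx b hb
    rw [hUmem] at hx hb
    obtain ⟨u, hu, h1⟩ := hx
    obtain ⟨u', hu', h2⟩ := hb
    have h3 := H.h3 j hj j' hj' hne u hu u' hu'
    have h4 := h.conn.dist_triangle (u := g j * u) (v := x) (w := g j' * u')
    have h5 := h.conn.dist_triangle (u := x) (v := b) (w := g j' * u')
    rw [SimpleGraph.dist_comm (u := b)] at h5
    omega
  set Y : Finset Γ := (range m).biUnion fun j =>
    (π j).support.toFinset.biUnion fun u => bl G u Rθ with hY
  have hYc : Y.card ≤ m * ((ρ + 1) * v Rθ) := by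
    refine card_biUnion_le.trans ?_
    calc ∑ j ∈ range m, ((π j).support.toFinset.biUnion fun u => bl G u Rθ).card
        ≤ ∑ _j ∈ range m, (ρ + 1) * v Rθ := by
          refine sum_le_sum fun j hj => card_biUnion_le.trans ?_
          rw [mem_range] at hj
          calc ∑ u ∈ (π j).support.toFinset, (bl G u Rθ).card
              = (π j).support.toFinset.card * v Rθ := by
                rw [sum_congr rfl fun u _ => h.vol u Rθ, sum_const, smul_eq_mul]
            _ ≤ _ := by
                refine Nat.mul_le_mul_right _ ((card_support_le _).trans ?_)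
                have h6 := H.hπ j
                have h7 := H.h1 j hj
                omega
      _ = m * ((ρ + 1) * v Rθ) := by rw [sum_const, card_range, smul_eq_mul]
  have hbY : ∀ j < m, ∀ a ∈ U j, ∀ b ∈ W, b ∉ U j → G.Adj a b → b ∈ Y := by
    intro j hj a haU b hbW hbU hab
    have hab1 : G.dist a b = 1 := SimpleGraph.dist_eq_one_iff_adj.2 hab
    obtain ⟨u, hu, h1⟩ := (hUmem j a).1 haU
    rcases hnear b hbW with ⟨k, hk, hk'⟩ | ⟨j', hj', u', hu', hbu⟩ | ⟨j', hj', u', hu', hbu⟩
    · exfalso
      have h2 := H.h2 j hj u hu k hk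
      have h3 := h.conn.dist_triangle (u := g j * u) (v := a) (w := γ.getVert k)
      have h4 := h.conn.dist_triangle (u := a) (v := b) (w := γ.getVert k)
      omega
    · rw [hY, mem_biUnion]
      refine ⟨j', mem_range.2 hj', ?_⟩
      rw [mem_biUnion]
      refine ⟨u', List.mem_toFinset.2 hu', ?_⟩
      rw [mem_bl h.conn, SimpleGraph.dist_comm]
      exact hbu
    · exfalso
      have hbU' : b ∈ U j' := by
        rw [hUmem]
        exact ⟨u', hu', by rw [SimpleGraph.dist_comm]; exact hbu⟩
      have hne : j ≠ j' := by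
        rintro rfl
        exact hbU hbU'
      have := hdisj j hj j' hj' hne a haU b hbU'
      omega
  have hsplit : ∀ j ∈ range m, cut G (W ∩ U j) ≤
      ∑ a ∈ W ∩ U j, ((G.neighborFinset a \ W).card + (G.neighborFinset a ∩ Y).card) := by
    intro j hj
    rw [mem_range] at hj
    unfold cut
    refine sum_le_sum fun a ha => ?_
    refine le_trans (card_le_card ?_) (card_union_le _ _)
    intro b hb
    rw [Finset.mem_sdiff, SimpleGraph.mem_neighborFinset, mem_inter] at hb
    rw [mem_union, Finset.mem_sdiff, SimpleGraph.mem_neighborFinset, mem_inter,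
      SimpleGraph.mem_neighborFinset]
    by_cases hbW : b ∈ W
    · right
      exact ⟨hb.1, hbY j hj a (mem_inter.1 ha).2 b hbW (fun h => hb.2 ⟨hbW, h⟩) hb.1⟩
    · exact Or.inl ⟨hb.1, hbW⟩
  have hpd : (↑(range m) : Set ℕ).PairwiseDisjoint fun j => W ∩ U j := by
    intro j hj j' hj' hne
    rw [Function.onFun, disjoint_left]
    intro x hx hx'
    have := hdisj j (mem_range.1 hj) j' (mem_range.1 hj') hne x (mem_inter.1 hx).2 x
      (mem_inter.1 hx').2
    simp at this
  have htot : ∑ j ∈ range m, ∑ a ∈ W ∩ U j,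
      ((G.neighborFinset a \ W).card + (G.neighborFinset a ∩ Y).card) ≤ cut G W + Y.card * d := by
    classical
    rw [← sum_biUnion hpd]
    refine (sum_le_sum_of_subset (t := W) ?_).trans ?_
    · intro a ha
      rw [mem_biUnion] at ha
      obtain ⟨j, -, ha⟩ := ha
      exact (mem_inter.1 ha).1
    · rw [sum_add_distrib]
      refine Nat.add_le_add_left ?_ _
      calc ∑ a ∈ W, (G.neighborFinset a ∩ Y).card
          = ∑ a ∈ W, ∑ b ∈ Y, if G.Adj a b then 1 else 0 := by
            refine sum_congr rfl fun a _ => ?_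
            rw [← card_filter]
            have e : G.neighborFinset a ∩ Y = Y.filter fun b => G.Adj a b := by
              ext b
              rw [mem_inter, SimpleGraph.mem_neighborFinset, mem_filter, and_comm]
            rw [e]
        _ = ∑ b ∈ Y, ∑ a ∈ W, if G.Adj a b then 1 else 0 := sum_comm
        _ ≤ ∑ _b ∈ Y, d := by
            refine sum_le_sum fun b _ => ?_
            rw [← card_filter]
            refine le_trans (card_le_card ?_) (h.deg b)
            intro a ha
            rw [mem_filter] at ha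
            rw [SimpleGraph.mem_neighborFinset]
            exact ha.2.symm
        _ = Y.card * d := by rw [sum_const, smul_eq_mul]
  calc m * C0 = ∑ _j ∈ range m, C0 := by rw [sum_const, card_range, smul_eq_mul]
    _ ≤ ∑ j ∈ range m, cut G (W ∩ U j) := sum_le_sum fun j hj => hcutj j (mem_range.1 hj)
    _ ≤ _ := sum_le_sum hsplit
    _ ≤ _ := htot
    _ ≤ cut G W + m * (d * ((ρ + 1) * v Rθ)) := by
        refine Nat.add_le_add_left ?_ _
        calc Y.card * d ≤ m * ((ρ + 1) * v Rθ) * d := Nat.mul_le_mul_right _ hYc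
          _ = _ := by ring

end Pool.Agent.SIM
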