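import Pool.Agent.SIM.St

/-!
# SIM [Ext]: choice of a good exit, double counting
-/

set_option autoImplicit false

namespace Pool.Agent.SIM

open Finset Filter Pool.Agent.Helper30.Perc Pool.Agent.Helper22.PG

/-- numerics -/
private lemma ext_num (C v0 : ℕ) (K δ : ℝ) (hδ : 0 < δ) :
    ∃ p₀ : ℕ, ∀ p : ℕ, p₀ ≤ p → (∀ D : ℕ, δ * p ≤ D → 2 * |K| * p * (1 / 2 : ℝ) ^ D ≤ 1 / 4) ∧
      2 * |K| * p * v0 + v0 * (8 * |K| * p * (C * p)) < (p : ℝ) ^ 3 := by
  have hK : 0 ≤ |K| := abs_nonneg K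
  set r : ℝ := (1 / 2 : ℝ) ^ δ with hr
  have hr0 : 0 ≤ r := Real.rpow_nonneg (by norm_num) _
  have hr1 : r < 1 := Real.rpow_lt_one (by norm_num) (by norm_num) hδ
  have ht := tendsto_self_mul_const_pow_of_lt_one hr0 hr1
  have ht2 : Tendsto (fun n : ℕ => 2 * |K| * ((n : ℝ) * r ^ n)) atTop (nhds (2 * |K| * 0)) :=
    ht.const_mul _
  rw [mul_zero] at ht2
  have hev : ∀ᶠ n : ℕ in atTop, 2 * |K| * ((n : ℝ) * r ^ n) < 1 / 4 :=
    ht2.eventually (gt_mem_nhds (by norm_num))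
  obtain ⟨n0, hn0⟩ := eventually_atTop.1 hev
  obtain ⟨n1, hn1⟩ := exists_nat_gt (2 * |K| * v0 + 8 * |K| * C * v0)
  refine ⟨max n0 (max n1 1), fun p hp => ⟨fun D hD => ?_, ?_⟩⟩
  · have hp0 : n0 ≤ p := (le_max_left _ _).trans hp
    have h1 := hn0 p hp0
    have h2 : (1 / 2 : ℝ) ^ D ≤ r ^ p := by
      rw [← Real.rpow_natCast (1 / 2 : ℝ) D, hr, ← Real.rpow_natCast _ p, ← Real.rpow_mul (by norm_num)]
      exact Real.rpow_le_rpow_of_exponent_ge (by norm_num) (by norm_num) hD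
    calc 2 * |K| * p * (1 / 2 : ℝ) ^ D ≤ 2 * |K| * p * r ^ p := by
          refine mul_le_mul_of_nonneg_left h2 (by positivity)
      _ = 2 * |K| * ((p : ℝ) * r ^ p) := by ring
      _ ≤ 1 / 4 := h1.le
  · have hp1 : n1 ≤ p := (le_max_left _ _).trans ((le_max_right _ _).trans hp)
    have hp2 : 1 ≤ p := (le_max_right _ _).trans ((le_max_right _ _).trans hp)
    have hp1' : (n1 : ℝ) ≤ p := by exact_mod_cast hp1
    have hp2' : (1 : ℝ) ≤ p := by exact_mod_cast hp2
    have ha : 0 ≤ |K| * v0 := by positivity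
    have hpp : (p : ℝ) ≤ (p : ℝ) ^ 2 := by nlinarith
    calc 2 * |K| * p * v0 + v0 * (8 * |K| * p * (C * p))
        = 2 * (|K| * v0) * p + 8 * |K| * C * v0 * (p : ℝ) ^ 2 := by ring
      _ ≤ 2 * (|K| * v0) * (p : ℝ) ^ 2 + 8 * |K| * C * v0 * (p : ℝ) ^ 2 := by
          have := mul_le_mul_of_nonneg_left hpp (by positivity : 0 ≤ 2 * (|K| * v0))
          linarith
      _ = (2 * |K| * v0 + 8 * |K| * C * v0) * (p : ℝ) ^ 2 := by ring
      _ < (p : ℝ) * (p : ℝ) ^ 2 := by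
          refine mul_lt_mul_of_pos_right (hn1.trans_le hp1') (by positivity)
      _ = (p : ℝ) ^ 3 := by ring

/-- the number of bad exits -/
private lemma ext_bad {Γ : Type} [Group Γ] [DecidableEq Γ] {G : SimpleGraph Γ}
    {C c₀ D : ℕ} (P : Plan G C c₀ D) (Y : Finset (Sym2 Γ)) (z : Γ)
    (hY : ((vert Y).card : ℝ) * (1 / 2 : ℝ) ^ D ≤ 1 / 4) (Bd : Finset Γ)
    (hBd : ∀ e ∈ Bd, 1 / 2 ≤ P.U Y (z * e)) :
    (Bd.card : ℝ) ≤ 4 * ((vert Y).card * (C * D)) := by
  have h1 : ∀ e ∈ Bd, (1 / 4 : ℝ) ≤ ∑ o ∈ vert Y, P.pth ((z * e)⁻¹ * o) := by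
    intro e he
    have h2 := hBd e he
    unfold Plan.U at h2
    have h3 : ∑ o ∈ vert Y, P.u ((z * e)⁻¹ * o) ≤
        ∑ o ∈ vert Y, ((1 / 2 : ℝ) ^ D + P.pth ((z * e)⁻¹ * o)) :=
      sum_le_sum fun o _ => P.up _
    rw [sum_add_distrib, sum_const, nsmul_eq_mul] at h3
    linarith
  have h2 : (Bd.card : ℝ) * (1 / 4) ≤ ∑ e ∈ Bd, ∑ o ∈ vert Y, P.pth ((z * e)⁻¹ * o) := by
    rw [← nsmul_eq_mul, ← sum_const]
    exact sum_le_sum h1
  rw [sum_comm] at h2
  have h3 : ∀ o ∈ vert Y, ∑ e ∈ Bd, P.pth ((z * e)⁻¹ * o) ≤ C * D := by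
    intro o _
    have hinj : Set.InjOn (fun e : Γ => (z * e)⁻¹ * o) (Bd : Set Γ) := by
      intro a _ b _ hab
      simpa using hab
    have h4 := P.psum (Bd.image fun e => (z * e)⁻¹ * o)
    rw [sum_image hinj] at h4
    exact h4
  have h4 := sum_le_sum h3
  rw [sum_const, nsmul_eq_mul] at h4
  linarith

theorem thm_Ext : St_Ext := by
  intro Γ _ _ G _ d c v hG C c₀ K δ hδ
  obtain ⟨p₀, hp₀⟩ := ext_num C (v c₀) K δ hδ
  refine ⟨p₀, fun p hp D P hD1 hD2 z T B Y ρ j N hYc hB hN hρ hcard => ?_⟩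
  obtain ⟨hnum1, hnum2⟩ := hp₀ p hp
  have hpn : (0 : ℝ) ≤ p := Nat.cast_nonneg p
  have hYc' : (Y.card : ℝ) ≤ |K| * p := hYc.trans (mul_le_mul_of_nonneg_right (le_abs_self K) hpn)
  have hV : ((vert Y).card : ℝ) ≤ 2 * |K| * p := by
    have h1 : ((vert Y).card : ℝ) ≤ 2 * Y.card := by exact_mod_cast card_vert Y
    linarith
  have hD2' : (D : ℝ) ≤ p := by exact_mod_cast hD2
  -- the exits
  have hex : ∀ x : Γ, ∃ e : Γ, x ∈ N → e ∈ P.E ∧ G.dist (z⁻¹ * x) e ≤ c₀ := by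
    intro x
    by_cases hx : x ∈ N
    · have h1 : G.dist 1 (z⁻¹ * x) = G.dist z x := (hG.dist_one z x).symm
      have h2 := hN.di x hx
      obtain ⟨e, he, hed⟩ := P.Ec (z⁻¹ * x) (by rw [h1]; omega)
      exact ⟨e, fun _ => ⟨he, hed⟩⟩
    · exact ⟨1, fun h => absurd h hx⟩
  choose ex hex using hex
  have hexd : ∀ x ∈ N, G.dist x (z * ex x) ≤ c₀ := by
    intro x hx
    have h1 := (hex x hx).2
    rw [← hG.dist_mul z, mul_inv_cancel_left] at h1
    exact h1
  classical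
  set Bd : Finset Γ := P.E.filter fun e => 1 / 2 ≤ P.U Y (z * e) with hBd
  have hBdc : (Bd.card : ℝ) ≤ 4 * ((vert Y).card * (C * D)) := by
    refine ext_bad P Y z ?_ Bd fun e he => (mem_filter.1 he).2
    refine (mul_le_mul_of_nonneg_right hV (by positivity)).trans (hnum1 D hD1)
  have hgood : ∃ x ∈ N, (∀ o ∈ vert Y, c₀ < G.dist x o) ∧ ex x ∉ Bd := by
    by_contra hcon
    push Not at hcon
    have hsub : N ⊆ ((vert Y).biUnion fun o => bl G o c₀) ∪ Bd.biUnion fun e => bl G (z * e) c₀ := by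
      intro x hx
      rw [mem_union]
      by_cases hnear : ∀ o ∈ vert Y, c₀ < G.dist x o
      · right
        have h1 := hcon x hx hnear
        rw [mem_biUnion]
        refine ⟨ex x, h1, ?_⟩
        rw [mem_bl hG.conn, SimpleGraph.dist_comm]
        exact hexd x hx
      · left
        push Not at hnear
        obtain ⟨o, ho, hod⟩ := hnear
        rw [mem_biUnion]
        refine ⟨o, ho, ?_⟩
        rw [mem_bl hG.conn, SimpleGraph.dist_comm]
        exact hod
    have h1 : N.card ≤ (vert Y).card * v c₀ + Bd.card * v c₀ := by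
      refine (card_le_card hsub).trans ((card_union_le _ _).trans (Nat.add_le_add ?_ ?_))
      · refine card_biUnion_le.trans ?_
        rw [sum_congr rfl fun o _ => hG.vol o c₀, sum_const, smul_eq_mul]
      · refine card_biUnion_le.trans ?_
        rw [sum_congr rfl fun e _ => hG.vol (z * e) c₀, sum_const, smul_eq_mul]
    have h2 : (p : ℝ) ^ 3 ≤ (vert Y).card * v c₀ + Bd.card * v c₀ := by
      exact_mod_cast hcard.trans h1
    have hv0 : (0 : ℝ) ≤ v c₀ := Nat.cast_nonneg _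
    have hC0 : (0 : ℝ) ≤ C := Nat.cast_nonneg _
    have h3 : ((vert Y).card : ℝ) * v c₀ ≤ 2 * |K| * p * v c₀ :=
      mul_le_mul_of_nonneg_right hV hv0
    have h4 : (Bd.card : ℝ) ≤ 8 * |K| * p * (C * p) := by
      refine hBdc.trans ?_
      have h5 : ((vert Y).card : ℝ) * (C * D) ≤ 2 * |K| * p * (C * p) :=
        mul_le_mul hV (mul_le_mul_of_nonneg_left hD2' hC0) (by positivity) (by positivity)
      linarith
    have h6 : (Bd.card : ℝ) * v c₀ ≤ v c₀ * (8 * |K| * p * (C * p)) := by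
      rw [mul_comm]
      exact mul_le_mul_of_nonneg_left h4 hv0
    linarith
  obtain ⟨x, hx, hnear, hbad⟩ := hgood
  obtain ⟨heE, -⟩ := hex x hx
  obtain ⟨Q, hQc, hQG, hQd, hQr⟩ := hN.re x hx
  obtain ⟨w, hw⟩ := hG.conn.exists_walk_length_eq_dist x (z * ex x)
  have hwc : w.length ≤ c₀ := hw.trans_le (hexd x hx)
  have hsup : ∀ a ∈ w.support, G.dist x a ≤ c₀ := by
    intro a ha
    exact (SimpleGraph.dist_le (w.takeUntil a ha)).trans ((w.length_takeUntil_le_length ha).trans hwc)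
  have hedge : ∀ a b : Γ, s(a, b) ∈ w.edges → s(a, b) ∉ B ∧ s(a, b) ∉ Y := by
    intro a b hab
    have ha : a ∈ w.support := w.fst_mem_support_of_mem_edges hab
    have h1 := hsup a ha
    refine ⟨fun h => ?_, fun h => ?_⟩
    · have h2 := hB a (mem_vert_left h)
      have h3 := hN.di x hx
      have h4 := hG.conn.dist_triangle (u := z) (v := x) (w := a)
      omega
    · have h2 := hnear a (mem_vert_left h)
      omega
  refine ⟨ex x, heE, Q ∪ w.edges.toFinset, ?_, ?_, ?_, ?_, ?_⟩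
  · refine (card_union_le _ _).trans (Nat.add_le_add hQc ?_)
    refine (List.toFinset_card_le _).trans ?_
    rw [SimpleGraph.Walk.length_edges]
    exact hwc
  · intro e he
    rw [coe_union] at he
    rcases he with he | he
    · exact hQG he
    · rw [mem_coe, List.mem_toFinset] at he
      exact w.edges_subset_edgeSet he
  · rw [disjoint_union_left]
    refine ⟨hQd, ?_⟩
    rw [disjoint_left]
    intro e he heBY
    rw [List.mem_toFinset] at he
    induction e using Sym2.ind with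
    | _ a b =>
      rcases mem_union.1 heBY with h | h
      · exact (hedge a b he).1 h
      · exact (hedge a b he).2 h
  · have hmono : ∀ S S' : Finset (Sym2 Γ), S ⊆ S' →
        SimpleGraph.fromEdgeSet (S : Set (Sym2 Γ)) ≤ SimpleGraph.fromEdgeSet (S' : Set (Sym2 Γ)) :=
      fun S S' h => SimpleGraph.fromEdgeSet_mono (by exact_mod_cast h)
    have h1 : (SimpleGraph.fromEdgeSet ((T ∪ (Q ∪ w.edges.toFinset) : Finset (Sym2 Γ)) :
        Set (Sym2 Γ))).Reachable z x := by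
      refine hQr.mono (hmono _ _ ?_)
      exact union_subset_union (subset_refl _) subset_union_left
    have h2 : (SimpleGraph.fromEdgeSet ((T ∪ (Q ∪ w.edges.toFinset) : Finset (Sym2 Γ)) :
        Set (Sym2 Γ))).Reachable x (z * ex x) := by
      refine ⟨w.transfer _ ?_⟩
      intro e he
      rw [SimpleGraph.edgeSet_fromEdgeSet]
      refine ⟨?_, ?_⟩
      · rw [mem_coe, mem_union, mem_union, List.mem_toFinset]
        exact Or.inr (Or.inr he)
      · exact G.not_isDiag_of_mem_edgeSet (w.edges_subset_edgeSet he)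
    exact h1.trans h2
  · by_contra hU
    push Not at hU
    exact hbad (mem_filter.2 ⟨heE, hU⟩)

end Pool.Agent.SIM
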