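import Pool.Agent.SIM.St

/-!
# Percolation games, SIM [Gr]: exponential growth
-/

set_option autoImplicit false

namespace Pool.Agent.SIM

open Finset Filter Pool.Agent.Helper30.Perc Pool.Agent.Helper22.PG

theorem thm_Gr (h1 : St_Wd1) (h2 : St_Wd2) : St_Gr := by
  intro Γ _ _ G _ hinv hconn H lam δ t k Λ c₀ hS
  obtain ⟨-, hb, -⟩ := h1 Γ G H lam δ t k Λ c₀ hS
  obtain ⟨cu, R, -, hw⟩ := h2 Γ G hinv hconn H lam δ t k Λ c₀ hS
  refine ⟨cu, fun n => ?_⟩
  have h3 : (univ : Finset (Fin n → Bool)).card = 2 ^ n := by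
    rw [card_univ, Fintype.card_fun, Fintype.card_bool, Fintype.card_fin]
  rw [← h3]
  refine card_le_card_of_injOn (fun f => wd t k (List.ofFn f)) ?_ ?_
  · intro f _
    obtain ⟨w, hwl, -⟩ := hw (List.ofFn f)
    rw [List.length_ofFn] at hwl
    exact mem_coe.2 ((mem_bl hconn _ _ _).2 ((SimpleGraph.dist_le w).trans hwl))
  · intro f _ f' _ hff
    by_contra hne
    have h4 := hb (List.ofFn f) (List.ofFn f') (by rw [List.length_ofFn, List.length_ofFn])
      (fun h => hne (List.ofFn_injective h))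
    have h5 : wd t k (List.ofFn f) = wd t k (List.ofFn f') := hff
    rw [h5, hS.d0] at h4
    have h6 : 0 < δ 1 k / 3 * lam t ^ (List.ofFn f).length :=
      mul_pos (div_pos hS.k0 (by norm_num)) (pow_pos (hS.lpos t hS.tH) _)
    linarith

end Pool.Agent.SIM
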