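import Pool.Agent.SIM.St

/-!
# Gro: growth of a sequence
-/

set_option autoImplicit false

namespace Pool.Agent.SIM

open Finset Filter

private theorem Gro_num (C η : ℝ) (hC : 0 ≤ C) (hη : 0 < η) : ∃ L₀ : ℕ, ∀ L : ℕ, L₀ ≤ L →
    C * ((L : ℝ) + 1) ^ 2 + 1 ≤ η * 2 ^ L := by
  have h := tendsto_pow_const_div_const_pow_of_one_lt 2 (r := (2 : ℝ)) (by norm_num)
  have h1 : ∀ᶠ n : ℕ in atTop, (n : ℝ) ^ 2 / 2 ^ n < η / (4 * C + 1) :=
    h.eventually (gt_mem_nhds (by positivity))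
  obtain ⟨N, hN⟩ := eventually_atTop.1 h1
  refine ⟨max N 1, fun L hL => ?_⟩
  have h2 := hN L ((le_max_left _ _).trans hL)
  have h3 : (1 : ℝ) ≤ L := by exact_mod_cast (le_max_right _ _).trans hL
  rw [div_lt_div_iff₀ (by positivity) (by positivity)] at h2
  have h4 : ((L : ℝ) + 1) ^ 2 ≤ 4 * (L : ℝ) ^ 2 := by nlinarith
  have h5 : C * ((L : ℝ) + 1) ^ 2 ≤ C * (4 * (L : ℝ) ^ 2) := mul_le_mul_of_nonneg_left h4 hC
  have h6 : (1 : ℝ) ≤ (L : ℝ) ^ 2 := by nlinarith
  nlinarith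

theorem thm_Gro : St_Gro := by
  intro d A K ε η hd hA hε hη
  have hd' : (0 : ℝ) < d := by exact_mod_cast hd
  have hA' : (0 : ℝ) < A := by exact_mod_cast hA
  set K' : ℝ := max K 1 with hK'
  have hK1 : (1 : ℝ) ≤ K' := le_max_right _ _
  have hKK : K ≤ K' := le_max_left _ _
  set C : ℝ := 8 * K' * A * d / ε + 1 + 24 * d * A with hC
  have hC0 : 0 ≤ C := by positivity
  obtain ⟨L₀, hL₀⟩ := Gro_num C η hC0 hη
  refine ⟨2 ^ L₀, fun p hp J f hJ hf0 h1 h2 => ?_⟩
  by_contra hcon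
  push Not at hcon
  -- setup
  set L : ℕ := Nat.log 2 p with hL
  have hp0 : p ≠ 0 := by
    have : 0 < 2 ^ L₀ := by positivity
    omega
  have hLL : L₀ ≤ L := (Nat.le_log_iff_pow_le (by norm_num) hp0).2 hp
  have hpL : 2 ^ L ≤ p := Nat.pow_log_le_self 2 hp0
  have hpL' : p < 2 ^ (L + 1) := Nat.lt_pow_succ_log_self (by norm_num) p
  have hpR : (0 : ℝ) < p := by exact_mod_cast Nat.pos_of_ne_zero hp0
  have hbig := hL₀ L hLL
  have hpow : η * 2 ^ L ≤ η * p := by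
    refine mul_le_mul_of_nonneg_left ?_ hη.le
    exact_mod_cast hpL
  -- monotone
  have hmono : ∀ j < J, (f j : ℝ) ≤ f (j + 1) := by
    intro j hj
    have := h1 j hj
    have h3 : (d : ℝ) * f j ≤ d * f (j + 1) := by
      have : 0 < ε * p := by positivity
      linarith [h1 j hj]
    exact le_of_mul_le_mul_left h3 hd'
  have hlin : ∀ j ≤ J, (j : ℝ) * (ε * p) ≤ d * (f j : ℝ) := by
    intro j
    induction j with
    | zero => intro _; simp only [Nat.cast_zero, zero_mul]; positivity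
    | succ n ih =>
      intro hn
      have := ih (by omega)
      have h3 := h1 n (by omega)
      push_cast
      linarith
  have hf1 : ∀ j ≤ J, (1 : ℝ) ≤ f j := by
    intro j
    induction j with
    | zero => intro _; exact_mod_cast hf0
    | succ n ih => intro hn; exact (ih (by omega)).trans (hmono n (by omega))
  -- the two stages
  set τ : ℕ := 2 * d * A * (3 * L + 4) with hτ
  have hτ0 : 0 < τ := by positivity
  have hτ' : (0 : ℝ) < τ := by exact_mod_cast hτ0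
  set j₁ : ℕ := ⌈2 * K' * A * d * (3 * L + 4) / ε⌉₊ with hj₁
  set m : ℕ := τ * (3 * (L + 1)) with hm
  have hLr : (0 : ℝ) ≤ L := Nat.cast_nonneg _
  have hj₁le : (j₁ : ℝ) ≤ 8 * K' * A * d / ε * ((L : ℝ) + 1) ^ 2 + ((L : ℝ) + 1) ^ 2 := by
    have h3 : (j₁ : ℝ) ≤ 2 * K' * A * d * (3 * L + 4) / ε + 1 :=
      (Nat.ceil_lt_add_one (by positivity)).le
    have h4 : 2 * K' * A * d * (3 * L + 4) / ε ≤ 8 * K' * A * d / ε * ((L : ℝ) + 1) ^ 2 := by
      have e1 : 2 * K' * A * d * (3 * (L : ℝ) + 4) / ε = 8 * K' * A * d / ε * ((3 * L + 4) / 4) := by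
        field_simp
        ring
      rw [e1]
      refine mul_le_mul_of_nonneg_left ?_ (by positivity)
      nlinarith
    have h5 : (1 : ℝ) ≤ ((L : ℝ) + 1) ^ 2 := by nlinarith
    linarith
  have hmle : (m : ℝ) ≤ 24 * d * A * ((L : ℝ) + 1) ^ 2 := by
    rw [hm, hτ]
    push_cast
    have h3 : (3 * (L : ℝ) + 4) * (3 * (L + 1)) ≤ 12 * (L + 1) ^ 2 := by nlinarith
    have h4 : (0 : ℝ) ≤ 2 * d * A := by positivity
    nlinarith [mul_le_mul_of_nonneg_left h3 h4]
  have htot : j₁ + m ≤ J := by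
    have h3 : ((j₁ + m : ℕ) : ℝ) + 1 ≤ J + 1 := by
      push_cast
      have h4 : C * ((L : ℝ) + 1) ^ 2 = 8 * K' * A * d / ε * ((L : ℝ) + 1) ^ 2 +
        ((L : ℝ) + 1) ^ 2 + 24 * d * A * ((L : ℝ) + 1) ^ 2 := by rw [hC]; ring
      linarith
    have h4 : ((j₁ + m : ℕ) : ℝ) ≤ (J : ℝ) := by linarith
    exact_mod_cast h4
  -- growth after the first stage
  have hstep : ∀ j, j₁ ≤ j → j < J → (f j : ℝ) * (1 + 1 / τ) ≤ f (j + 1) := by
    intro j hj hjJ
    have hfj := hlin j hjJ.le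
    have hlt : f j < p ^ 3 := hcon j hjJ.le
    have hf0' : f j ≠ 0 := by
      have := hf1 j hjJ.le
      intro h0
      rw [h0] at this
      norm_num at this
    have hlog : Nat.log 2 (f j) + 1 ≤ 3 * L + 3 := by
      have h3 : f j < 2 ^ (3 * L + 3) := by
        calc f j < p ^ 3 := hlt
          _ ≤ (2 ^ (L + 1)) ^ 3 := Nat.pow_le_pow_left hpL'.le 3
          _ = 2 ^ (3 * L + 3) := by rw [← pow_mul]; ring_nf
      have := (Nat.log_lt_iff_lt_pow (by norm_num : 1 < 2) hf0').2 h3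
      omega
    have hlogr : ((Nat.log 2 (f j) : ℝ) + 1) ≤ 3 * L + 4 := by
      have : ((Nat.log 2 (f j) + 1 : ℕ) : ℝ) ≤ ((3 * L + 3 : ℕ) : ℝ) := by exact_mod_cast hlog
      push_cast at this
      linarith
    have hjr0 : 2 * K' * A * d * (3 * L + 4) / ε ≤ (j₁ : ℝ) := Nat.le_ceil _
    have hjr1 : (j₁ : ℝ) ≤ (j : ℝ) := Nat.cast_le.2 hj
    have hjr : 2 * K' * A * d * (3 * L + 4) / ε ≤ (j : ℝ) := hjr0.trans hjr1
    have hfbig : 2 * K' * p * (A * (3 * L + 4)) ≤ f j := by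
      rw [div_le_iff₀ hε] at hjr
      have h3 : 2 * K' * A * d * (3 * L + 4) * p ≤ j * ε * p :=
        mul_le_mul_of_nonneg_right hjr hpR.le
      have h4 : (d : ℝ) * (2 * K' * p * (A * (3 * L + 4))) ≤ d * f j := by
        calc (d : ℝ) * (2 * K' * p * (A * (3 * L + 4))) = 2 * K' * A * d * (3 * L + 4) * p := by ring
          _ ≤ j * ε * p := h3
          _ = j * (ε * p) := by ring
          _ ≤ d * f j := hfj
      exact le_of_mul_le_mul_left h4 hd'
    have h3 := h2 j hjJ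
    have h4 : (f j : ℝ) / (A * (3 * L + 4)) ≤ (f j : ℝ) / (A * (Nat.log 2 (f j) + 1)) := by
      refine div_le_div_of_nonneg_left (Nat.cast_nonneg _) (by positivity) ?_
      exact mul_le_mul_of_nonneg_left hlogr hA'.le
    have h5 : K * p ≤ (f j : ℝ) / (2 * (A * (3 * L + 4))) := by
      rw [le_div_iff₀ (by positivity)]
      calc K * p * (2 * (A * (3 * L + 4))) ≤ K' * p * (2 * (A * (3 * L + 4))) := by
            refine mul_le_mul_of_nonneg_right (mul_le_mul_of_nonneg_right hKK hpR.le) (by positivity)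
        _ = 2 * K' * p * (A * (3 * L + 4)) := by ring
        _ ≤ f j := hfbig
    have h6 : (f j : ℝ) / (A * (3 * L + 4)) =
        (f j : ℝ) / (2 * (A * (3 * L + 4))) + (f j : ℝ) / (2 * (A * (3 * L + 4))) := by
      field_simp
      ring
    have h7 : (f j : ℝ) / (2 * (A * (3 * L + 4))) + d * f j ≤ d * f (j + 1) := by linarith
    have h8 : (d : ℝ) * ((f j : ℝ) * (1 + 1 / τ)) =
        (f j : ℝ) / (2 * (A * (3 * L + 4))) + d * f j := by
      rw [hτ]
      push_cast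
      field_simp
      ring
    rw [← h8] at h7
    exact le_of_mul_le_mul_left h7 hd'
  have hgeo : ∀ i ≤ m, (1 + 1 / (τ : ℝ)) ^ i ≤ f (j₁ + i) := by
    intro i
    induction i with
    | zero => intro _; simpa using hf1 j₁ (by omega)
    | succ n ih =>
      intro hn
      have h3 := ih (by omega)
      have h4 := hstep (j₁ + n) (by omega) (by omega)
      rw [pow_succ]
      calc (1 + 1 / (τ : ℝ)) ^ n * (1 + 1 / τ) ≤ f (j₁ + n) * (1 + 1 / τ) :=
            mul_le_mul_of_nonneg_right h3 (by positivity)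
        _ ≤ f (j₁ + n + 1) := h4
  have hfin := hgeo m le_rfl
  have hber : (2 : ℝ) ≤ (1 + 1 / (τ : ℝ)) ^ τ := by
    have h3 := one_add_mul_le_pow (a := 1 / (τ : ℝ)) (by
      have : (0 : ℝ) ≤ 1 / τ := by positivity
      linarith) τ
    have h4 : (τ : ℝ) * (1 / τ) = 1 := by field_simp
    linarith
  have h9 : (p : ℝ) ^ 3 ≤ f (j₁ + m) := by
    calc (p : ℝ) ^ 3 ≤ (2 ^ (L + 1)) ^ 3 := by
          refine pow_le_pow_left₀ hpR.le ?_ 3
          exact_mod_cast hpL'.le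
      _ = 2 ^ (3 * (L + 1)) := by rw [← pow_mul, mul_comm]
      _ ≤ ((1 + 1 / (τ : ℝ)) ^ τ) ^ (3 * (L + 1)) := pow_le_pow_left₀ (by norm_num) hber _
      _ = (1 + 1 / (τ : ℝ)) ^ m := by rw [← pow_mul]
      _ ≤ _ := hfin
  have h10 : p ^ 3 ≤ f (j₁ + m) := by exact_mod_cast h9
  exact absurd (hcon _ htot) (not_lt.2 h10)

end Pool.Agent.SIM
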