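import Pool.Agent.SIM.St

/-!
# SIM [Inf]: a live Maker has an infinite component
-/

set_option autoImplicit false

namespace Pool.Agent.SIM

open Finset Filter Pool.Agent.Helper30.Perc Pool.Agent.Helper22.PG

/-- a translated walk which avoids the vertices of `B` -/
theorem inf_walk {Γ : Type} [Group Γ] [DecidableEq Γ] {G : SimpleGraph Γ} [G.LocallyFinite]
    {d c : ℕ} {v : ℕ → ℕ} (hG : CG G d c v) (B : Finset (Sym2 Γ)) (z : Γ) {a b : Γ}
    (p : G.Walk a b) (hp : ∀ u ∈ p.support, z * u ∉ vert B) :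
    (G.deleteEdges (B : Set (Sym2 Γ))).Reachable (z * a) (z * b) := by
  induction p with
  | nil => exact SimpleGraph.Reachable.refl _
  | @cons a b c' h q ih =>
    have h1 : (G.deleteEdges (B : Set (Sym2 Γ))).Adj (z * a) (z * b) := by
      rw [SimpleGraph.deleteEdges_adj]
      refine ⟨(hG.inv z a b).2 h, fun h2 => ?_⟩
      refine hp a ?_ (mem_vert_left (by exact_mod_cast h2))
      rw [SimpleGraph.Walk.support_cons]
      exact List.mem_cons_self
    refine h1.reachable.trans (ih fun u hu => hp u ?_)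
    rw [SimpleGraph.Walk.support_cons]
    exact List.mem_cons_of_mem _ hu

theorem thm_Inf (h : St_Stp) : St_Inf := by
  intro Γ _ _ G _ d c v hG C c₀ D P k M B hL
  obtain ⟨hM, hB, hMB, z, X0, -, hX, hXB, hz, hU⟩ := hL
  have h0 : (G.deleteEdges (B : Set (Sym2 Γ))).Reachable 1 z := by
    refine hz.mono ?_
    intro a b hab
    rw [SimpleGraph.fromEdgeSet_adj] at hab
    rw [SimpleGraph.deleteEdges_adj]
    have h1 : s(a, b) ∈ M ∪ X0 := by exact_mod_cast hab.1
    rcases Finset.mem_union.1 h1 with h2 | h2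
    · exact ⟨hM (by exact_mod_cast h2), fun h3 =>
        Finset.disjoint_left.1 hMB h2 (by exact_mod_cast h3)⟩
    · exact ⟨hX (by exact_mod_cast h2), fun h3 =>
        Finset.disjoint_left.1 hXB h2 (by exact_mod_cast h3)⟩
  have hstep : ∀ x : {z : Γ // P.U B z < 1}, ∃ w : P.W,
      (∀ o ∈ vert B, x.1⁻¹ * o ∉ (P.wk w).support) ∧ P.U B (x.1 * P.g w) < 1 := by
    intro x
    obtain ⟨w, hw1, hw2⟩ := h Γ G C c₀ D P B x.1 x.2
    refine ⟨w, fun o ho => (hw1 o ho).1, ?_⟩
    have h1 := hw2 1 P.E1
    rw [mul_one] at h1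
    have h2 := x.2
    linarith
  choose f hf1 hf2 using hstep
  set nxt : {z : Γ // P.U B z < 1} → {z : Γ // P.U B z < 1} :=
    fun x => ⟨x.1 * P.g (f x), hf2 x⟩ with hnxt
  have hreach : ∀ (n : ℕ) (x : {z : Γ // P.U B z < 1}),
      (G.deleteEdges (B : Set (Sym2 Γ))).Reachable x.1 (nxt^[n] x).1 := by
    intro n
    induction n with
    | zero => exact fun x => SimpleGraph.Reachable.refl _
    | succ n ih =>
      intro x
      rw [Function.iterate_succ_apply]
      refine SimpleGraph.Reachable.trans ?_ (ih (nxt x))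
      have h1 := inf_walk hG B x.1 (P.wk (f x)) (fun u hu hmem => by
        apply hf1 x _ hmem
        rw [inv_mul_cancel_left]
        exact hu)
      rw [mul_one] at h1
      exact h1
  have hlist : ∀ (n : ℕ) (x : {z : Γ // P.U B z < 1}), ∃ l : List P.W, l.length = n ∧
      (nxt^[n] x).1 = x.1 * (l.map P.g).prod := by
    intro n
    induction n with
    | zero => exact fun x => ⟨[], rfl, by simp⟩
    | succ n ih =>
      intro x
      obtain ⟨l, hl1, hl2⟩ := ih (nxt x)
      refine ⟨f x :: l, by rw [List.length_cons, hl1], ?_⟩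
      rw [Function.iterate_succ_apply, hl2, List.map_cons, List.prod_cons, ← mul_assoc]
  set x0 : {z : Γ // P.U B z < 1} := ⟨z, hU⟩ with hx0
  have hne : ∀ i j : ℕ, i < j → (nxt^[i] x0).1 ≠ (nxt^[j] x0).1 := by
    intro i j hij heq
    obtain ⟨l, hl1, hl2⟩ := hlist (j - i) (nxt^[i] x0)
    rw [← Function.iterate_add_apply, Nat.sub_add_cancel hij.le, ← heq] at hl2
    have h1 : (l.map P.g).prod = 1 := by
      have h2 : (nxt^[i] x0).1 * 1 = (nxt^[i] x0).1 * (l.map P.g).prod := by
        rw [mul_one]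
        exact hl2
      exact (mul_left_cancel h2).symm
    refine P.prod l ?_ h1
    rintro rfl
    rw [List.length_nil] at hl1
    omega
  have hinj : Function.Injective fun n => (nxt^[n] x0).1 := by
    intro i j hij
    rcases Nat.lt_trichotomy i j with h1 | h1 | h1
    · exact absurd hij (hne i j h1)
    · exact h1
    · exact absurd hij.symm (hne j i h1)
  exact Set.infinite_of_injective_forall_mem hinj fun n => h0.trans (hreach n x0)

end Pool.Agent.SIM
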