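import Pool.Agent.SIM.St

/-!
# SIM [Iso2]: isoperimetry, logarithmic form
-/

set_option autoImplicit false

namespace Pool.Agent.SIM

open Finset Filter Pool.Agent.Helper30.Perc Pool.Agent.Helper22.PG

theorem thm_Iso2 (h : St_Iso1) : St_Iso2 := by
  intro Γ _ _ G _ d c v hG W
  rcases W.eq_empty_or_nonempty with rfl | hne
  · simp
  · set l := Nat.log 2 W.card with hl
    have h1 : W.card < 2 ^ (l + 1) := Nat.lt_pow_succ_log_self (by norm_num) _
    have h2 : 2 ^ (l + 2) ≤ v (c * (l + 2)) := hG.gr (l + 2)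
    have h3 : 2 * W.card ≤ v (c * (l + 2)) := by
      have : 2 ^ (l + 2) = 2 * 2 ^ (l + 1) := by rw [pow_succ]; ring
      omega
    have h4 := h Γ G d c v hG W (c * (l + 2)) (by
      intro x _
      have : (W ∩ bl G x (c * (l + 2))).card ≤ W.card := card_le_card inter_subset_left
      omega)
    refine h4.trans (Nat.mul_le_mul_right _ ?_)
    have h5 : l + 2 ≤ 2 * (l + 1) := by omega
    calc 2 * (c * (l + 2)) ≤ 2 * (c * (2 * (l + 1))) :=
          Nat.mul_le_mul_left _ (Nat.mul_le_mul_left _ h5)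
      _ = 4 * c * (l + 1) := by ring

end Pool.Agent.SIM
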