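import Pool.Agent.SIM.St

/-!
# Percolation games on Cayley graphs: localisation of minimal admissible sets
-/

set_option autoImplicit false

namespace Pool.Agent.SIM

open Finset Filter Pool.Agent.Helper30.Perc Pool.Agent.Helper22.PG

section

variable {V : Type} [DecidableEq V] (G : SimpleGraph V) [G.LocallyFinite]

/-- the number of pairs of adjacent vertices in `X × Y` -/
def loc_e (X Y : Finset V) : ℕ := ∑ a ∈ X, (G.neighborFinset a ∩ Y).card

lemma loc_e_comm (X Y : Finset V) : loc_e G X Y = loc_e G Y X := by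
  unfold loc_e
  have h : ∀ X Y : Finset V, ∑ a ∈ X, (G.neighborFinset a ∩ Y).card =
      ∑ a ∈ X, ∑ b ∈ Y, if b ∈ G.neighborFinset a then 1 else 0 := by
    intro X Y
    refine sum_congr rfl fun a _ => ?_
    rw [← card_filter, inter_comm, filter_mem_eq_inter]
  rw [h X Y, h Y X, sum_comm]
  refine sum_congr rfl fun b _ => sum_congr rfl fun a _ => ?_
  have h1 : b ∈ G.neighborFinset a ↔ a ∈ G.neighborFinset b := by
    rw [SimpleGraph.mem_neighborFinset, SimpleGraph.mem_neighborFinset, G.adj_comm]
  by_cases h2 : a ∈ G.neighborFinset b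
  · rw [if_pos h2, if_pos (h1.2 h2)]
  · rw [if_neg h2, if_neg (fun h3 => h2 (h1.1 h3))]

lemma loc_e_le (d : ℕ) (hd : ∀ x, (G.neighborFinset x).card ≤ d) (X Y : Finset V) :
    loc_e G X Y ≤ d * X.card := by
  unfold loc_e
  calc ∑ a ∈ X, (G.neighborFinset a ∩ Y).card ≤ ∑ _a ∈ X, d :=
        sum_le_sum fun a _ => (card_le_card inter_subset_left).trans (hd a)
    _ = d * X.card := by rw [sum_const, smul_eq_mul, mul_comm]

lemma loc_e_union_le (X Y Z : Finset V) : loc_e G X (Y ∪ Z) ≤ loc_e G X Y + loc_e G X Z := by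
  unfold loc_e
  rw [← sum_add_distrib]
  refine sum_le_sum fun a _ => ?_
  rw [inter_union_distrib_left]
  exact card_union_le _ _

lemma loc_e_mono (X : Finset V) {Y Z : Finset V} (h : Y ⊆ Z) : loc_e G X Y ≤ loc_e G X Z :=
  sum_le_sum fun _ _ => card_le_card (inter_subset_inter_left h)

lemma loc_cut (W Q : Finset V) (hQ : Q ⊆ W) :
    cut G (W \ Q) + (∑ a ∈ Q, (G.neighborFinset a \ W).card) = cut G W + loc_e G Q (W \ Q) ∧
    cut G Q = (∑ a ∈ Q, (G.neighborFinset a \ W).card) + loc_e G Q (W \ Q) := by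
  constructor
  · have h1 : cut G (W \ Q) = (∑ a ∈ W \ Q, (G.neighborFinset a \ W).card) +
        loc_e G (W \ Q) Q := by
      unfold cut loc_e
      rw [← sum_add_distrib]
      refine sum_congr rfl fun a _ => ?_
      rw [← card_union_of_disjoint]
      · congr 1
        ext b
        simp only [Finset.mem_sdiff, mem_union, mem_inter]
        constructor
        · rintro ⟨h2, h3⟩
          by_cases h4 : b ∈ W
          · right
            refine ⟨h2, ?_⟩
            by_contra h5
            exact h3 ⟨h4, h5⟩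
          · left
            exact ⟨h2, h4⟩
        · rintro (⟨h2, h3⟩ | ⟨h2, h3⟩)
          · exact ⟨h2, fun h4 => h3 h4.1⟩
          · exact ⟨h2, fun h4 => h4.2 h3⟩
      · rw [disjoint_left]
        intro b hb hb'
        rw [Finset.mem_sdiff] at hb
        rw [mem_inter] at hb'
        exact hb.2 (hQ hb'.2)
    have h2 : cut G W = (∑ a ∈ W \ Q, (G.neighborFinset a \ W).card) +
        ∑ a ∈ Q, (G.neighborFinset a \ W).card := by
      unfold cut
      rw [sum_sdiff hQ]
    rw [h1, h2, loc_e_comm]
    ring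
  · unfold cut loc_e
    rw [← sum_add_distrib]
    refine sum_congr rfl fun a _ => ?_
    rw [← card_union_of_disjoint]
    · congr 1
      ext b
      simp only [Finset.mem_sdiff, mem_union, mem_inter]
      constructor
      · rintro ⟨h2, h3⟩
        by_cases h4 : b ∈ W
        · right
          exact ⟨h2, h4, h3⟩
        · left
          exact ⟨h2, h4⟩
      · rintro (⟨h2, h3⟩ | ⟨h2, h3, h4⟩)
        · exact ⟨h2, fun h4 => h3 (hQ h4)⟩
        · exact ⟨h2, h4⟩
    · rw [disjoint_left]
      intro b hb hb'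
      rw [Finset.mem_sdiff] at hb
      rw [mem_inter, Finset.mem_sdiff] at hb'
      exact hb.2 hb'.2.1

end

/-- growth of a sequence -/
lemma loc_grow (F N : ℕ → ℕ) (d c M : ℕ) (hcd : 0 < c * d) (hF : Monotone F) (hM : ∀ r, F r ≤ M)
    (h0 : 1 ≤ F 0)
    (hN : ∀ r, 32 * c * d * (kk d c r + 1) * N r ≤ 2 ^ kk d c r)
    (hstep : ∀ r, F (r + 1) ≤ 4 * c * (Nat.log 2 (F (r + 1)) + 1) *
      (2 * (d * N (r + 1) + d * (F (r + 1) - F r)))) : False := by
  have hkk : ∀ k r, (16 * c * d + 1) * k ^ 2 ≤ r → r < (16 * c * d + 1) * (k + 1) ^ 2 →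
      kk d c r = k := by
    intro k r h1 h2
    unfold kk
    have hpos : 0 < 16 * c * d + 1 := Nat.succ_pos _
    symm
    rw [Nat.eq_sqrt']
    constructor
    · rw [Nat.le_div_iff_mul_le hpos, mul_comm]
      exact h1
    · rw [Nat.div_lt_iff_lt_mul hpos, mul_comm]
      exact h2
  have key : ∀ k, 2 ^ k ≤ F ((16 * c * d + 1) * k ^ 2) := by
    intro k
    induction k with
    | zero => simpa using h0
    | succ k ih =>
      by_contra hcon
      push Not at hcon
      have h1 : ∀ j, j < (16 * c * d + 1) * (2 * k + 1) →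
          F ((16 * c * d + 1) * k ^ 2) * (16 * c * d * (k + 1)) + j * 2 ^ k ≤
            F ((16 * c * d + 1) * k ^ 2 + j) * (16 * c * d * (k + 1)) := by
        intro j
        induction j with
        | zero => intro _; simp
        | succ j ihj =>
          intro hj
          have h2 := ihj (by omega)
          have e1 : (16 * c * d + 1) * (k + 1) ^ 2 =
            (16 * c * d + 1) * k ^ 2 + (16 * c * d + 1) * (2 * k + 1) := by ring
          set r := (16 * c * d + 1) * k ^ 2 + j with hr
          have h3 : kk d c (r + 1) = k := hkk k (r + 1) (by omega) (by omega)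
          have h4 : 2 ^ k ≤ F (r + 1) := ih.trans (hF (by omega))
          have h5 : F (r + 1) < 2 ^ (k + 1) := lt_of_le_of_lt (hF (by omega)) hcon
          have h6 : Nat.log 2 (F (r + 1)) = k := by
            rw [Nat.log_eq_iff (Or.inr ⟨by norm_num, by omega⟩)]
            exact ⟨h4, h5⟩
          have h7 := hstep r
          have h8 := hN (r + 1)
          rw [h6] at h7
          rw [h3] at h8
          have h9 : F r ≤ F (r + 1) := hF (by omega)
          obtain ⟨t, ht⟩ := Nat.exists_eq_add_of_le h9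
          have h10 : F (r + 1) - F r = t := by omega
          rw [h10] at h7
          have e2 : (16 * c * d + 1) * k ^ 2 + (j + 1) = r + 1 := by omega
          rw [e2, ht]
          -- 2 ^ k ≤ 16 c d (k+1) t
          have h11 : 2 ^ k ≤ 16 * c * d * (k + 1) * t := by
            have h12 : 2 ^ k ≤ 8 * (c * d * (k + 1) * N (r + 1)) + 8 * (c * d * (k + 1) * t) := by
              calc 2 ^ k ≤ F (r + 1) := h4
                _ ≤ _ := h7
                _ = _ := by ring
            have h13 : 32 * (c * d * (k + 1) * N (r + 1)) ≤ 2 ^ k := by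
              calc 32 * (c * d * (k + 1) * N (r + 1)) = 32 * c * d * (k + 1) * N (r + 1) := by ring
                _ ≤ _ := h8
            have h14 : 16 * c * d * (k + 1) * t = 16 * (c * d * (k + 1) * t) := by ring
            rw [h14]
            omega
          calc F ((16 * c * d + 1) * k ^ 2) * (16 * c * d * (k + 1)) + (j + 1) * 2 ^ k
              = (F ((16 * c * d + 1) * k ^ 2) * (16 * c * d * (k + 1)) + j * 2 ^ k) + 2 ^ k := by
                ring
            _ ≤ F r * (16 * c * d * (k + 1)) + 16 * c * d * (k + 1) * t := Nat.add_le_add h2 h11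
            _ = (F r + t) * (16 * c * d * (k + 1)) := by ring
      have hj : (16 * c * d) * (k + 1) < (16 * c * d + 1) * (2 * k + 1) := by
        have : (16 * c * d + 1) * (2 * k + 1) =
          (16 * c * d) * (k + 1) + (16 * c * d * k + (2 * k + 1)) := by ring
        omega
      have h2 := h1 _ hj
      have h3 : F ((16 * c * d + 1) * k ^ 2) + 2 ^ k ≤
          F ((16 * c * d + 1) * k ^ 2 + (16 * c * d) * (k + 1)) := by
        refine Nat.le_of_mul_le_mul_right (c := 16 * c * d * (k + 1)) ?_ ?_
        · calc _ = F ((16 * c * d + 1) * k ^ 2) * (16 * c * d * (k + 1)) +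
              (16 * c * d) * (k + 1) * 2 ^ k := by ring
            _ ≤ _ := h2
        · have : 16 * c * d * (k + 1) = 16 * (c * d) * (k + 1) := by ring
          rw [this]
          positivity
      have h4 : F ((16 * c * d + 1) * k ^ 2 + (16 * c * d) * (k + 1)) ≤
          F ((16 * c * d + 1) * (k + 1) ^ 2) := by
        refine hF ?_
        have : (16 * c * d + 1) * (k + 1) ^ 2 =
          (16 * c * d + 1) * k ^ 2 + (16 * c * d + 1) * (2 * k + 1) := by ring
        omega
      have h5 : 2 ^ (k + 1) = 2 ^ k + 2 ^ k := by ring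
      omega
  have h1 := key M
  have h2 := hM ((16 * c * d + 1) * M ^ 2)
  have h3 : M < 2 ^ M := M.lt_two_pow_self
  omega

theorem thm_Loc (h : St_Iso2) : St_Loc := by
  intro Γ _ _ G _ d c v hG o T W hW x hx
  by_contra hcon
  push Not at hcon
  set V0 := insert o (vert T) with hV0
  have hc := hG.c_pos
  have hd := hG.d_pos
  have hmono : ∀ r s, r ≤ s → (W ∩ bl G x r) \ V0 ⊆ (W ∩ bl G x s) \ V0 := fun r s hrs =>
    sdiff_subset_sdiff (inter_subset_inter_left (bl_mono hG.conn x hrs)) subset_rfl
  have hN0 : (V0 ∩ bl G x 0).card = 0 := by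
    have h1 := hcon 0
    have h2 : kk d c 0 = 0 := by simp [kk]
    rw [h2] at h1
    by_contra h3
    have h4 : 1 ≤ (V0 ∩ bl G x 0).card := Nat.one_le_iff_ne_zero.2 h3
    have h5 : 1 ≤ c * d := Nat.mul_pos hc hd
    have h6 : 32 ≤ 32 * c * d * (0 + 1) * (V0 ∩ bl G x 0).card := by
      calc 32 = 32 * 1 * 1 := by norm_num
        _ ≤ 32 * (c * d) * (V0 ∩ bl G x 0).card :=
            Nat.mul_le_mul (Nat.mul_le_mul_left _ h5) h4
        _ = _ := by ring
    simp only [pow_zero] at h1
    omega
  have hxV : x ∉ V0 := by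
    intro hxV
    rw [card_eq_zero] at hN0
    have : x ∈ V0 ∩ bl G x 0 := mem_inter.2 ⟨hxV, self_mem_bl x 0⟩
    rw [hN0] at this
    simp at this
  have hxQ : ∀ r, x ∈ (W ∩ bl G x r) \ V0 := fun r =>
    Finset.mem_sdiff.2 ⟨mem_inter.2 ⟨hx, self_mem_bl x r⟩, hxV⟩
  refine loc_grow (fun r => ((W ∩ bl G x r) \ V0).card) (fun r => (V0 ∩ bl G x r).card) d c
    W.card (Nat.mul_pos hc hd) (fun r s hrs => card_le_card (hmono r s hrs))
    (fun r => card_le_card (sdiff_subset.trans inter_subset_left)) ?_ hcon ?_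
  · exact card_pos.2 ⟨x, hxQ 0⟩
  · intro r
    set Q := (W ∩ bl G x (r + 1)) \ V0 with hQdef
    have hQW : Q ⊆ W := sdiff_subset.trans inter_subset_left
    have hcut : cut G Q < 2 * loc_e G Q (W \ Q) := by
      obtain ⟨h1, h2⟩ := loc_cut G W Q hQW
      have hadm : Adm o T (W \ Q) := by
        refine ⟨Finset.mem_sdiff.2 ⟨hW.1.1, fun ho => ?_⟩, fun a b hab ha => ?_⟩
        · exact (Finset.mem_sdiff.1 ho).2 (mem_insert_self _ _)
        · refine Finset.mem_sdiff.2 ⟨hW.1.2 a b hab (Finset.mem_sdiff.1 ha).1, fun hb => ?_⟩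
          exact (Finset.mem_sdiff.1 hb).2 (mem_insert_of_mem (mem_vert_right hab))
      obtain ⟨h3, h4⟩ := hW.2 _ hadm
      have h5 : cut G (W \ Q) ≠ cut G W := by
        intro h6
        have h7 := h4 h6
        have h8 : W \ Q ⊂ W := by
          rw [ssubset_iff_subset_ne]
          refine ⟨sdiff_subset, fun h9 => ?_⟩
          have h10 : x ∈ W \ Q := by rw [h9]; exact hx
          exact (Finset.mem_sdiff.1 h10).2 (hxQ (r + 1))
        have h9 := card_lt_card h8
        omega
      omega
    have hle : loc_e G Q (W \ Q) ≤ d * (V0 ∩ bl G x (r + 1)).card +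
        d * (Q.card - ((W ∩ bl G x r) \ V0).card) := by
      have h1 : W \ Q ⊆ (V0 ∩ bl G x (r + 1)) ∪ ((W \ Q) \ bl G x (r + 1)) := by
        intro b hb
        rw [mem_union, mem_inter, Finset.mem_sdiff]
        by_cases hb' : b ∈ bl G x (r + 1)
        · left
          refine ⟨?_, hb'⟩
          by_contra hbV
          rw [Finset.mem_sdiff] at hb
          exact hb.2 (Finset.mem_sdiff.2 ⟨mem_inter.2 ⟨hb.1, hb'⟩, hbV⟩)
        · right
          exact ⟨hb, hb'⟩
      refine (loc_e_mono G Q h1).trans ((loc_e_union_le G _ _ _).trans (Nat.add_le_add ?_ ?_))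
      · rw [loc_e_comm]
        exact loc_e_le G d hG.deg _ _
      · have h2 : loc_e G Q ((W \ Q) \ bl G x (r + 1)) =
            loc_e G (Q \ ((W ∩ bl G x r) \ V0)) ((W \ Q) \ bl G x (r + 1)) := by
          unfold loc_e
          symm
          refine sum_subset sdiff_subset fun a ha ha' => ?_
          have ha2 : a ∈ (W ∩ bl G x r) \ V0 := by
            by_contra h3
            exact ha' (Finset.mem_sdiff.2 ⟨ha, h3⟩)
          rw [card_eq_zero, eq_empty_iff_forall_notMem]
          intro b hb
          rw [mem_inter, SimpleGraph.mem_neighborFinset, Finset.mem_sdiff] at hb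
          have h4 : a ∈ bl G x r := (mem_inter.1 (Finset.mem_sdiff.1 ha2).1).2
          refine hb.2.2 ?_
          simp only [bl, mem_union, mem_biUnion, SimpleGraph.mem_neighborFinset]
          exact Or.inr ⟨a, h4, hb.1⟩
        rw [h2]
        refine (loc_e_le G d hG.deg _ _).trans (Nat.mul_le_mul_left _ ?_)
        rw [card_sdiff_of_subset (hmono r (r + 1) (Nat.le_succ r))]
    have hiso := h Γ G d c v hG Q
    calc Q.card ≤ 4 * c * (Nat.log 2 Q.card + 1) * cut G Q := hiso
      _ ≤ 4 * c * (Nat.log 2 Q.card + 1) * (2 * (d * (V0 ∩ bl G x (r + 1)).card +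
          d * (Q.card - ((W ∩ bl G x r) \ V0).card))) := by
          refine Nat.mul_le_mul_left _ (hcut.le.trans (Nat.mul_le_mul_left _ hle))

end Pool.Agent.SIM
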