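import Pool.Agent.SIM.St

/-!
# Minimal admissible sets

Existence of minimal admissible sets, their connectedness and their size.
-/

set_option autoImplicit false

namespace Pool.Agent.SIM

open Finset Filter Pool.Agent.Helper30.Perc Pool.Agent.Helper22.PG

lemma min_adm0 {Γ : Type} [DecidableEq Γ] (o : Γ) (T : Finset (Sym2 Γ)) :
    Adm o T (insert o (vert T)) :=
  ⟨mem_insert_self _ _, fun _ _ hab _ => mem_insert_of_mem (mem_vert_right hab)⟩

lemma min_exists {Γ : Type} [Group Γ] [DecidableEq Γ] (G : SimpleGraph Γ) [G.LocallyFinite]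
    (o : Γ) (T : Finset (Sym2 Γ)) : ∃ W, MinAdm G o T W := by
  classical
  have hP : ∃ n, ∃ W, Adm o T W ∧ cut G W = n := ⟨_, _, min_adm0 o T, rfl⟩
  have hQ : ∃ m, ∃ W, Adm o T W ∧ cut G W = Nat.find hP ∧ W.card = m := by
    obtain ⟨W, h1, h2⟩ := Nat.find_spec hP
    exact ⟨_, W, h1, h2, rfl⟩
  obtain ⟨W, h1, h2, h3⟩ := Nat.find_spec hQ
  refine ⟨W, h1, fun W' hW' => ⟨?_, fun hc => ?_⟩⟩
  · rw [h2]
    exact Nat.find_min' hP ⟨W', hW', rfl⟩
  · rw [h3]
    exact Nat.find_min' hQ ⟨W', hW', hc.trans h2, rfl⟩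

lemma min_dist {Γ : Type} [Group Γ] [DecidableEq Γ] (G : SimpleGraph Γ) [G.LocallyFinite]
    (o : Γ) (T : Finset (Sym2 Γ)) (hT : (T : Set (Sym2 Γ)) ⊆ G.edgeSet) (W : Finset Γ)
    (hW : MinAdm G o T W) (x : Γ) (hx : x ∈ W) : G.dist o x < W.card := by
  classical
  obtain ⟨⟨ho, hadm⟩, hmin⟩ := hW
  have ho' : o ∈ (W : Set Γ) := by exact_mod_cast ho
  let A : Finset Γ := W.filter fun y => ∃ hy : y ∈ (W : Set Γ),
    (G.induce (W : Set Γ)).Reachable ⟨o, ho'⟩ ⟨y, hy⟩
  have hAW : A ⊆ W := filter_subset _ _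
  have hstep : ∀ a ∈ A, ∀ b ∈ W, G.Adj a b → b ∈ A := by
    intro a ha b hb hab
    obtain ⟨haW, ha', hr⟩ := mem_filter.1 ha
    have hb' : b ∈ (W : Set Γ) := by exact_mod_cast hb
    refine mem_filter.2 ⟨hb, hb', hr.trans ?_⟩
    have h1 : (G.induce (W : Set Γ)).Adj ⟨a, ha'⟩ ⟨b, hb'⟩ := hab
    exact h1.reachable
  have hA : Adm o T A := by
    refine ⟨mem_filter.2 ⟨ho, ho', SimpleGraph.Reachable.refl _⟩, fun a b hab ha => ?_⟩
    refine hstep a ha b (hadm a b hab (hAW ha)) ?_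
    exact hT (by exact_mod_cast hab)
  have hcut : cut G A ≤ cut G W := by
    unfold cut
    calc ∑ a ∈ A, (G.neighborFinset a \ A).card ≤ ∑ a ∈ A, (G.neighborFinset a \ W).card := by
          refine sum_le_sum fun a ha => card_le_card fun b hb => ?_
          rw [Finset.mem_sdiff] at hb ⊢
          refine ⟨hb.1, fun hbW => hb.2 (hstep a ha b hbW ?_)⟩
          simpa using hb.1
      _ ≤ _ := sum_le_sum_of_subset hAW
  have h1 := hmin A hA
  have h2 : W.card ≤ A.card := h1.2 (le_antisymm hcut h1.1)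
  have h3 : A = W := eq_of_subset_of_card_le hAW h2
  have hxA : x ∈ A := by rw [h3]; exact hx
  obtain ⟨-, hx', hr⟩ := mem_filter.1 hxA
  obtain ⟨p, hp⟩ := hr.exists_isPath
  have h4 := hp.length_lt
  have h5 : Fintype.card (W : Set Γ) = W.card := by simp
  rw [h5] at h4
  let f : (G.induce (W : Set Γ)) →g G := (SimpleGraph.Embedding.induce (W : Set Γ)).toHom
  have h6 := SimpleGraph.dist_le (p.map f)
  rw [SimpleGraph.Walk.length_map] at h6
  exact lt_of_le_of_lt h6 h4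

lemma min_sq (j : ℕ) : (j + 1) ^ 2 ≤ 4 * 2 ^ j := by
  rcases Nat.lt_or_ge j 2 with h | h
  · interval_cases j <;> norm_num
  · induction j, h using Nat.le_induction with
    | base => norm_num
    | succ n hn ih =>
      have h1 : (n + 1 + 1) ^ 2 ≤ 2 * (n + 1) ^ 2 := by nlinarith
      have h2 : (2 : ℕ) ^ (n + 1) = 2 * 2 ^ n := by ring
      omega

lemma min_cut0 {Γ : Type} [Group Γ] [DecidableEq Γ] (G : SimpleGraph Γ) [G.LocallyFinite]
    (d : ℕ) (hd : ∀ x, (G.neighborFinset x).card ≤ d) (o : Γ) (T : Finset (Sym2 Γ)) :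
    cut G (insert o (vert T)) ≤ d * (2 * T.card + 1) := by
  have h1 : cut G (insert o (vert T)) ≤ ∑ _a ∈ insert o (vert T), d := by
    unfold cut
    exact sum_le_sum fun a _ => (card_le_card sdiff_subset).trans (hd a)
  rw [sum_const, smul_eq_mul, mul_comm] at h1
  refine h1.trans (Nat.mul_le_mul_left _ ?_)
  have h2 := card_insert_le o (vert T)
  have h3 := card_vert T
  omega

theorem thm_Min (h : St_Iso2) : St_Min := by
  intro Γ _ _ G _ d c v hG o T
  refine ⟨min_exists G o T, fun hT W hW => ⟨fun x hx => min_dist G o T hT W hW x hx, ?_⟩⟩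
  have h1 := h Γ G d c v hG W
  have h2 : cut G W ≤ d * (2 * T.card + 1) :=
    ((hW.2 _ (min_adm0 o T)).1).trans (min_cut0 G d hG.deg o T)
  rcases Nat.eq_zero_or_pos W.card with h0 | h0
  · omega
  set n := W.card with hn
  set L := Nat.log 2 n with hL
  set A := 4 * c * (d * (2 * T.card + 1)) with hA
  have h3 : n ≤ A * (L + 1) := by
    calc n ≤ 4 * c * (L + 1) * cut G W := h1
      _ ≤ 4 * c * (L + 1) * (d * (2 * T.card + 1)) := Nat.mul_le_mul_left _ h2
      _ = A * (L + 1) := by rw [hA]; ring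
  have h4 : 2 ^ L ≤ n := Nat.pow_log_le_self 2 (by omega)
  have h5 : (L + 1) ^ 2 ≤ 4 * n := (min_sq L).trans (Nat.mul_le_mul_left _ h4)
  have h6 : n * n ≤ 4 * A ^ 2 * n := by
    calc n * n ≤ (A * (L + 1)) * (A * (L + 1)) := Nat.mul_le_mul h3 h3
      _ = A ^ 2 * (L + 1) ^ 2 := by ring
      _ ≤ A ^ 2 * (4 * n) := Nat.mul_le_mul_left _ h5
      _ = 4 * A ^ 2 * n := by ring
  exact Nat.le_of_mul_le_mul_right h6 h0

end Pool.Agent.SIM
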