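import Pool.Agent.SIM.St

/-!
# SIM, module Mkr: Maker wins
-/

set_option autoImplicit false

namespace Pool.Agent.SIM

open Finset Filter Pool.Agent.Helper30.Perc Pool.Agent.Helper22.PG

theorem thm_Mkr (h1 : St_Inf) (h2 : St_Trn) : St_Mkr := by
  classical
  intro Γ _ _ G _ d c v hCG C c₀ hPl κ hκ ε hε hεκ
  obtain ⟨p₀, hp₀⟩ := h2 Γ G d c v hCG C c₀ hPl κ hκ ε hε hεκ
  refine ⟨p₀, fun p hp q hq => ?_⟩
  obtain ⟨D, k, P, hP⟩ := hp₀ p hp q hq
  refine makerWins_of_invariant G 1 p q (fun _ M B => Live G P k M B) ?_ ?_ ?_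
  · refine ⟨by simp, by simp, by simp, 1, ∅, by simp, by simp, by simp, ?_, ?_⟩
    · exact SimpleGraph.Reachable.refl _
    · have hv : vert (∅ : Finset (Sym2 Γ)) = ∅ := by
        ext x
        rw [mem_vert]
        simp
      simp [Plan.U, hv]
  · intro n M B hL
    obtain ⟨X, hX1, hX2, hX3, hX4⟩ := hP M B hL
    refine ⟨X, hX1, hX2, ?_, ?_⟩
    · rw [← Finset.coe_union]
      exact Finset.disjoint_coe.mpr hX3
    · intro M' B' Y hM' hB' hY1 hY2 hY3
      have hM'' : M' = M ∪ X := by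
        apply coe_injective
        rw [hM', coe_union]
      have hB'' : B' = B ∪ Y := by
        apply coe_injective
        rw [hB', coe_union]
      subst hM'' hB''
      refine hX4 Y hY1 hY2 ?_
      rw [← Finset.coe_union] at hY3
      exact Finset.disjoint_coe.mp hY3
  · intro n M B hL
    exact h1 Γ G d c v hCG C c₀ D P k M B hL

end Pool.Agent.SIM
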