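import Pool.Agent.SIM.St

/-!
# SIM module Nf: normal form of an action by similarities
-/

set_option autoImplicit false

namespace Pool.Agent.SIM

open Finset Filter Pool.Agent.Helper30.Perc Pool.Agent.Helper22.PG

private theorem nf_reach {Γ : Type} [Group Γ] (S : Finset Γ)
    (hS : Subgroup.closure (S : Set Γ) = ⊤) (x y : Γ) : (cay S).Reachable x y := by
  have key : ∀ g : Γ, ∀ x, (cay S).Reachable x (x * g) := by
    intro g
    have hg : g ∈ Subgroup.closure (S : Set Γ) := by
      rw [hS]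
      exact Subgroup.mem_top g
    induction hg using Subgroup.closure_induction with
    | mem s hs =>
      intro x
      by_cases h1 : s = 1
      · rw [h1, mul_one]
      · refine SimpleGraph.Adj.reachable ?_
        rw [cay, SimpleGraph.fromRel_adj]
        refine ⟨fun h => h1 ?_, Or.inl ?_⟩
        · have h2 : x * s = x * 1 := by rw [mul_one]; exact h.symm
          exact mul_left_cancel h2
        · rw [inv_mul_cancel_left]
          exact hs
    | one =>
      intro x
      rw [mul_one]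
    | mul g h _ _ ihg ihh =>
      intro x
      have h1 := (ihg x).trans (ihh (x * g))
      rwa [mul_assoc] at h1
    | inv g _ ih =>
      intro x
      have h1 := ih (x * g⁻¹)
      rw [inv_mul_cancel_right] at h1
      exact h1.symm
  have h1 := key (x⁻¹ * y) x
  rwa [mul_inv_cancel_left] at h1

/-- representatives of the right cosets, `1` for `H` itself -/
private theorem nf_rep {Γ : Type} [Group Γ] (H : Subgroup Γ) [H.FiniteIndex] :
    ∃ rep : Γ → Γ, (∀ y, y * (rep y)⁻¹ ∈ H) ∧ (∀ h ∈ H, ∀ y, rep (h * y) = rep y) ∧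
      (∀ y ∈ H, rep y = 1) ∧ (Set.range rep).Finite := by
  classical
  have hfin : Finite (Γ ⧸ H) := Subgroup.finite_quotient_of_finiteIndex
  refine ⟨fun y => if y ∈ H then 1 else (Quotient.out (QuotientGroup.mk y⁻¹ : Γ ⧸ H))⁻¹,
    ?_, ?_, ?_, ?_⟩
  · intro y
    by_cases hy : y ∈ H
    · simp only [if_pos hy, inv_one, mul_one]
      exact hy
    · simp only [if_neg hy, inv_inv]
      obtain ⟨h, hh⟩ := QuotientGroup.mk_out_eq_mul H y⁻¹
      rw [hh, mul_inv_cancel_left]
      exact h.2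
  · intro h hh y
    have h1 : h * y ∈ H ↔ y ∈ H := Subgroup.mul_mem_cancel_left H hh
    by_cases hy : y ∈ H
    · simp only [if_pos hy, if_pos (h1.2 hy)]
    · simp only [if_neg hy, if_neg (fun h2 => hy (h1.1 h2))]
      congr 2
      rw [QuotientGroup.eq]
      rw [inv_inv, mul_assoc, mul_inv_cancel, mul_one]
      exact hh
  · intro y hy
    simp only [if_pos hy]
  · have h1 : (Set.range fun q : Γ ⧸ H => (Quotient.out q)⁻¹).Finite := Set.finite_range _
    refine (h1.insert 1).subset ?_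
    rintro _ ⟨y, rfl⟩
    by_cases hy : y ∈ H
    · simp only [if_pos hy]
      exact Set.mem_insert _ _
    · simp only [if_neg hy]
      exact Set.mem_insert_of_mem _ ⟨_, rfl⟩

theorem thm_Nf : St_Nf := by
  classical
  intro Γ _ _ S hS H _ X _ _ _ _ lam hlam hne hfix
  -- two points
  obtain ⟨p, q, hpq⟩ : ∃ p q : X, p ≠ q := by
    by_contra hcon
    push Not at hcon
    obtain ⟨x⟩ := (inferInstance : Nonempty X)
    exact hfix ⟨x, fun h => hcon _ _⟩
  have hd : 0 < dist p q := dist_pos.2 hpq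
  have hpos : ∀ h, 0 < lam h := by
    intro h
    have h1 : 0 < dist (h • p) (h • q) := dist_pos.2 fun h2 => hpq (smul_left_cancel h h2)
    rw [hlam] at h1
    exact pos_of_mul_pos_left h1 hd.le
  have hmul : ∀ g h, lam (g * h) = lam g * lam h := by
    intro g h
    have h1 : dist ((g * h) • p) ((g * h) • q) = lam g * (lam h * dist p q) := by
      rw [mul_smul, mul_smul, hlam, hlam]
    rw [hlam, ← mul_assoc] at h1
    exact mul_right_cancel₀ hd.ne' h1
  have hone : lam 1 = 1 := by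
    have h1 := hmul 1 1
    rw [mul_one] at h1
    have h2 := hpos 1
    nlinarith
  have hinv : ∀ h, lam h * lam h⁻¹ = 1 := by
    intro h
    rw [← hmul, mul_inv_cancel, hone]
  have hpow : ∀ h (n : ℕ), lam (h ^ n) = lam h ^ n := by
    intro h n
    induction n with
    | zero => rw [pow_zero, pow_zero, hone]
    | succ n ih => rw [pow_succ, pow_succ, hmul, ih]
  obtain ⟨h₀, hh₀⟩ : ∃ h₀, lam h₀ < 1 := by
    obtain ⟨h, hh⟩ := hne
    rcases lt_or_gt_of_ne hh with h1 | h1
    · exact ⟨h, h1⟩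
    · refine ⟨h⁻¹, ?_⟩
      by_contra hcon
      have h2 := not_lt.1 hcon
      have h3 := hinv h
      nlinarith
  obtain ⟨n, hn⟩ := exists_pow_lt_of_lt_one (show (0 : ℝ) < 1 / 4 by norm_num) hh₀
  set t : H := h₀ ^ n with ht
  have ht1 : lam t < 1 / 4 := by rw [ht, hpow]; exact hn
  -- fixed point
  have hcw : ContractingWith (Real.toNNReal (lam t)) (fun x : X => t • x) := by
    refine ⟨?_, LipschitzWith.of_dist_le_mul fun x y => ?_⟩
    · rw [Real.toNNReal_lt_one]
      linarith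
    · rw [hlam, Real.coe_toNNReal _ (hpos t).le]
  set x₀ : X := hcw.fixedPoint with hx₀
  have hfx : t • x₀ = x₀ := hcw.fixedPoint_isFixedPt
  have huniq : ∀ y, t • y = y → y = x₀ := by
    intro y hy
    have h1 : dist (t • y) (t • x₀) = dist y x₀ := by rw [hy, hfx]
    rw [hlam] at h1
    have h2 : dist y x₀ = 0 := by
      have h3 : 0 ≤ dist y x₀ := dist_nonneg
      nlinarith
    exact dist_eq_zero.1 h2
  obtain ⟨h', hh'⟩ : ∃ h' : H, h' • x₀ ≠ x₀ := by
    by_contra hcon
    push Not at hcon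
    exact hfix ⟨x₀, hcon⟩
  set k : H := h' * t * h'⁻¹ * t⁻¹ with hk
  have hk1 : lam k = 1 := by
    rw [hk, hmul, hmul, hmul]
    have h1 := hinv h'
    have h2 := hinv t
    calc lam h' * lam t * lam h'⁻¹ * lam t⁻¹ = (lam h' * lam h'⁻¹) * (lam t * lam t⁻¹) := by ring
      _ = 1 := by rw [h1, h2, one_mul]
  have htx : t⁻¹ • x₀ = x₀ := by
    rw [inv_smul_eq_iff]
    exact hfx.symm
  have hkx : k • x₀ ≠ x₀ := by
    intro h
    rw [hk, mul_smul, htx, mul_smul, mul_smul] at h
    have h1 : t • (h'⁻¹ • x₀) = h'⁻¹ • x₀ := by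
      rw [eq_inv_smul_iff]
      exact h
    have h2 := huniq _ h1
    rw [inv_smul_eq_iff] at h2
    exact hh' h2.symm
  -- orbit map
  obtain ⟨rep, hr1, hr2, hr3, hr4⟩ := nf_rep H
  let f : Γ → H := fun y => ⟨y * (rep y)⁻¹, hr1 y⟩
  have hfmul : ∀ (h : H) (y : Γ), f ((h : Γ) * y) = h * f y := by
    intro h y
    apply Subtype.ext
    change (h : Γ) * y * (rep ((h : Γ) * y))⁻¹ = (h : Γ) * (y * (rep y)⁻¹)
    rw [hr2 _ h.2, mul_assoc]
  have hfH : ∀ h : H, f (h : Γ) = h := by
    intro h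
    apply Subtype.ext
    change (h : Γ) * (rep (h : Γ))⁻¹ = (h : Γ)
    rw [hr3 _ h.2, inv_one, mul_one]
  have hf1 : f 1 = 1 := hfH 1
  let b : Γ → X := fun y => f y • x₀
  have hb1 : b 1 = x₀ := by
    change f 1 • x₀ = x₀
    rw [hf1, one_smul]
  have hbH : ∀ h : H, b (h : Γ) = h • x₀ := by
    intro h
    change f (h : Γ) • x₀ = h • x₀
    rw [hfH]
  have hbmul : ∀ (h : H) (y : Γ), b ((h : Γ) * y) = h • b y := by
    intro h y
    change f ((h : Γ) * y) • x₀ = h • (f y • x₀)
    rw [hfmul, mul_smul]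
  -- the bound
  let A : Set H := {x | ∃ s ∈ Set.range rep, ∃ s' ∈ Set.range rep, ∃ σ : Γ, (σ ∈ S ∨ σ⁻¹ ∈ S) ∧
    (x : Γ) = s * σ * s'⁻¹}
  have hA : A.Finite := by
    have h1 : ((fun p : Γ × Γ × Γ => p.1 * p.2.1 * p.2.2⁻¹) ''
        (Set.range rep ×ˢ ({σ : Γ | σ ∈ S ∨ σ⁻¹ ∈ S} ×ˢ Set.range rep))).Finite := by
      refine Set.Finite.image _ (hr4.prod (Set.Finite.prod ?_ hr4))
      have h2 : {σ : Γ | σ ∈ S ∨ σ⁻¹ ∈ S} = (S : Set Γ) ∪ (fun σ => σ⁻¹) '' (S : Set Γ) := by
        ext σ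
        constructor
        · rintro (h | h)
          · exact Or.inl h
          · exact Or.inr ⟨σ⁻¹, h, inv_inv σ⟩
        · rintro (h | ⟨τ, h, rfl⟩)
          · exact Or.inl h
          · refine Or.inr ?_
            rw [inv_inv]
            exact h
      rw [h2]
      exact S.finite_toSet.union (S.finite_toSet.image _)
    refine Set.Finite.of_finite_image (f := Subtype.val) (h1.subset ?_)
      Subtype.val_injective.injOn
    rintro _ ⟨x, ⟨s, hs, s', hs', σ, hσ, hx⟩, rfl⟩
    exact ⟨(s, σ, s'), ⟨hs, hσ, hs'⟩, hx.symm⟩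
  obtain ⟨B, hB⟩ := (hA.image fun x => max (lam x) (dist x₀ (x • x₀))).bddAbove
  set Λ : ℝ := max 2 B with hΛ
  have hΛ2 : 2 ≤ Λ := le_max_left _ _
  have hΛA : ∀ x ∈ A, lam x ≤ Λ ∧ dist x₀ (x • x₀) ≤ Λ := by
    intro x hx
    have h1 := hB ⟨x, hx, rfl⟩
    have h2 : max (lam x) (dist x₀ (x • x₀)) ≤ Λ := h1.trans (le_max_right _ _)
    exact ⟨(le_max_left _ _).trans h2, (le_max_right _ _).trans h2⟩
  have hstep : ∀ y y', (cay S).Adj y y' → lam (f y') ≤ Λ * lam (f y) ∧
      dist (b y) (b y') ≤ Λ * lam (f y) := by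
    intro y y' hadj
    rw [cay, SimpleGraph.fromRel_adj] at hadj
    have hmem : rep y * (y⁻¹ * y') * (rep y')⁻¹ ∈ H := by
      have h1 := H.mul_mem (H.inv_mem (hr1 y)) (hr1 y')
      have h2 : (y * (rep y)⁻¹)⁻¹ * (y' * (rep y')⁻¹) = rep y * (y⁻¹ * y') * (rep y')⁻¹ := by
        group
      rwa [h2] at h1
    let x : H := ⟨rep y * (y⁻¹ * y') * (rep y')⁻¹, hmem⟩
    have hxA : x ∈ A := by
      refine ⟨rep y, ⟨y, rfl⟩, rep y', ⟨y', rfl⟩, y⁻¹ * y', ?_, rfl⟩
      rcases hadj.2 with h | h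
      · exact Or.inl h
      · refine Or.inr ?_
        rw [mul_inv_rev, inv_inv]
        exact h
    have hfx' : f y' = f y * x := by
      apply Subtype.ext
      change y' * (rep y')⁻¹ = y * (rep y)⁻¹ * (rep y * (y⁻¹ * y') * (rep y')⁻¹)
      group
    obtain ⟨h1, h2⟩ := hΛA x hxA
    have h3 := hpos (f y)
    constructor
    · rw [hfx', hmul, mul_comm]
      exact mul_le_mul_of_nonneg_right h1 h3.le
    · have h4 : b y' = f y • (x • x₀) := by
        change f y' • x₀ = _
        rw [hfx', mul_smul]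
      change dist (f y • x₀) (b y') ≤ _
      rw [h4, hlam, mul_comm]
      exact mul_le_mul_of_nonneg_right h2 h3.le
  have hΛ0 : 0 < Λ := by linarith
  have hwalk : ∀ (u v : Γ) (w : (cay S).Walk u v), v = 1 →
      lam (f u) ≤ Λ ^ w.length ∧ dist (b 1) (b u) ≤ Λ ^ (w.length + 1) := by
    intro u v w
    induction w with
    | nil =>
      intro hv
      subst hv
      rw [SimpleGraph.Walk.length_nil, hf1, hone, dist_self]
      exact ⟨by rw [pow_zero], by positivity⟩
    | cons hadj w' ih =>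
      rename_i a c e
      intro hv
      obtain ⟨i1, i2⟩ := ih hv
      obtain ⟨s1, s2⟩ := hstep c a hadj.symm
      rw [SimpleGraph.Walk.length_cons]
      have h5 : 0 < Λ ^ w'.length := by positivity
      constructor
      · refine s1.trans ?_
        rw [pow_succ, mul_comm]
        exact mul_le_mul_of_nonneg_right i1 hΛ0.le
      · refine (dist_triangle (b 1) (b c) (b a)).trans ?_
        have h6 : Λ * lam (f c) ≤ Λ * Λ ^ w'.length := mul_le_mul_of_nonneg_left i1 hΛ0.le
        have h7 : Λ ^ (w'.length + 1 + 1) = Λ * Λ ^ (w'.length + 1) := by ring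
        have h8 : Λ ^ (w'.length + 1) = Λ * Λ ^ w'.length := by ring
        have h9 : 0 < Λ ^ (w'.length + 1) := by positivity
        rw [h7]
        nlinarith
  have hgr : ∀ x, lam (f x) ≤ Λ ^ (cay S).dist 1 x ∧
      dist (b 1) (b x) ≤ Λ ^ ((cay S).dist 1 x + 1) := by
    intro x
    obtain ⟨w, hw⟩ := (nf_reach S hS x 1).exists_walk_length_eq_dist
    have h1 := hwalk x 1 w rfl
    rw [hw, SimpleGraph.dist_comm] at h1
    exact h1
  -- representatives
  have hfinq : Finite (Γ ⧸ H) := Subgroup.finite_quotient_of_finiteIndex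
  obtain ⟨c₀, hc₀⟩ := (Set.finite_range fun q : Γ ⧸ H => (cay S).dist 1 (Quotient.out q)).bddAbove
  refine ⟨fun g => if h : g ∈ H then lam ⟨g, h⟩ else 1, fun x y => dist (b x) (b y), t, k, Λ, c₀,
    ?_⟩
  have hl : ∀ (g : Γ) (hg : g ∈ H), (if h : g ∈ H then lam ⟨g, h⟩ else 1) = lam ⟨g, hg⟩ := by
    intro g hg
    rw [dif_pos hg]
  exact {
    d0 := fun x => dist_self _
    dn := fun x y => dist_nonneg
    sym := fun x y => dist_comm _ _
    tri := fun x y z => dist_triangle _ _ _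
    sc := by
      intro h hh x y
      have h1 : ∀ z, b (h * z) = (⟨h, hh⟩ : H) • b z := fun z => hbmul ⟨h, hh⟩ z
      simp only [hl h hh]
      rw [h1, h1, hlam]
    lpos := by
      intro h hh
      simp only [hl h hh]
      exact hpos _
    lmul := by
      intro g hg h hh
      simp only [hl g hg, hl h hh, hl (g * h) (H.mul_mem hg hh)]
      exact hmul ⟨g, hg⟩ ⟨h, hh⟩
    tH := t.2
    t1 := by
      simp only [hl (t : Γ) t.2]
      exact ht1.le
    t0 := by
      rw [hb1, hbH, hfx, dist_self]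
    kH := k.2
    k1 := by
      simp only [hl (k : Γ) k.2]
      exact hk1
    k0 := by
      rw [hb1, hbH]
      exact dist_pos.2 hkx.symm
    two := hΛ2
    gr := fun x => (hgr x).2
    grl := by
      intro h hh
      simp only [hl h hh]
      have h1 := (hgr h).1
      have h2 : f h = ⟨h, hh⟩ := hfH ⟨h, hh⟩
      rwa [h2] at h1
    fin := by
      intro x
      obtain ⟨h, hh⟩ := QuotientGroup.mk_out_eq_mul H x⁻¹
      refine ⟨Quotient.out (QuotientGroup.mk x⁻¹ : Γ ⧸ H), hc₀ ⟨_, rfl⟩, ?_⟩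
      rw [hh, mul_inv_cancel_left]
      exact h.2 }

end Pool.Agent.SIM
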