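import Pool.Agent.SIM.St

/-!
# SIM, module Num1: numerics
-/

set_option autoImplicit false

namespace Pool.Agent.SIM

open Finset Filter Pool.Agent.Helper30.Perc Pool.Agent.Helper22.PG

private theorem num1_pow (A : ℕ) : ∃ K : ℕ, ∀ k, K ≤ k → A * (k + 1) ^ 3 ≤ 2 ^ k := by
  have h1 := tendsto_pow_const_div_const_pow_of_one_lt 3 (one_lt_two : (1 : ℝ) < 2)
  have hpos : (0 : ℝ) < 1 / (2 * A + 1) := by positivity
  have h2 := h1.eventually (gt_mem_nhds hpos)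
  obtain ⟨K, hK⟩ := eventually_atTop.1 h2
  refine ⟨K, fun k hk => ?_⟩
  have h3 := hK (k + 1) (by omega)
  have h4 : (0 : ℝ) < 2 ^ (k + 1) := by positivity
  have h5 : (0 : ℝ) < 2 * A + 1 := by positivity
  rw [div_lt_div_iff₀ h4 h5, one_mul] at h3
  have h6 : ((2 * A + 1 : ℕ) : ℝ) * ((k + 1 : ℕ) : ℝ) ^ 3 < 2 ^ (k + 1) := by
    push_cast
    push_cast at h3
    linarith [h3]
  have h7 : (2 * A + 1) * (k + 1) ^ 3 < 2 ^ (k + 1) := by exact_mod_cast h6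
  have h8 : 2 ^ (k + 1) = 2 * 2 ^ k := by ring
  rw [h8] at h7
  nlinarith [h7, Nat.zero_le ((k + 1) ^ 3)]

theorem thm_Num1 : St_Num1 := by
  intro d c
  obtain ⟨K, hK⟩ := num1_pow (128 * c * d * (16 * c * d + 1))
  refine ⟨(16 * c * d + 1) * K ^ 2, fun r hr => ?_⟩
  set C2 := 16 * c * d + 1 with hC2
  have hC2pos : 0 < C2 := Nat.succ_pos _
  set k := kk d c r with hk
  have hk' : k = Nat.sqrt (r / C2) := rfl
  have h1 : K ≤ k := by
    rw [hk', Nat.le_sqrt', Nat.le_div_iff_mul_le hC2pos]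
    calc K ^ 2 * C2 = C2 * K ^ 2 := mul_comm _ _
      _ ≤ r := hr.le
  have h2 : r < C2 * (k + 1) ^ 2 := by
    have h3 : r / C2 < (k + 1) ^ 2 := by
      rw [hk']
      exact Nat.sqrt_lt'.1 (Nat.lt_succ_self _)
    rw [Nat.div_lt_iff_lt_mul hC2pos] at h3
    rw [mul_comm]
    exact h3
  have h3 : 2 * r + 1 ≤ 2 * (C2 * (k + 1) ^ 2) := by omega
  calc 32 * c * d * (k + 1) * (2 * (2 * r + 1))
      ≤ 32 * c * d * (k + 1) * (2 * (2 * (C2 * (k + 1) ^ 2))) := by gcongr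
    _ = 128 * c * d * C2 * (k + 1) ^ 3 := by ring
    _ ≤ 2 ^ k := hK k h1

end Pool.Agent.SIM
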