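import Pool.Agent.SIM.St

/-!
# Choice of the scales
-/

set_option autoImplicit false

namespace Pool.Agent.SIM

open Finset Filter Pool.Agent.Helper30.Perc Pool.Agent.Helper22.PG

private lemma num2_ev (K k : ℕ) : ∃ n₀ : ℕ, ∀ n, n₀ ≤ n → K * (n + 1) ^ k < 2 ^ n := by
  have h := tendsto_pow_const_div_const_pow_of_one_lt k (r := (2 : ℝ)) (by norm_num)
  have h1 : (0 : ℝ) < 1 / (2 * (K + 1)) := by positivity
  obtain ⟨n₀, hn₀⟩ := eventually_atTop.1 (h.eventually_lt_const h1)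
  refine ⟨n₀, fun n hn => ?_⟩
  have h2 := hn₀ (n + 1) (by omega)
  rw [div_lt_div_iff₀ (by positivity) (by positivity)] at h2
  have h3 : ((K * (n + 1) ^ k : ℕ) : ℝ) < ((2 ^ n : ℕ) : ℝ) := by
    push_cast at h2 ⊢
    have h4 : (0 : ℝ) ≤ ((n : ℝ) + 1) ^ k := by positivity
    have h5 : (2 : ℝ) ^ (n + 1) = 2 * 2 ^ n := by ring
    rw [h5] at h2
    nlinarith
  exact_mod_cast h3

private lemma num2_lin (A : ℝ) (ε : ℝ) (hε : 0 < ε) : ∃ n₀ : ℕ, ∀ n : ℕ, n₀ ≤ n →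
    A * ((n : ℝ) + 1) ≤ ε * (n : ℝ) ^ 4 := by
  obtain ⟨n₀, hn₀⟩ := exists_nat_ge (2 * |A| / ε)
  refine ⟨n₀ + 1, fun n hn => ?_⟩
  have h1 : (n₀ : ℝ) + 1 ≤ n := by exact_mod_cast hn
  have h0 : (0 : ℝ) ≤ n₀ := Nat.cast_nonneg _
  have h2 : 2 * |A| / ε ≤ n := by linarith
  rw [div_le_iff₀ hε] at h2
  have h3 : (1 : ℝ) ≤ n := by linarith
  have h4 : A ≤ |A| := le_abs_self A
  have h5 : (n : ℝ) ^ 2 ≤ (n : ℝ) ^ 4 := pow_le_pow_right₀ h3 (by norm_num)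
  have h6 : 0 ≤ |A| := abs_nonneg A
  calc A * ((n : ℝ) + 1) ≤ |A| * (2 * n) := by nlinarith
    _ = (2 * |A|) * n := by ring
    _ ≤ (n * ε) * n := by nlinarith
    _ = ε * (n : ℝ) ^ 2 := by ring
    _ ≤ ε * (n : ℝ) ^ 4 := by nlinarith

/-- `s` lies between the fourth powers of `R` and `R + 1` -/
private lemma num2_sqrt (s : ℕ) : Nat.sqrt (Nat.sqrt s) ^ 4 ≤ s ∧
    s + 1 ≤ (Nat.sqrt (Nat.sqrt s) + 1) ^ 4 := by
  set R := Nat.sqrt (Nat.sqrt s)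
  have h1 : R * R ≤ Nat.sqrt s := Nat.sqrt_le _
  have h2 : Nat.sqrt s * Nat.sqrt s ≤ s := Nat.sqrt_le _
  have h3 : Nat.sqrt s < (R + 1) * (R + 1) := Nat.lt_succ_sqrt _
  have h4 : s < (Nat.sqrt s + 1) * (Nat.sqrt s + 1) := Nat.lt_succ_sqrt _
  constructor
  · calc R ^ 4 = (R * R) * (R * R) := by ring
      _ ≤ Nat.sqrt s * Nat.sqrt s := Nat.mul_le_mul h1 h1
      _ ≤ s := h2
  · calc s + 1 ≤ (Nat.sqrt s + 1) * (Nat.sqrt s + 1) := h4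
      _ ≤ ((R + 1) * (R + 1)) * ((R + 1) * (R + 1)) := Nat.mul_le_mul h3 h3
      _ = (R + 1) ^ 4 := by ring

private lemma num2_rad (d c s x : ℕ) (h : s + 1 ≤ x ^ 4) :
    rad d c s ≤ 256 * (c ^ 2 * d ^ 2) * x ^ 8 := by
  unfold rad
  have h1 : 2 * s + 1 ≤ 2 * x ^ 4 := by omega
  calc 4 * (4 * c * (d * (2 * s + 1))) ^ 2 ≤ 4 * (4 * c * (d * (2 * x ^ 4))) ^ 2 := by gcongr
    _ = 256 * (c ^ 2 * d ^ 2) * x ^ 8 := by ring

private lemma num2_ring (A K B y : ℕ) :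
    A * y * (K * (B * y ^ 2) ^ 12) = A * K * B ^ 12 * y ^ 25 := by ring

private lemma num2_n2 (d c a : ℕ) : ∃ N : ℕ, ∀ s x r ρ : ℕ, s + 1 ≤ x ^ 4 → x ≤ r → N ≤ r →
    1 ≤ x → ρ ≤ a * x → 32 * c * d * (kk d c r + 1) *
      ((2 * r + 1) + (2 * (r + ρ + rad d c s) + 1) * ((ρ + 1) + (2 * s + 1))) ≤
      2 ^ kk d c r := by
  set b : ℕ := 256 * (c ^ 2 * d ^ 2) with hb
  set K1 : ℕ := 3 + (2 * a + 2 * b + 3) * (a + 3) with hK1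
  obtain ⟨k0, hk0⟩ := num2_ev (32 * c * d * K1 * (16 * c * d + 1) ^ 12) 25
  refine ⟨(16 * c * d + 1) * (k0 * k0), fun s x r ρ hs hx hN h1 hρ => ?_⟩
  have hr1 : 1 ≤ r := h1.trans hx
  have hs' : s + 1 ≤ r ^ 4 := hs.trans (Nat.pow_le_pow_left hx 4)
  have hrad : rad d c s ≤ b * r ^ 8 := num2_rad d c s r hs'
  have hρ' : ρ ≤ a * r := hρ.trans (Nat.mul_le_mul_left a hx)
  have hp4 : r ≤ r ^ 4 := Nat.le_self_pow (by norm_num) r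
  have hp8 : r ≤ r ^ 8 := Nat.le_self_pow (by norm_num) r
  have hp12 : r ≤ r ^ 12 := Nat.le_self_pow (by norm_num) r
  have hA : 2 * r + 1 ≤ 3 * r ^ 12 := by omega
  have har4 : a * r ≤ a * r ^ 4 := Nat.mul_le_mul_left a hp4
  have har8 : a * r ≤ a * r ^ 8 := Nat.mul_le_mul_left a hp8
  have hB : 2 * (r + ρ + rad d c s) + 1 ≤ (2 * a + 2 * b + 3) * r ^ 8 := by
    have e : (2 * a + 2 * b + 3) * r ^ 8 = 2 * (a * r ^ 8) + 2 * (b * r ^ 8) + 3 * r ^ 8 := by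
      ring
    rw [e]
    omega
  have hC : (ρ + 1) + (2 * s + 1) ≤ (a + 3) * r ^ 4 := by
    have e : (a + 3) * r ^ 4 = a * r ^ 4 + 3 * r ^ 4 := by ring
    rw [e]
    omega
  have hD : (2 * r + 1) + (2 * (r + ρ + rad d c s) + 1) * ((ρ + 1) + (2 * s + 1)) ≤
      K1 * r ^ 12 := by
    calc (2 * r + 1) + (2 * (r + ρ + rad d c s) + 1) * ((ρ + 1) + (2 * s + 1)) ≤
        3 * r ^ 12 + ((2 * a + 2 * b + 3) * r ^ 8) * ((a + 3) * r ^ 4) :=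
          Nat.add_le_add hA (Nat.mul_le_mul hB hC)
      _ = K1 * r ^ 12 := by rw [hK1]; ring
  set k := kk d c r with hk
  have hrk : r ≤ (16 * c * d + 1) * (k + 1) ^ 2 := by
    have h2 : r / (16 * c * d + 1) < (k + 1) * (k + 1) := Nat.lt_succ_sqrt _
    rw [Nat.div_lt_iff_lt_mul (by omega)] at h2
    calc r ≤ (k + 1) * (k + 1) * (16 * c * d + 1) := h2.le
      _ = (16 * c * d + 1) * (k + 1) ^ 2 := by ring
  have hk0k : k0 ≤ k := by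
    rw [hk, kk, Nat.le_sqrt, Nat.le_div_iff_mul_le (by omega)]
    calc k0 * k0 * (16 * c * d + 1) = (16 * c * d + 1) * (k0 * k0) := by ring
      _ ≤ r := hN
  calc 32 * c * d * (k + 1) *
      ((2 * r + 1) + (2 * (r + ρ + rad d c s) + 1) * ((ρ + 1) + (2 * s + 1))) ≤
      32 * c * d * (k + 1) * (K1 * ((16 * c * d + 1) * (k + 1) ^ 2) ^ 12) := by
        refine Nat.mul_le_mul_left _ (hD.trans ?_)
        exact Nat.mul_le_mul_left _ (Nat.pow_le_pow_left hrk 12)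
    _ = 32 * c * d * K1 * (16 * c * d + 1) ^ 12 * (k + 1) ^ 25 := num2_ring _ _ _ _
    _ ≤ 2 ^ k := (hk0 k hk0k).le

private lemma num2_place (d c a : ℕ) (v : ℕ → ℕ) (hv : ∀ r, v r ≤ (d + 1) ^ r)
    (hmono : ∀ r s, r ≤ s → v r ≤ v s) (hgr : ∀ n, 2 ^ n ≤ v (c * n))
    (ha : a = c * (4 * (d + 1) + 1)) (Rθ : ℕ) : ∃ N : ℕ, ∀ s R ρ : ℕ, s + 1 ≤ (R + 1) ^ 4 →
    N ≤ R → ρ = a * (R + 1) →
    (2 * ρ + 2 * rad d c s + 2 * R + 1) * ((2 * s + 1) ^ 2 * v (2 * R + 1)) +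
      (2 * (ρ + rad d c s + (R + Rθ + 1)) + 1) * ((2 * s + 1) * v (R + Rθ + 1)) < v ρ := by
  set b : ℕ := 256 * (c ^ 2 * d ^ 2) with hb
  obtain ⟨N, hN⟩ := num2_ev ((2 * a + 2 * b + 2) * 4 + (2 * a + 2 * b + 5) * 2) 16
  refine ⟨N + Rθ, fun s R ρ hs hR hρ => ?_⟩
  set x := R + 1 with hx
  have hx1 : 1 ≤ x := by omega
  have hrad : rad d c s ≤ b * x ^ 8 := num2_rad d c s x hs
  have hp8 : x ≤ x ^ 8 := Nat.le_self_pow (by norm_num) x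
  have hax : a * x ≤ a * x ^ 8 := Nat.mul_le_mul_left a hp8
  have h2s : 2 * s + 1 ≤ 2 * x ^ 4 := by omega
  have hvR : v (R + Rθ + 1) ≤ v (2 * R + 1) := hmono _ _ (by omega)
  have h1 : 2 * ρ + 2 * rad d c s + 2 * R + 1 ≤ (2 * a + 2 * b + 2) * x ^ 8 := by
    have e : (2 * a + 2 * b + 2) * x ^ 8 = 2 * (a * x ^ 8) + 2 * (b * x ^ 8) + 2 * x ^ 8 := by
      ring
    rw [e, hρ]
    omega
  have h2 : 2 * (ρ + rad d c s + (R + Rθ + 1)) + 1 ≤ (2 * a + 2 * b + 5) * x ^ 8 := by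
    have e : (2 * a + 2 * b + 5) * x ^ 8 = 2 * (a * x ^ 8) + 2 * (b * x ^ 8) + 5 * x ^ 8 := by
      ring
    rw [e, hρ]
    omega
  have hxx : x ^ 12 ≤ x ^ 16 := Nat.pow_le_pow_right hx1 (by norm_num)
  have h3 : (2 * ρ + 2 * rad d c s + 2 * R + 1) * ((2 * s + 1) ^ 2 * v (2 * R + 1)) +
      (2 * (ρ + rad d c s + (R + Rθ + 1)) + 1) * ((2 * s + 1) * v (R + Rθ + 1)) ≤
      (((2 * a + 2 * b + 2) * 4 + (2 * a + 2 * b + 5) * 2) * x ^ 16) * v (2 * R + 1) := by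
    calc (2 * ρ + 2 * rad d c s + 2 * R + 1) * ((2 * s + 1) ^ 2 * v (2 * R + 1)) +
        (2 * (ρ + rad d c s + (R + Rθ + 1)) + 1) * ((2 * s + 1) * v (R + Rθ + 1)) ≤
        ((2 * a + 2 * b + 2) * x ^ 8) * ((2 * x ^ 4) ^ 2 * v (2 * R + 1)) +
        ((2 * a + 2 * b + 5) * x ^ 8) * ((2 * x ^ 4) * v (2 * R + 1)) := by gcongr
      _ = ((2 * a + 2 * b + 2) * 4 * x ^ 16 + (2 * a + 2 * b + 5) * 2 * x ^ 12) *
          v (2 * R + 1) := by ring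
      _ ≤ ((2 * a + 2 * b + 2) * 4 * x ^ 16 + (2 * a + 2 * b + 5) * 2 * x ^ 16) *
          v (2 * R + 1) := by gcongr
      _ = (((2 * a + 2 * b + 2) * 4 + (2 * a + 2 * b + 5) * 2) * x ^ 16) *
          v (2 * R + 1) := by ring
  have h4 : v (2 * R + 1) ≤ 2 ^ (4 * (d + 1) * x) := by
    calc v (2 * R + 1) ≤ (d + 1) ^ (2 * R + 1) := hv _
      _ ≤ (2 ^ (d + 1)) ^ (2 * R + 1) := Nat.pow_le_pow_left (Nat.lt_two_pow_self).le _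
      _ = 2 ^ ((d + 1) * (2 * R + 1)) := by rw [← pow_mul]
      _ ≤ 2 ^ (4 * (d + 1) * x) := by
        refine Nat.pow_le_pow_right (by norm_num) ?_
        calc (d + 1) * (2 * R + 1) ≤ (d + 1) * (4 * x) := Nat.mul_le_mul_left _ (by omega)
          _ = 4 * (d + 1) * x := by ring
  have h5 : ((2 * a + 2 * b + 2) * 4 + (2 * a + 2 * b + 5) * 2) * x ^ 16 < 2 ^ x := by
    calc ((2 * a + 2 * b + 2) * 4 + (2 * a + 2 * b + 5) * 2) * x ^ 16 ≤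
        ((2 * a + 2 * b + 2) * 4 + (2 * a + 2 * b + 5) * 2) * (R + 1) ^ 16 := le_of_eq rfl
      _ < 2 ^ R := hN R (by omega)
      _ ≤ 2 ^ x := Nat.pow_le_pow_right (by norm_num) (by omega)
  refine lt_of_le_of_lt h3 ?_
  calc (((2 * a + 2 * b + 2) * 4 + (2 * a + 2 * b + 5) * 2) * x ^ 16) * v (2 * R + 1) ≤
      (((2 * a + 2 * b + 2) * 4 + (2 * a + 2 * b + 5) * 2) * x ^ 16) * 2 ^ (4 * (d + 1) * x) :=
        Nat.mul_le_mul_left _ h4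
    _ < 2 ^ x * 2 ^ (4 * (d + 1) * x) := Nat.mul_lt_mul_of_pos_right h5 (by positivity)
    _ = 2 ^ ((4 * (d + 1) + 1) * x) := by rw [← pow_add]; ring_nf
    _ ≤ v (c * ((4 * (d + 1) + 1) * x)) := hgr _
    _ = v ρ := by rw [hρ, ha]; ring_nf

theorem thm_Num2 : St_Num2 := by
  intro d c v hd hc hv hmono hgr Rθ hθ ε δ hε hδ
  set a : ℕ := c * (4 * (d + 1) + 1) with ha
  obtain ⟨N1, hN1⟩ := num2_n2 d c a
  obtain ⟨N2, hN2⟩ := num2_place d c a v hv hmono hgr ha Rθ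
  obtain ⟨N3, hN3⟩ := num2_lin (2 * (1 + a) + 1) δ hδ
  obtain ⟨N4, hN4⟩ := num2_lin ((a : ℝ) + d * ((a + 1) * v Rθ)) ε hε
  refine ⟨(N1 + N2 + N3 + N4 + Rθ + 1) ^ 4, fun s hs => ?_⟩
  obtain ⟨hR1, hR2⟩ := num2_sqrt s
  have hRN : N1 + N2 + N3 + N4 + Rθ + 1 ≤ Nat.sqrt (Nat.sqrt s) := by
    rw [Nat.le_sqrt, Nat.le_sqrt]
    refine le_trans (le_of_eq ?_) hs
    ring
  set R := Nat.sqrt (Nat.sqrt s) with hR
  have hR4 : (R : ℝ) ^ 4 ≤ s := by exact_mod_cast hR1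
  have h3 := hN3 R (by omega)
  have h4 := hN4 R (by omega)
  have h5 : (2 * (1 + (a : ℝ)) + 1) * (R + 1) ≤ δ * s :=
    h3.trans (mul_le_mul_of_nonneg_left hR4 hδ.le)
  have h6 : ((a : ℝ) + d * ((a + 1) * v Rθ)) * (R + 1) ≤ ε * s :=
    h4.trans (mul_le_mul_of_nonneg_left hR4 hε.le)
  have hl : (2 * (1 + a) + 1) * (R + 1) ≤ ⌊δ * s⌋₊ := by
    refine Nat.le_floor ?_
    push_cast
    exact h5
  refine ⟨R, a * (R + 1), ⌊δ * s⌋₊, ⟨hθ, ?_, by omega, ?_⟩, ?_, ?_, ?_, ?_⟩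
  · intro r hr
    exact hN1 s (R + 1) r (a * (R + 1)) hR2 hr (by omega) (by omega) le_rfl
  · refine lt_of_lt_of_le ?_ hl
    have e : (2 * (1 + a) + 1) * (R + 1) = 2 * (R + a * (R + 1)) + (R + 3) := by ring
    rw [e]
    omega
  · refine lt_of_lt_of_le ?_ hl
    positivity
  · exact Nat.floor_le (by positivity)
  · refine le_trans ?_ h6
    push_cast
    have h7 : (0 : ℝ) ≤ v Rθ := Nat.cast_nonneg _
    have h8 : (0 : ℝ) ≤ R := Nat.cast_nonneg _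
    have h9 : (0 : ℝ) ≤ d := Nat.cast_nonneg _
    have e : ((a : ℝ) + d * ((a + 1) * v Rθ)) * (R + 1) =
        a * (R + 1) + d * ((a * (R + 1) + 1) * v Rθ) + (d * v Rθ) * R := by ring
    rw [e]
    have h10 : 0 ≤ ((d : ℝ) * v Rθ) * R := by positivity
    linarith
  · exact hN2 s R (a * (R + 1)) hR2 (by omega) rfl

end Pool.Agent.SIM
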