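import Pool.Agent.SIM.St

/-! [Pcs] position of minimal admissible sets. -/

set_option autoImplicit false

namespace Pool.Agent.SIM

open Finset Filter Pool.Agent.Helper30.Perc Pool.Agent.Helper22.PG

section

variable {Γ : Type} [Group Γ] [DecidableEq Γ] {G : SimpleGraph Γ}

private lemma pcs_mem_vert {M1 : Finset (Sym2 Γ)} {ℓ m : ℕ} {z : Γ} {γ : G.Walk 1 z}
    {g : ℕ → Γ} (π : ∀ j, G.Walk (γ.getVert (j * ℓ)) (g j)) (u : Γ)
    (hu : u ∈ insert 1 (vert (hngE M1 π m))) :
    u ∈ γ.support ∨ ∃ j < m, u ∈ (π j).support ∨
      u ∈ (insert 1 (vert M1)).image (fun x => g j * x) := by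
  rw [mem_insert] at hu
  rcases hu with rfl | hu
  · exact Or.inl γ.start_mem_support
  rw [mem_vert] at hu
  obtain ⟨e, he, hue⟩ := hu
  rw [hngE, mem_union] at he
  rcases he with he | he
  · left
    rw [mem_image] at he
    obtain ⟨k, hk, rfl⟩ := he
    rw [Sym2.mem_iff] at hue
    rcases hue with rfl | rfl
    · exact γ.getVert_mem_support k
    · exact γ.getVert_mem_support (k + 1)
  · right
    rw [mem_biUnion] at he
    obtain ⟨j, hj, he⟩ := he
    refine ⟨j, mem_range.1 hj, ?_⟩
    rw [blkE, mem_union] at he
    rcases he with he | he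
    · right
      rw [mem_image] at he
      obtain ⟨e', he', rfl⟩ := he
      rw [Sym2.mem_map] at hue
      obtain ⟨u0, h1, h2⟩ := hue
      rw [mem_image]
      exact ⟨u0, mem_insert_of_mem ((mem_vert _ _).2 ⟨e', he', h1⟩), h2⟩
    · left
      rw [List.mem_toFinset] at he
      exact (π j).mem_support_of_mem_edges he hue

end

theorem thm_Pcs (h : St_Loc) : St_Pcs := by
  intro Γ _ _ G _ d c v hG M1 s ℓ ρ R0 R2 Rθ m z γ g π H hM1s hN W hW x hx
  obtain ⟨r, hr⟩ := h Γ G d c v hG 1 (hngE M1 π m) W hW x hx
  by_contra hcon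
  push Not at hcon
  obtain ⟨hcA, hcB, hcC⟩ := hcon
  have hconn := hG.conn
  set T := hngE M1 π m with hT
  set V1 := insert (1 : Γ) (vert M1) with hV1
  set N := ((insert 1 (vert T)) ∩ bl G x r).card with hNdef
  have hγmem : ∀ u ∈ γ.support, Rθ < G.dist x u := by
    intro u hu
    obtain ⟨k, hk, hkl⟩ := SimpleGraph.Walk.mem_support_iff_exists_getVert.1 hu
    have := hcA k hkl
    rwa [hk] at this
  have hπd : ∀ j < m, ∀ u ∈ (π j).support, G.dist (γ.getVert (j * ℓ)) u ≤ ρ := by
    intro j hj u hu
    obtain ⟨k, hk, hkl⟩ := SimpleGraph.Walk.mem_support_iff_exists_getVert.1 hu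
    have h2 := dist_getVert_le hconn (π j) 0 k (Nat.zero_le _)
    rw [(π j).getVert_zero, hk] at h2
    have h3 := H.hπ j
    have h4 := H.h1 j hj
    omega
  have hγc := card_support_ball hconn γ H.hγ x r
  rcases Nat.lt_or_ge R0 r with hR | hR
  · -- large radius
    set J := (range m).filter fun j => G.dist (γ.getVert (j * ℓ)) x ≤ r + ρ + rad d c s with hJ
    have hJc : J.card ≤ 2 * (r + ρ + rad d c s) + 1 := by
      refine (window_count hconn γ H.hγ ℓ m H.hℓ H.hm x _).trans ?_
      exact Nat.add_le_add_right (Nat.div_le_self _ _) 1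
    have hcov : (insert 1 (vert T)) ∩ bl G x r ⊆
        (γ.support.toFinset ∩ bl G x r) ∪ J.biUnion fun j =>
          ((π j).support.toFinset ∩ bl G x r) ∪ (V1.image (fun y => g j * y) ∩ bl G x r) := by
      intro u hu
      rw [mem_inter] at hu
      obtain ⟨hu, hur⟩ := hu
      have hur' := (mem_bl hconn _ _ _).1 hur
      rw [mem_union, mem_inter, List.mem_toFinset, mem_biUnion]
      rcases pcs_mem_vert π u hu with hu | ⟨j, hj, hju⟩
      · exact Or.inl ⟨hu, hur⟩
      · right
        refine ⟨j, ?_, ?_⟩
        · rw [hJ, mem_filter, mem_range]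
          refine ⟨hj, ?_⟩
          have h1 := hconn.dist_triangle (u := γ.getVert (j * ℓ)) (v := u) (w := x)
          rw [SimpleGraph.dist_comm (u := u) (v := x)] at h1
          rcases hju with hju | hju
          · have := hπd j hj u hju
            omega
          · obtain ⟨u0, hu0, rfl⟩ := mem_image.1 hju
            have h2 := hconn.dist_triangle (u := γ.getVert (j * ℓ)) (v := g j) (w := g j * u0)
            rw [hG.dist_self_mul] at h2
            have h3 := H.hV1 u0 hu0
            have h4 := H.h1 j hj
            omega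
        · rw [mem_union, mem_inter, mem_inter, List.mem_toFinset]
          rcases hju with hju | hju
          · exact Or.inl ⟨hju, hur⟩
          · exact Or.inr ⟨hju, hur⟩
    have hV1c : V1.card ≤ 2 * s + 1 := by
      have h1 := card_vert M1
      have h2 : V1.card ≤ (vert M1).card + 1 := card_insert_le _ _
      omega
    have hNle : N ≤ (2 * r + 1) + (2 * (r + ρ + rad d c s) + 1) * ((ρ + 1) + (2 * s + 1)) := by
      refine (card_le_card hcov).trans ((card_union_le _ _).trans (add_le_add hγc ?_))
      refine card_biUnion_le.trans ?_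
      calc ∑ j ∈ J, (((π j).support.toFinset ∩ bl G x r) ∪
            (V1.image (fun y => g j * y) ∩ bl G x r)).card ≤
            ∑ _j ∈ J, ((ρ + 1) + (2 * s + 1)) := by
            refine sum_le_sum fun j hj => ?_
            rw [hJ, mem_filter, mem_range] at hj
            refine (card_union_le _ _).trans (add_le_add ?_ ?_)
            · refine (card_le_card inter_subset_left).trans ((card_support_le _).trans ?_)
              have h3 := H.hπ j
              have h4 := H.h1 j hj.1
              omega
            · exact (card_le_card inter_subset_left).trans (card_image_le.trans hV1c)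
        _ = J.card * ((ρ + 1) + (2 * s + 1)) := by rw [sum_const, smul_eq_mul]
        _ ≤ _ := Nat.mul_le_mul_right _ hJc
    have h1 := hN.n2 r hR
    have h2 := Nat.mul_le_mul_left (32 * c * d * (kk d c r + 1)) hNle
    omega
  · -- small radius
    have hblk : ∀ j < m, ∀ u ∈ V1.image (fun y => g j * y), u ∉ bl G x r := by
      intro j hj u hu hur
      obtain ⟨u0, hu0, rfl⟩ := mem_image.1 hu
      have h1 := hcC j hj u0 hu0
      have h2 := (mem_bl hconn _ _ _).1 hur
      omega
    set J := (range m).filter fun j => ∃ u ∈ (π j).support, u ∈ bl G x r with hJ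
    have hJd : ∀ j ∈ J, G.dist (γ.getVert (j * ℓ)) x ≤ ρ + r := by
      intro j hj
      rw [hJ, mem_filter, mem_range] at hj
      obtain ⟨hj, u, hu, hur⟩ := hj
      have h1 := hconn.dist_triangle (u := γ.getVert (j * ℓ)) (v := u) (w := x)
      rw [SimpleGraph.dist_comm (u := u) (v := x)] at h1
      have h2 := hπd j hj u hu
      have h3 := (mem_bl hconn _ _ _).1 hur
      omega
    have hJne : ∀ i ∈ J, ∀ j ∈ J, i < j → False := by
      intro i hi j hj hij
      have h1 := hJd i hi
      have h2 := hJd j hj
      have hjm : j < m := mem_range.1 (mem_filter.1 hj).1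
      have h3 := dist_getVert hconn γ H.hγ (i * ℓ) (j * ℓ) (Nat.mul_le_mul_right _ hij.le)
        ((Nat.mul_le_mul_right _ hjm.le).trans H.hm)
      have h4 := hconn.dist_triangle (u := γ.getVert (i * ℓ)) (v := x) (w := γ.getVert (j * ℓ))
      rw [SimpleGraph.dist_comm (u := x)] at h4
      have h5 : (i + 1) * ℓ ≤ j * ℓ := Nat.mul_le_mul_right _ hij
      have h6 : (i + 1) * ℓ = i * ℓ + ℓ := by ring
      have h7 := hN.n4
      omega
    have hJc : J.card ≤ 1 := by
      rw [card_le_one]
      intro i hi j hj
      rcases lt_trichotomy i j with hij | hij | hij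
      · exact (hJne i hi j hj hij).elim
      · exact hij
      · exact (hJne j hj i hi hij).elim
    have hcov : (insert 1 (vert T)) ∩ bl G x r ⊆
        (γ.support.toFinset ∩ bl G x r) ∪ J.biUnion fun j =>
          ((π j).support.toFinset ∩ bl G x r) := by
      intro u hu
      rw [mem_inter] at hu
      obtain ⟨hu, hur⟩ := hu
      rw [mem_union, mem_inter, List.mem_toFinset, mem_biUnion]
      rcases pcs_mem_vert π u hu with hu | ⟨j, hj, hju⟩
      · exact Or.inl ⟨hu, hur⟩
      · rcases hju with hju | hju
        · right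
          refine ⟨j, ?_, ?_⟩
          · rw [hJ, mem_filter, mem_range]
            exact ⟨hj, u, hju, hur⟩
          · rw [mem_inter, List.mem_toFinset]
            exact ⟨hju, hur⟩
        · exact (hblk j hj u hju hur).elim
    have hNle : N ≤ 2 * (2 * r + 1) := by
      refine (card_le_card hcov).trans ((card_union_le _ _).trans ?_)
      have h1 : (J.biUnion fun j => ((π j).support.toFinset ∩ bl G x r)).card ≤ 2 * r + 1 := by
        refine card_biUnion_le.trans ?_
        calc ∑ j ∈ J, ((π j).support.toFinset ∩ bl G x r).card ≤ ∑ _j ∈ J, (2 * r + 1) :=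
              sum_le_sum fun j _ => card_support_ball hconn (π j) (H.hπ j) x r
          _ = J.card * (2 * r + 1) := by rw [sum_const, smul_eq_mul]
          _ ≤ 1 * (2 * r + 1) := Nat.mul_le_mul_right _ hJc
          _ = _ := one_mul _
      omega
    rcases Nat.lt_or_ge Rθ r with hRr | hRr
    · have h1 := hN.n1 r hRr
      have h2 := Nat.mul_le_mul_left (32 * c * d * (kk d c r + 1)) hNle
      omega
    · have hNpos : 0 < N := by
        rcases Nat.eq_zero_or_pos N with h0 | h0
        · rw [h0, Nat.mul_zero] at hr
          exact absurd hr (Nat.not_lt_zero _)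
        · exact h0
      obtain ⟨u, hu⟩ := card_pos.1 hNpos
      rw [mem_inter] at hu
      obtain ⟨hu, hur⟩ := hu
      have hur' := (mem_bl hconn _ _ _).1 hur
      rcases pcs_mem_vert π u hu with hu | ⟨j, hj, hju⟩
      · have := hγmem u hu
        omega
      · rcases hju with hju | hju
        · have := hcB j hj u hju
          omega
        · exact hblk j hj u hju hur

end Pool.Agent.SIM
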