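import Pool.Agent.SIM.St

/-!
# Placement of the blocks along a geodesic
-/

set_option autoImplicit false

namespace Pool.Agent.SIM

open Finset Filter Pool.Agent.Helper30.Perc Pool.Agent.Helper22.PG

private lemma plc_step {Γ : Type} [Group Γ] [DecidableEq Γ] {G : SimpleGraph Γ}
    [G.LocallyFinite] {d c : ℕ} {v : ℕ → ℕ} (hC : CG G d c v) {z : Γ} (γ : G.Walk 1 z)
    (hγ : γ.length = G.dist 1 z) (ℓ : ℕ) (hℓ : 0 < ℓ) (V1 : Finset Γ) (R1 ρ R0 R2 : ℕ)
    (hV1 : ∀ u ∈ V1, G.dist 1 u ≤ R1)
    (hv : (2 * ρ + 2 * R1 + 2 * R0 + 1) * (V1.card ^ 2 * v (2 * R0 + 1)) +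
      (2 * (ρ + R1 + R2) + 1) * (V1.card * v R2) < v ρ) (n : ℕ) :
    n * ℓ ≤ γ.length → ∃ g : ℕ → Γ, ∀ j < n,
      G.dist (γ.getVert (j * ℓ)) (g j) ≤ ρ ∧
      (∀ u ∈ V1, ∀ k ≤ γ.length, R2 < G.dist (g j * u) (γ.getVert k)) ∧
      ∀ i < j, ∀ u ∈ V1, ∀ u' ∈ V1, 2 * R0 + 1 < G.dist (g j * u) (g i * u') := by
  classical
  induction n with
  | zero => intro _; exact ⟨fun _ => 1, fun j hj => absurd hj (Nat.not_lt_zero _)⟩
  | succ n ih =>
    intro hn
    have hn' : n * ℓ ≤ γ.length := (Nat.mul_le_mul_right _ (Nat.le_succ n)).trans hn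
    obtain ⟨g, hg⟩ := ih hn'
    set x0 := γ.getVert (n * ℓ) with hx0
    set E := 2 * ρ + 2 * R1 + 2 * R0 + 1 with hE
    set I := (range n).filter fun i => n ≤ i + E with hI
    have hIc : I.card ≤ E := by
      have h1 : I ⊆ Ico (n - E) n := by
        intro i hi
        rw [hI, mem_filter, mem_range] at hi
        rw [mem_Ico]
        omega
      have h2 := card_le_card h1
      rw [Nat.card_Ico] at h2
      omega
    set Kk := (range (γ.length + 1)).filter fun k => G.dist (γ.getVert k) x0 ≤ ρ + R1 + R2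
      with hKk
    have hKc : Kk.card ≤ 2 * (ρ + R1 + R2) + 1 := card_geod_ball hC.conn γ hγ x0 _
    set B1 : Finset Γ := I.biUnion fun i => (V1 ×ˢ V1).biUnion fun p =>
      (bl G (g i * p.2) (2 * R0 + 1)).image fun x => x * p.1⁻¹ with hB1
    set B2 : Finset Γ := Kk.biUnion fun k => V1.biUnion fun u =>
      (bl G (γ.getVert k) R2).image fun x => x * u⁻¹ with hB2
    have h1 : B1.card ≤ E * (V1.card ^ 2 * v (2 * R0 + 1)) := by
      calc B1.card ≤ ∑ _i ∈ I, (V1.card ^ 2 * v (2 * R0 + 1)) := by
            refine card_biUnion_le.trans (sum_le_sum fun i _ => ?_)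
            calc _ ≤ ∑ _p ∈ V1 ×ˢ V1, v (2 * R0 + 1) := by
                  refine card_biUnion_le.trans (sum_le_sum fun p _ => ?_)
                  refine card_image_le.trans ?_
                  rw [hC.vol]
              _ = _ := by rw [sum_const, card_product, smul_eq_mul, sq]
        _ = I.card * (V1.card ^ 2 * v (2 * R0 + 1)) := by rw [sum_const, smul_eq_mul]
        _ ≤ _ := Nat.mul_le_mul_right _ hIc
    have h2 : B2.card ≤ (2 * (ρ + R1 + R2) + 1) * (V1.card * v R2) := by
      calc B2.card ≤ ∑ _k ∈ Kk, (V1.card * v R2) := by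
            refine card_biUnion_le.trans (sum_le_sum fun k _ => ?_)
            calc _ ≤ ∑ _u ∈ V1, v R2 := by
                  refine card_biUnion_le.trans (sum_le_sum fun u _ => ?_)
                  refine card_image_le.trans ?_
                  rw [hC.vol]
              _ = _ := by rw [sum_const, smul_eq_mul]
        _ = Kk.card * (V1.card * v R2) := by rw [sum_const, smul_eq_mul]
        _ ≤ _ := Nat.mul_le_mul_right _ hKc
    have h3 : (B1 ∪ B2).card < (bl G x0 ρ).card := by
      rw [hC.vol]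
      have := card_union_le B1 B2
      omega
    obtain ⟨ψ, hψ1, hψ2⟩ := exists_mem_notMem_of_card_lt_card h3
    rw [mem_bl hC.conn] at hψ1
    rw [mem_union, not_or] at hψ2
    have hψ : ∀ u ∈ V1, G.dist x0 (ψ * u) ≤ ρ + R1 := by
      intro u hu
      have h4 := hC.conn.dist_triangle (u := x0) (v := ψ) (w := ψ * u)
      rw [hC.dist_self_mul] at h4
      have := hV1 u hu
      omega
    refine ⟨Function.update g n ψ, ?_⟩
    intro j hj
    rcases Nat.lt_succ_iff_lt_or_eq.1 hj with hjn | rfl
    · obtain ⟨h4, h5, h6⟩ := hg j hjn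
      rw [Function.update_of_ne hjn.ne]
      refine ⟨h4, h5, ?_⟩
      intro i hi
      rw [Function.update_of_ne (hi.trans hjn).ne]
      exact h6 i hi
    · rw [Function.update_self]
      refine ⟨hψ1, ?_, ?_⟩
      · intro u hu k hk
        by_cases hkK : k ∈ Kk
        · by_contra hcon
          apply hψ2.2
          rw [hB2, mem_biUnion]
          refine ⟨k, hkK, mem_biUnion.2 ⟨u, hu, mem_image.2 ⟨ψ * u, ?_, by simp⟩⟩⟩
          rw [mem_bl hC.conn, SimpleGraph.dist_comm]
          omega
        · rw [hKk, mem_filter, mem_range] at hkK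
          push Not at hkK
          have h4 := hkK (by omega)
          have h5 := hC.conn.dist_triangle (u := γ.getVert k) (v := ψ * u) (w := x0)
          rw [SimpleGraph.dist_comm (u := γ.getVert k) (v := ψ * u),
            SimpleGraph.dist_comm (u := ψ * u) (v := x0)] at h5
          have := hψ u hu
          omega
      · intro i hi u hu u' hu'
        rw [Function.update_of_ne hi.ne]
        by_cases hiI : i ∈ I
        · by_contra hcon
          apply hψ2.1
          rw [hB1, mem_biUnion]
          have hmem : ψ * u ∈ bl G (g i * u') (2 * R0 + 1) := by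
            rw [mem_bl hC.conn, SimpleGraph.dist_comm]
            omega
          exact ⟨i, hiI, mem_biUnion.2 ⟨(u, u'), mem_product.2 ⟨hu, hu'⟩,
            mem_image.2 ⟨ψ * u, hmem, by simp⟩⟩⟩
        · rw [hI, mem_filter, mem_range] at hiI
          push Not at hiI
          have h4 := hiI hi
          have h5 : G.dist (γ.getVert (i * ℓ)) x0 = j * ℓ - i * ℓ :=
            dist_getVert hC.conn γ hγ _ _ (Nat.mul_le_mul_right _ hi.le) hn'
          have h6 : j - i ≤ j * ℓ - i * ℓ := by
            rw [← Nat.sub_mul]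
            exact Nat.le_mul_of_pos_right _ hℓ
          have h7 := hC.conn.dist_triangle (u := γ.getVert (i * ℓ)) (v := g i) (w := x0)
          have h8 := hC.conn.dist_triangle (u := g i) (v := g i * u') (w := x0)
          rw [hC.dist_self_mul] at h8
          have h9 := hC.conn.dist_triangle (u := g i * u') (v := ψ * u) (w := x0)
          rw [SimpleGraph.dist_comm (u := g i * u') (v := ψ * u),
            SimpleGraph.dist_comm (u := ψ * u) (v := x0)] at h9
          have h10 := (hg i hi).1
          have h11 := hV1 u' hu'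
          have h12 := hψ u hu
          omega

theorem thm_Plc : St_Plc := by
  intro Γ _ _ G _ d c v hC z γ hγ ℓ m hℓ hm V1 R1 ρ R0 R2 hV1 hv
  obtain ⟨g, hg⟩ := plc_step hC γ hγ ℓ hℓ V1 R1 ρ R0 R2 hV1 hv m hm
  refine ⟨g, fun j hj => (hg j hj).1, fun j hj => (hg j hj).2.1, ?_⟩
  intro i hi j hj hij u hu u' hu'
  rcases lt_or_gt_of_ne hij with h | h
  · rw [SimpleGraph.dist_comm]
    exact (hg j hj).2.2 i h u' hu' u hu
  · exact (hg i hi).2.2 j h u hu u' hu'

end Pool.Agent.SIM
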