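import Pool.Agent.SIM.St

/-!
# Percolation games on Cayley graphs: construction of the plans
-/

set_option autoImplicit false

namespace Pool.Agent.SIM

open Finset Filter Pool.Agent.Helper30.Perc Pool.Agent.Helper22.PG

/-- pure numerics: choice of the constants -/
private theorem pln_num (d : ℕ) (Λ Δ R₁ : ℝ) (hΛ : 2 ≤ Λ) (hΔ : 0 < Δ) (hR : 0 ≤ R₁) :
    ∃ c1 c2 : ℕ, 0 < c1 ∧ ∀ D : ℕ, 1 ≤ D →
      6 * (Λ ^ (D + 1) + Λ ^ D * R₁) < Δ * 4 ^ (c2 * D) ∧
      1 + 3 * ((d : ℝ) + 1) ^ D ≤ 2 ^ (c1 * D) / 2 * (1 / 2) ^ D := by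
  have hΛ0 : 0 < Λ := by linarith
  set B : ℝ := 6 * (Λ + R₁) / Δ with hB
  have hB0 : 0 < B := by positivity
  obtain ⟨c2, hc2⟩ := pow_unbounded_of_one_lt (Λ * (1 + B)) (by norm_num : (1 : ℝ) < 4)
  refine ⟨16 * (d + 1), c2, by positivity, fun D hD => ⟨?_, ?_⟩⟩
  · have h1 : (Λ * (1 + B)) ^ D ≤ (4 ^ c2) ^ D :=
      pow_le_pow_left₀ (by positivity) hc2.le D
    have h2 : 1 + B ≤ (1 + B) ^ D := by
      have := pow_le_pow_right₀ (by linarith : 1 ≤ 1 + B) hD
      rwa [pow_one] at this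
    have h3 : Λ ^ D * (1 + B) ≤ 4 ^ (c2 * D) := by
      rw [pow_mul]
      refine le_trans ?_ h1
      rw [mul_pow]
      exact mul_le_mul_of_nonneg_left h2 (by positivity)
    have h4 : 6 * (Λ ^ (D + 1) + Λ ^ D * R₁) = Δ * (Λ ^ D * B) := by
      rw [hB]
      field_simp
      ring
    rw [h4]
    refine mul_lt_mul_of_pos_left ?_ hΔ
    refine lt_of_lt_of_le ?_ h3
    have : 0 < Λ ^ D := by positivity
    nlinarith
  · have h1 : (16 * ((d : ℝ) + 1)) ≤ 2 ^ (16 * (d + 1)) := by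
      have h := (Nat.lt_two_pow_self (n := 16 * (d + 1))).le
      have h' : ((16 * (d + 1) : ℕ) : ℝ) ≤ ((2 ^ (16 * (d + 1)) : ℕ) : ℝ) := Nat.cast_le.2 h
      push_cast at h'
      exact h'
    have h2 : (16 * ((d : ℝ) + 1)) ^ D ≤ 2 ^ (16 * (d + 1) * D) := by
      rw [pow_mul]
      exact pow_le_pow_left₀ (by positivity) h1 D
    have h3 : (1 : ℝ) ≤ ((d : ℝ) + 1) ^ D := one_le_pow₀ (by linarith [Nat.cast_nonneg (α := ℝ) d])
    have h4 : (8 : ℝ) ≤ 8 ^ D := by
      have := pow_le_pow_right₀ (by norm_num : (1 : ℝ) ≤ 8) hD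
      rwa [pow_one] at this
    have h5 : (2 : ℝ) ^ (16 * (d + 1) * D) / 2 * (1 / 2) ^ D ≥
        (16 * ((d : ℝ) + 1)) ^ D / 2 * (1 / 2) ^ D := by
      have : (0 : ℝ) ≤ (1 / 2) ^ D := by positivity
      exact mul_le_mul_of_nonneg_right (by linarith) this
    have h6 : (16 * ((d : ℝ) + 1)) ^ D / 2 * (1 / 2) ^ D = 8 ^ D * ((d : ℝ) + 1) ^ D / 2 := by
      rw [mul_pow, div_mul_eq_mul_div, mul_right_comm, ← mul_pow]
      norm_num
    rw [h6] at h5
    refine le_trans ?_ h5
    nlinarith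

theorem thm_Pln (h1 : St_Wd1) (h2 : St_Wd2) : St_Pln := by
  classical
  intro Γ _ _ G _ d c v hG H lam δ t k Λ c₀ hS
  obtain ⟨hw1, hw2, hw3⟩ := h1 Γ G H lam δ t k Λ c₀ hS
  obtain ⟨cu, R, hcu, hwk⟩ := h2 Γ G hG.inv hG.conn H lam δ t k Λ c₀ hS
  set Δ : ℝ := δ 1 k with hΔdef
  have hΔ : 0 < Δ := hS.k0
  have hΛ0 : 0 < Λ := by linarith [hS.two]
  have hΛ1 : 1 ≤ Λ := by linarith [hS.two]
  set R₁ : ℝ := max R (3 / 2 * Δ) with hR₁def
  have hR₁0 : 0 ≤ R₁ := le_trans (by positivity) (le_max_right _ _)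
  obtain ⟨c1, c2, hc1, hnum⟩ := pln_num d Λ Δ R₁ hS.two hΔ hR₁0
  refine ⟨2 * (cu * (c1 + c2) + 1), fun D hD => ?_⟩
  obtain ⟨hn1, hn2⟩ := hnum D hD
  set n := c1 * D with hn
  set m := c2 * D with hm
  have hl0 : 0 < lam t := hS.lpos t hS.tH
  have hl1 : lam t < 1 := lt_of_le_of_lt hS.t1 (by norm_num)
  have hlam1 : lam 1 = 1 := by
    have h := hS.lmul 1 H.one_mem 1 H.one_mem
    rw [mul_one] at h
    have hp := hS.lpos 1 H.one_mem
    have : lam 1 * (lam 1 - 1) = 0 := by linarith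
    rcases mul_eq_zero.1 this with h | h
    · exact absurd h hp.ne'
    · linarith
  -- the words
  let W := Fin n → Bool
  let wl : W → List Bool := fun w => List.ofFn w
  let wf : W → List Bool := fun w => List.ofFn w ++ List.replicate m false
  have hwl : ∀ w, (wl w).length = n := fun w => List.length_ofFn
  have hwf : ∀ w, (wf w).length = n + m := by
    intro w
    simp [wf]
  let g : W → Γ := fun w => wd t k (wf w)
  have hgH : ∀ w, g w ∈ H := fun w => (hw1 (wf w)).1
  have hglam : ∀ w, lam (g w) = lam t ^ (n + m) := by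
    intro w
    have h := (hw1 (wf w)).2.1
    rw [hwf] at h
    exact h
  have hgδ : ∀ w, δ 1 (g w) ≤ 4 / 3 * Δ := fun w => (hw1 (wf w)).2.2
  choose wk0 hwk1 hwk2 using hwk
  let wk : ∀ w : W, G.Walk 1 (g w) := fun w => wk0 (wf w)
  have hlen : ∀ w, (wk w).length ≤ cu * (n + m) := by
    intro w
    have h := hwk1 (wf w)
    rw [hwf] at h
    exact h
  have hsup : ∀ w, ∀ y ∈ (wk w).support, δ 1 y ≤ R := fun w => hwk2 (wf w)
  have hcard : Fintype.card W = 2 ^ n := by simp [W]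
  have hcard0 : (0 : ℝ) < Fintype.card W := by
    rw [hcard]
    positivity
  let E : Finset Γ := (bl G 1 D).filter (fun e => e ∈ H)
  have hE : ∀ e, e ∈ E ↔ G.dist 1 e ≤ D ∧ e ∈ H := by
    intro e
    simp only [E, mem_filter]
    rw [mem_bl hG.conn]
  have hEcard : (E.card : ℝ) ≤ ((d : ℝ) + 1) ^ D := by
    have h3 : E.card ≤ (d + 1) ^ D := by
      refine (card_filter_le _ _).trans ?_
      rw [hG.vol 1 D]
      exact hG.v_le D
    have h4 : (E.card : ℝ) ≤ (((d + 1) ^ D : ℕ) : ℝ) := Nat.cast_le.2 h3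
    push_cast at h4
    exact h4
  let ct : Γ → ℕ := fun x => (univ.filter fun w : W => x ∈ (wk w).support).card
  let pth : Γ → ℝ := fun x => 2 / (Fintype.card W : ℝ) * ct x
  let u : Γ → ℝ := fun x => pth x + (if δ 1 x ≤ R₁ then (1 / 2) ^ D else 0)
  have hct : ∀ x, ct x ≤ Fintype.card W := fun x => (card_filter_le _ _).trans (by simp)
  have hp0 : ∀ x, 0 ≤ pth x := fun x => by positivity
  have hp2 : ∀ x, pth x ≤ 2 := by
    intro x
    have h3 : (ct x : ℝ) ≤ Fintype.card W := Nat.cast_le.2 (hct x)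
    calc pth x ≤ 2 / (Fintype.card W : ℝ) * Fintype.card W :=
          mul_le_mul_of_nonneg_left h3 (by positivity)
      _ = 2 := by field_simp
  have hD0 : (0 : ℝ) ≤ (1 / 2) ^ D := by positivity
  have hD1 : ((1 : ℝ) / 2) ^ D ≤ 1 := pow_le_one₀ (by norm_num) (by norm_num)
  have hu0 : ∀ x, 0 ≤ u x := by
    intro x
    have := hp0 x
    simp only [u]
    split_ifs <;> linarith
  have hu3 : ∀ x, u x ≤ 3 := by
    intro x
    have := hp2 x
    simp only [u]
    split_ifs <;> linarith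
  have hune : ∀ x, u x ≠ 0 → δ 1 x ≤ R₁ := by
    intro x hx
    by_contra hcon
    apply hx
    simp only [u, hcon, if_false, add_zero, pth]
    have h3 : ct x = 0 := by
      simp only [ct, card_eq_zero, filter_eq_empty_iff]
      intro w _ hw
      exact hcon ((hsup w x hw).trans (le_max_left _ _))
    rw [h3]
    simp
  have hinv : ∀ a b : Γ, G.dist 1 (a⁻¹ * b) = G.dist a b := fun a b => (hG.dist_one a b).symm
  -- bad words
  let bad : Γ → W → Prop := fun x w => G.dist (g w) x ≤ D ∨ ∃ e ∈ E, u ((g w * e)⁻¹ * x) ≠ 0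
  set R₂ : ℝ := Λ ^ (D + 1) + Λ ^ D * R₁ with hR₂
  have hR₂0 : 0 < R₂ := by positivity
  have hbad : ∀ x w, bad x w → δ (g w) x ≤ lam t ^ (n + m) * R₂ := by
    intro x w hb
    have hy : δ 1 ((g w)⁻¹ * x) ≤ R₂ := by
      rcases hb with hb | ⟨e, he, hb⟩
      · have h3 := hS.gr ((g w)⁻¹ * x)
        rw [hinv] at h3
        have h4 : Λ ^ (G.dist (g w) x + 1) ≤ Λ ^ (D + 1) :=
          pow_le_pow_right₀ hΛ1 (by omega)
        have h5 : 0 ≤ Λ ^ D * R₁ := by positivity
        linarith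
      · obtain ⟨he1, he2⟩ := (hE e).1 he
        have h3 := hune _ hb
        have h4 : (g w)⁻¹ * x = e * ((g w * e)⁻¹ * x) := by group
        have h5 := hS.tri 1 e (e * ((g w * e)⁻¹ * x))
        have h6 := hS.sc e he2 1 ((g w * e)⁻¹ * x)
        rw [mul_one] at h6
        rw [h4]
        have h7 : δ 1 e ≤ Λ ^ (D + 1) :=
          (hS.gr e).trans (pow_le_pow_right₀ hΛ1 (by omega))
        have h8 : lam e ≤ Λ ^ D := (hS.grl e he2).trans (pow_le_pow_right₀ hΛ1 he1)
        have h9 : lam e * δ 1 ((g w * e)⁻¹ * x) ≤ Λ ^ D * R₁ :=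
          mul_le_mul h8 h3 (hS.dn _ _) (by positivity)
        rw [h6] at h5
        linarith
    have h3 := hS.sc (g w) (hgH w) 1 ((g w)⁻¹ * x)
    rw [mul_one, mul_inv_cancel_left, hglam] at h3
    rw [h3]
    exact mul_le_mul_of_nonneg_left hy (by positivity)
  have hm4 : 6 * (lam t ^ m * R₂) < Δ := by
    have h3 : lam t ^ m ≤ (1 / 4) ^ m := pow_le_pow_left₀ hl0.le hS.t1 m
    have h4 : ((1 : ℝ) / 4) ^ m * 4 ^ m = 1 := by
      rw [← mul_pow]
      norm_num
    have h5 : 6 * (lam t ^ m * R₂) ≤ (1 / 4) ^ m * (6 * R₂) := by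
      nlinarith
    have h6 : ((1 : ℝ) / 4) ^ m * (6 * R₂) < (1 / 4) ^ m * (Δ * 4 ^ m) :=
      mul_lt_mul_of_pos_left hn1 (by positivity)
    have h7 : ((1 : ℝ) / 4) ^ m * (Δ * 4 ^ m) = Δ := by
      calc ((1 : ℝ) / 4) ^ m * (Δ * 4 ^ m) = Δ * ((1 / 4) ^ m * 4 ^ m) := by ring
        _ = Δ := by rw [h4, mul_one]
    linarith
  have hln : (0 : ℝ) < lam t ^ n := by positivity
  have hln1 : lam t ^ n ≤ 1 := pow_le_one₀ hl0.le hl1.le
  have huniq : ∀ x w w', bad x w → bad x w' → w = w' := by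
    intro x w w' hb hb'
    by_contra hne
    have hne' : wl w ≠ wl w' := fun h => hne (List.ofFn_injective h)
    have h3 := hw2 (wl w) (wl w') (by rw [hwl, hwl]) hne'
    rw [hwl] at h3
    have h4 := hw3 (wl w) m
    have h5 := hw3 (wl w') m
    have h6 := hS.tri (wd t k (wl w)) (g w) (wd t k (wl w'))
    have h7 := hS.tri (g w) (g w') (wd t k (wl w'))
    have h8 := hS.tri (g w) x (g w')
    have h9 := hbad x w hb
    have h10 := hbad x w' hb'
    rw [hS.sym] at h10
    have h4' : δ (wd t k (wl w)) (g w) = 0 := h4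
    have h5' : δ (g w') (wd t k (wl w')) = 0 := by
      rw [hS.sym]
      exact h5
    have h11 : Δ / 3 * lam t ^ n ≤ 2 * (lam t ^ (n + m) * R₂) := by linarith
    rw [pow_add] at h11
    have h12 : lam t ^ n * (Δ / 3) ≤ lam t ^ n * (2 * (lam t ^ m * R₂)) := by
      calc lam t ^ n * (Δ / 3) = Δ / 3 * lam t ^ n := by ring
        _ ≤ _ := h11
        _ = lam t ^ n * (2 * (lam t ^ m * R₂)) := by ring
    have h13 := le_of_mul_le_mul_left h12 hln
    linarith
  have hnear : ∀ x w, bad x w → δ 1 x ≤ R₁ := by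
    intro x w hb
    have h3 := hS.tri 1 (g w) x
    have h4 := hbad x w hb
    have h5 := hgδ w
    have h6 : lam t ^ (n + m) * R₂ ≤ lam t ^ m * R₂ := by
      rw [pow_add]
      have : 0 ≤ lam t ^ m * R₂ := by positivity
      nlinarith
    have h7 : 3 / 2 * Δ ≤ R₁ := le_max_right _ _
    linarith
  refine ⟨{
    W := W
    g := g
    wk := wk
    E := E
    u := u
    pth := pth
    len := ?_
    E1 := ?_
    Ec := ?_
    u0 := hu0
    p0 := hp0
    up := ?_
    psum := ?_
    key := ?_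
    prod := ?_ }⟩
  · intro w
    refine (hlen w).trans ?_
    rw [hn, hm]
    nlinarith
  · rw [hE]
    exact ⟨by simp, H.one_mem⟩
  · intro y hy
    obtain ⟨s, hs1, hs2⟩ := hS.fin y
    refine ⟨y * s, (hE _).2 ⟨?_, hs2⟩, ?_⟩
    · exact (hG.dist_mul_le y s).trans (by omega)
    · rw [hG.dist_self_mul]
      exact hs1
  · intro x
    simp only [u]
    split_ifs <;> linarith
  · intro F
    have h3 : ∑ x ∈ F, (ct x : ℝ) ≤ Fintype.card W * (cu * (n + m) + 1 : ℕ) := by
      have h4 : ∑ x ∈ F, ct x = ∑ w : W, (F.filter fun x => x ∈ (wk w).support).card := by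
        simp only [ct, card_filter]
        rw [sum_comm]
      have h5 : ∀ w : W, (F.filter fun x => x ∈ (wk w).support).card ≤ cu * (n + m) + 1 := by
        intro w
        calc (F.filter fun x => x ∈ (wk w).support).card ≤ (wk w).support.toFinset.card := by
              refine card_le_card fun x hx => ?_
              rw [List.mem_toFinset]
              exact (mem_filter.1 hx).2
          _ ≤ (wk w).support.length := List.toFinset_card_le _
          _ ≤ cu * (n + m) + 1 := by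
              rw [SimpleGraph.Walk.length_support]
              exact Nat.succ_le_succ (hlen w)
      have h6 : ∑ x ∈ F, ct x ≤ Fintype.card W * (cu * (n + m) + 1) := by
        rw [h4]
        refine (sum_le_sum fun w _ => h5 w).trans ?_
        simp
      have h7 : ((∑ x ∈ F, ct x : ℕ) : ℝ) ≤ ((Fintype.card W * (cu * (n + m) + 1) : ℕ) : ℝ) :=
        Nat.cast_le.2 h6
      push_cast at h7 ⊢
      exact h7
    have h8 : ∑ x ∈ F, pth x ≤ 2 * (cu * (n + m) + 1 : ℕ) := by
      simp only [pth]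
      rw [← mul_sum]
      calc 2 / (Fintype.card W : ℝ) * ∑ x ∈ F, (ct x : ℝ)
          ≤ 2 / (Fintype.card W : ℝ) * (Fintype.card W * (cu * (n + m) + 1 : ℕ)) :=
            mul_le_mul_of_nonneg_left h3 (by positivity)
        _ = 2 * (cu * (n + m) + 1 : ℕ) := by field_simp
    refine h8.trans ?_
    have h9 : 2 * (cu * (n + m) + 1) ≤ 2 * (cu * (c1 + c2) + 1) * D := by
      rw [hn, hm]
      nlinarith
    have h10 : ((2 * (cu * (n + m) + 1) : ℕ) : ℝ) ≤ ((2 * (cu * (c1 + c2) + 1) * D : ℕ) : ℝ) :=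
      Nat.cast_le.2 h9
    push_cast at h10 ⊢
    linarith
  · intro x
    have hterm : ∀ w : W, ((if x ∈ (wk w).support ∨ G.dist (g w) x ≤ D then (1 : ℝ) else 0) +
        ∑ e ∈ E, u ((g w * e)⁻¹ * x)) ≤ (if x ∈ (wk w).support then (1 : ℝ) else 0) +
          (if bad x w then 1 + 3 * (E.card : ℝ) else 0) := by
      intro w
      by_cases hb : bad x w
      · have h3 : ∑ e ∈ E, u ((g w * e)⁻¹ * x) ≤ 3 * (E.card : ℝ) := by
          refine (sum_le_sum fun e _ => hu3 _).trans ?_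
          rw [sum_const, nsmul_eq_mul, mul_comm]
        rw [if_pos hb]
        split_ifs <;> linarith
      · have h3 : ∑ e ∈ E, u ((g w * e)⁻¹ * x) = 0 := by
          refine sum_eq_zero fun e he => ?_
          by_contra hne
          exact hb (Or.inr ⟨e, he, hne⟩)
        have h4 : ¬ G.dist (g w) x ≤ D := fun h => hb (Or.inl h)
        rw [if_neg hb, h3]
        simp [h4]
    refine (sum_le_sum fun w _ => hterm w).trans ?_
    rw [sum_add_distrib]
    have h3 : ∑ w : W, (if x ∈ (wk w).support then (1 : ℝ) else 0) = ct x := by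
      simp only [ct, card_filter]
      push_cast
      rfl
    have h4 : (Fintype.card W : ℝ) / 2 * u x = ct x +
        (Fintype.card W : ℝ) / 2 * (if δ 1 x ≤ R₁ then (1 / 2) ^ D else 0) := by
      simp only [u, pth]
      field_simp
    rw [h3, h4]
    refine add_le_add le_rfl ?_
    by_cases hex : ∃ w, bad x w
    · obtain ⟨w0, hw0⟩ := hex
      rw [if_pos (hnear x w0 hw0)]
      have h5 : ∑ w : W, (if bad x w then 1 + 3 * (E.card : ℝ) else 0) ≤ 1 + 3 * (E.card : ℝ) := by
        have h6 : ∀ w : W, (if bad x w then 1 + 3 * (E.card : ℝ) else 0) =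
            if w = w0 then 1 + 3 * (E.card : ℝ) else 0 := by
          intro w
          by_cases hww : w = w0
          · rw [hww, if_pos hw0, if_pos rfl]
          · rw [if_neg hww, if_neg (fun hb => hww (huniq x w w0 hb hw0))]
        rw [sum_congr rfl fun w _ => h6 w, sum_ite_eq' univ w0, if_pos (mem_univ _)]
      refine h5.trans ?_
      rw [hcard]
      push_cast
      linarith
    · have h5 : ∑ w : W, (if bad x w then 1 + 3 * (E.card : ℝ) else 0) = 0 := by
        refine sum_eq_zero fun w _ => if_neg fun hb => hex ⟨w, hb⟩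
      rw [h5]
      split_ifs
      · positivity
      · simp
  · intro l hl
    have h3 : ∀ l : List W, (l.map g).prod ∈ H ∧
        lam (l.map g).prod = (lam t ^ (n + m)) ^ l.length := by
      intro l
      induction l with
      | nil => exact ⟨by simp, by simp [hlam1]⟩
      | cons w l ih =>
        rw [List.map_cons, List.prod_cons]
        refine ⟨H.mul_mem (hgH w) ih.1, ?_⟩
        rw [hS.lmul _ (hgH w) _ ih.1, ih.2, hglam, List.length_cons, pow_succ']
    intro hprod
    have h4 := (h3 l).2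
    rw [hprod, hlam1] at h4
    have hn0 : n + m ≠ 0 := by
      rw [hn]
      have : 0 < c1 * D := Nat.mul_pos hc1 hD
      omega
    have h5 : lam t ^ (n + m) < 1 := pow_lt_one₀ hl0.le hl1 hn0
    have h6 : (lam t ^ (n + m)) ^ l.length < 1 :=
      pow_lt_one₀ (by positivity) h5 (by
        intro h0
        exact hl (List.length_eq_zero_iff.1 h0))
    linarith

end Pool.Agent.SIM
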