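import Pool.Agent.SIM.St

set_option autoImplicit false

namespace Pool.Agent.SIM

open Finset Filter Pool.Agent.Helper30.Perc Pool.Agent.Helper22.PG

private theorem pos_exp (a b : ℕ) : ∃ n, 1 ≤ n ∧ a * n + b ≤ 2 ^ n := by
  refine ⟨2 * (a + b + 1), by omega, ?_⟩
  set m := a + b + 1 with hm
  have h1 : m < 2 ^ m := m.lt_two_pow_self
  have h2 : 2 * m ≤ 2 ^ m := by
    have h3 : m - 1 < 2 ^ (m - 1) := (m - 1).lt_two_pow_self
    have h4 : 2 ^ m = 2 * 2 ^ (m - 1) := by
      rw [← pow_succ']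
      congr 1
    omega
  calc a * (2 * m) + b ≤ (a + b) * (2 * m) := by
        rw [add_mul]
        have : b * 1 ≤ b * (2 * m) := Nat.mul_le_mul_left _ (by omega)
        omega
    _ ≤ 2 ^ m * 2 ^ m := Nat.mul_le_mul (by omega) h2
    _ = 2 ^ (2 * m) := by rw [← pow_add]; congr 1; omega

theorem thm_Pos (h1 : St_Iso1) (h2 : St_Min) (h3 : St_Loc) (h4 : St_Num1) : St_Pos := by
  intro Γ _ _ G _ d c v hG
  obtain ⟨Rθ, hR⟩ := h4 d c
  obtain ⟨n, hn1, hn⟩ := pos_exp (4 * c * v Rθ) (4 * Rθ * v Rθ + 2 * v Rθ)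
  have hc := hG.c_pos
  set r0 := c * n with hr0
  have hr0p : 0 < r0 := Nat.mul_pos hc hn1
  have hr0v : 2 * ((2 * (r0 + Rθ) + 1) * v Rθ) ≤ v r0 := by
    refine le_trans (le_of_eq ?_) (hn.trans (hG.gr n))
    rw [hr0]
    ring
  have hr0R : (0 : ℝ) < r0 := by exact_mod_cast hr0p
  refine ⟨1 / (2 * r0), by positivity, fun p => ?_⟩
  obtain ⟨z, hz⟩ := hG.exists_dist_eq 1 p
  obtain ⟨γ, hγ⟩ := hG.conn.exists_walk_length_eq_dist 1 z
  set T : Finset (Sym2 Γ) := γ.edges.toFinset with hT
  have hTE : (T : Set (Sym2 Γ)) ⊆ G.edgeSet := by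
    intro e he
    rw [hT, mem_coe, List.mem_toFinset] at he
    exact γ.edges_subset_edgeSet he
  have hTc : T.card ≤ p := by
    rw [hT]
    refine (List.toFinset_card_le _).trans ?_
    rw [SimpleGraph.Walk.length_edges, hγ, hz]
  have hTs : insert 1 (vert T) ⊆ γ.support.toFinset := by
    intro u hu
    rw [List.mem_toFinset]
    rcases mem_insert.1 hu with rfl | hu
    · exact γ.start_mem_support
    · rw [mem_vert] at hu
      obtain ⟨e, he, hue⟩ := hu
      rw [hT, List.mem_toFinset] at he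
      induction e with
      | _ a b =>
        rcases Sym2.mem_iff.1 hue with rfl | rfl
        · exact γ.fst_mem_support_of_mem_edges he
        · exact γ.snd_mem_support_of_mem_edges he
  obtain ⟨⟨W, hW⟩, -⟩ := h2 Γ G d c v hG 1 T
  -- every point of `W` is near the geodesic
  have hnear : ∀ x ∈ W, ∃ u ∈ γ.support, G.dist x u ≤ Rθ := by
    intro x hx
    obtain ⟨r, hr⟩ := h3 Γ G d c v hG 1 T W hW x hx
    have hle : ((insert 1 (vert T)) ∩ bl G x r).card ≤ 2 * r + 1 :=
      (card_le_card (inter_subset_inter_right hTs)).trans (card_support_ball hG.conn γ hγ x r)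
    have hrR : r ≤ Rθ := by
      by_contra hcon
      have h5 := hR r (by omega)
      have h6 : 32 * c * d * (kk d c r + 1) * ((insert 1 (vert T)) ∩ bl G x r).card ≤
          32 * c * d * (kk d c r + 1) * (2 * (2 * r + 1)) :=
        Nat.mul_le_mul_left _ (by omega)
      omega
    have hpos : 0 < ((insert 1 (vert T)) ∩ bl G x r).card := by
      by_contra hcon
      have h5 : ((insert 1 (vert T)) ∩ bl G x r).card = 0 := by omega
      rw [h5, Nat.mul_zero] at hr
      exact absurd hr (Nat.not_lt_zero _)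
    obtain ⟨u, hu⟩ := card_pos.1 hpos
    rw [mem_inter, mem_bl hG.conn] at hu
    exact ⟨u, List.mem_toFinset.1 (hTs hu.1), hu.2.trans hrR⟩
  have hball : ∀ x ∈ W, 2 * (W ∩ bl G x r0).card ≤ v r0 := by
    intro x _
    have hsub : W ∩ bl G x r0 ⊆
        (γ.support.toFinset ∩ bl G x (r0 + Rθ)).biUnion fun u => bl G u Rθ := by
      intro y hy
      rw [mem_inter, mem_bl hG.conn] at hy
      obtain ⟨u, hu, hyu⟩ := hnear y hy.1
      rw [mem_biUnion]
      refine ⟨u, ?_, ?_⟩
      · rw [mem_inter, List.mem_toFinset, mem_bl hG.conn]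
        refine ⟨hu, ?_⟩
        have := hG.conn.dist_triangle (u := x) (v := y) (w := u)
        omega
      · rw [mem_bl hG.conn, SimpleGraph.dist_comm]
        exact hyu
    have hcard : (W ∩ bl G x r0).card ≤ (2 * (r0 + Rθ) + 1) * v Rθ := by
      refine (card_le_card hsub).trans (card_biUnion_le.trans ?_)
      rw [sum_congr rfl fun u _ => hG.vol u Rθ, sum_const, smul_eq_mul]
      exact Nat.mul_le_mul_right _ (card_support_ball hG.conn γ hγ x _)
    omega
  have hiso := h1 Γ G d c v hG W r0 hball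
  have hpath : γ.IsPath := γ.isPath_of_length_eq_dist hγ
  have hsupp : γ.support.toFinset ⊆ W := by
    intro u hu
    rw [List.mem_toFinset] at hu
    refine walk_closed T W hW.1.2 (γ.takeUntil u hu) ?_ hW.1.1
    intro e he
    rw [hT, List.mem_toFinset]
    exact γ.edges_takeUntil_subset_edges hu he
  have hWp : p + 1 ≤ W.card := by
    have h5 : γ.support.toFinset.card = p + 1 := by
      rw [List.toFinset_card_of_nodup hpath.support_nodup, SimpleGraph.Walk.length_support, hγ, hz]
    rw [← h5]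
    exact card_le_card hsupp
  have hfin : (1 / (2 * r0) : ℝ) * p ≤ cut G W := by
    have h5 : p ≤ 2 * r0 * cut G W := by omega
    have h6 : (p : ℝ) ≤ 2 * r0 * cut G W := by exact_mod_cast h5
    rw [div_mul_eq_mul_div, one_mul, div_le_iff₀ (by positivity)]
    linarith
  obtain ⟨M, hTM, hMc, hME, -⟩ := exists_move hG.edge_infinite T ∅ p hTE
    (by rw [coe_empty]; exact Set.disjoint_empty _) hTc
  refine ⟨M, hME, hMc, fun W' hW' => ?_⟩
  have h5 : Adm 1 T W' := ⟨hW'.1, fun a b hab => hW'.2 a b (hTM hab)⟩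
  have h6 : cut G W ≤ cut G W' := (hW.2 W' h5).1
  have h7 : (cut G W : ℝ) ≤ cut G W' := by exact_mod_cast h6
  exact hfin.trans h7

end Pool.Agent.SIM
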