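import Pool.Agent.SIM.St

/-!
# Percolation games on Cayley graphs: one turn of the game
-/

set_option autoImplicit false

namespace Pool.Agent.SIM

open Finset Filter Pool.Agent.Helper30.Perc Pool.Agent.Helper22.PG

section

variable {Γ : Type} [Group Γ] [DecidableEq Γ] {G : SimpleGraph Γ}

omit [DecidableEq Γ] in
private theorem trn_reach (z : Γ) {a b : Γ} (W : G.Walk a b) (F : Finset (Sym2 Γ))
    (hF : ∀ e ∈ W.edges, Sym2.map (fun x => z * x) e ∈ F) :
    (SimpleGraph.fromEdgeSet (F : Set (Sym2 Γ))).Reachable (z * a) (z * b) := by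
  induction W with
  | nil => exact SimpleGraph.Reachable.refl _
  | @cons u v w hadj W ih =>
    rw [SimpleGraph.Walk.edges_cons] at hF
    have h1 := hF s(u, v) (List.mem_cons_self ..)
    have h2 := ih fun e he => hF e (List.mem_cons_of_mem _ he)
    refine SimpleGraph.Reachable.trans ?_ h2
    refine SimpleGraph.Adj.reachable ((fes_adj F _ _).2 ⟨h1, ?_⟩)
    intro h3
    exact hadj.ne (mul_left_cancel h3)

private theorem trn_vert (g : Γ) (T : Finset (Sym2 Γ)) (u : Γ)
    (hu : u ∈ vert (T.image (Sym2.map fun x => g * x))) : ∃ a ∈ vert T, u = g * a := by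
  rw [mem_vert] at hu
  obtain ⟨e, he, hue⟩ := hu
  rw [mem_image] at he
  obtain ⟨e', he', rfl⟩ := he
  rw [Sym2.mem_map] at hue
  obtain ⟨a, ha, rfl⟩ := hue
  exact ⟨a, (mem_vert _ _).2 ⟨e', he', ha⟩, rfl⟩

omit [DecidableEq Γ] in
private theorem trn_edge (hinv : ∀ g x y, G.Adj (g * x) (g * y) ↔ G.Adj x y) (g : Γ)
    (e : Sym2 Γ) (he : e ∈ G.edgeSet) : Sym2.map (fun x => g * x) e ∈ G.edgeSet := by
  induction e using Sym2.ind with
  | _ a b =>
    rw [Sym2.map_mk]
    exact (hinv g a b).2 he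

private theorem trn_U {C c₀ D : ℕ} (P : Plan G C c₀ D) (B Y : Finset (Sym2 Γ)) (z : Γ) :
    P.U (B ∪ Y) z ≤ P.U B z + P.U Y z := by
  unfold Plan.U
  have h1 : vert (B ∪ Y) = vert B ∪ vert Y := by
    unfold vert
    rw [union_biUnion]
  rw [h1, ← sum_union_inter]
  have h2 : 0 ≤ ∑ o ∈ vert B ∩ vert Y, P.u (z⁻¹ * o) := sum_nonneg fun o _ => P.u0 _
  linarith

end

private theorem trn_delta (C : ℕ) (κ ε : ℝ) (hε : 0 < ε) (hκ : ε < κ) :
    ∃ δ : ℝ, 0 < δ ∧ δ ≤ 1 / 3 ∧ (3 * C + 1) * δ ≤ 1 / 3 ∧ κ * ((3 * C + 1) * δ) ≤ ε / 4 := by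
  have hS : (1 : ℝ) ≤ 3 * C + 1 := by
    have : (0 : ℝ) ≤ C := Nat.cast_nonneg C
    linarith
  have hS0 : (0 : ℝ) < 3 * C + 1 := by linarith
  have hκ0 : 0 < κ := hε.trans hκ
  refine ⟨min (1 / (3 * (3 * (C : ℝ) + 1))) (ε / (4 * (κ * (3 * (C : ℝ) + 1)))), ?_, ?_, ?_, ?_⟩
  · apply lt_min <;> positivity
  · refine (min_le_left _ _).trans ?_
    rw [div_le_div_iff₀ (by positivity) (by norm_num)]
    linarith
  · calc (3 * (C : ℝ) + 1) * min (1 / (3 * (3 * (C : ℝ) + 1)))
          (ε / (4 * (κ * (3 * (C : ℝ) + 1))))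
        ≤ (3 * (C : ℝ) + 1) * (1 / (3 * (3 * C + 1))) :=
          mul_le_mul_of_nonneg_left (min_le_left _ _) hS0.le
      _ = 1 / 3 := by field_simp
  · calc κ * ((3 * (C : ℝ) + 1) * min (1 / (3 * (3 * (C : ℝ) + 1)))
          (ε / (4 * (κ * (3 * (C : ℝ) + 1)))))
        ≤ κ * ((3 * (C : ℝ) + 1) * (ε / (4 * (κ * (3 * C + 1))))) :=
          mul_le_mul_of_nonneg_left (mul_le_mul_of_nonneg_left (min_le_right _ _) hS0.le) hκ0.le
      _ = ε / 4 := by field_simp

theorem thm_Trn (h1 : St_Stp) (h2 : St_Rch) (h3 : St_Ext) : St_Trn := by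
  intro Γ _ _ G _ d c v h C c₀ hPlan κ hS ε hε hεκ
  obtain ⟨δ, hδ0, hδ3, hδS, hδκ⟩ := trn_delta C κ ε hε hεκ
  have hκ0 : 0 < κ := hε.trans hεκ
  obtain ⟨pS, hpS⟩ := hS (ε / 4) δ (by linarith) hδ0
  obtain ⟨pR, hpR⟩ := h2 Γ G d c v h κ (ε / 2) (δ / 2) (by linarith) (by linarith)
  obtain ⟨pE, hpE⟩ := h3 Γ G d c v h C c₀ κ δ hδ0
  refine ⟨max (2 * pS) (max pR (max pE ⌈(2 * c₀ + 4) / δ⌉₊)), ?_⟩
  intro p hp q hq
  have hp1 : 2 * pS ≤ p := (le_max_left _ _).trans hp
  have hp2 : pR ≤ p := (le_max_left _ _).trans ((le_max_right _ _).trans hp)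
  have hp3 : pE ≤ p :=
    (le_max_left _ _).trans ((le_max_right _ _).trans ((le_max_right _ _).trans hp))
  have hp4 : ⌈(2 * c₀ + 4) / δ⌉₊ ≤ p :=
    (le_max_right _ _).trans ((le_max_right _ _).trans ((le_max_right _ _).trans hp))
  have hδp : (2 * c₀ + 4 : ℝ) ≤ δ * p := by
    have h5 : (2 * c₀ + 4 : ℝ) / δ ≤ p := (Nat.le_ceil _).trans (by exact_mod_cast hp4)
    rw [div_le_iff₀ hδ0] at h5
    linarith
  have hc0 : (0 : ℝ) ≤ c₀ := Nat.cast_nonneg _
  have hpos : (0 : ℝ) ≤ p := Nat.cast_nonneg _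
  set D := ⌊3 * δ * p⌋₊ with hD
  set k := ⌊δ * p⌋₊ with hk
  have hD1 : (D : ℝ) ≤ 3 * δ * p := Nat.floor_le (by positivity)
  have hD2 : 3 * δ * p < D + 1 := Nat.lt_floor_add_one _
  have hk1 : (k : ℝ) ≤ δ * p := Nat.floor_le (by positivity)
  have hk2 : δ * p < k + 1 := Nat.lt_floor_add_one _
  have hDone : 1 ≤ D := by
    have : (1 : ℝ) ≤ D := by linarith
    exact_mod_cast this
  have hDp : D ≤ p := by
    have h5 : 3 * δ * p ≤ 1 * p := mul_le_mul_of_nonneg_right (by linarith) hpos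
    have : (D : ℝ) ≤ p := by linarith
    exact_mod_cast this
  obtain ⟨P⟩ := hPlan D hDone
  -- the size of the template
  have hCD : (k : ℝ) + C * D ≤ (3 * C + 1) * δ * p := by
    have : (C : ℝ) * D ≤ C * (3 * δ * p) := mul_le_mul_of_nonneg_left hD1 (Nat.cast_nonneg _)
    nlinarith
  have hCDp : (3 * C + 1) * δ * p ≤ 1 / 3 * p := by nlinarith
  have hkCD : k + C * D ≤ p := by
    have : ((k + C * D : ℕ) : ℝ) ≤ p := by
      push_cast
      linarith
    exact_mod_cast this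
  obtain ⟨p', hp'⟩ := Nat.exists_eq_add_of_le hkCD
  have hp'r : (p : ℝ) = k + C * D + p' := by
    have := congrArg (fun n : ℕ => (n : ℝ)) hp'
    push_cast at this
    exact this
  have hp'S : pS ≤ p' := by
    have h5 : (2 * pS : ℝ) ≤ p := by exact_mod_cast hp1
    have : (pS : ℝ) ≤ p' := by nlinarith
    exact_mod_cast this
  have hp'p : (p' : ℝ) ≤ p := by
    have : (0 : ℝ) ≤ C * D := by positivity
    have : (0 : ℝ) ≤ k := Nat.cast_nonneg _
    linarith
  obtain ⟨T, hTE, hTc, hTv, hTcut⟩ := hpS p' hp'S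
  have hmain : (q : ℝ) + ε / 2 * p ≤ (κ - ε / 4) * p' := by
    have h5 : (p : ℝ) - (3 * C + 1) * δ * p ≤ p' := by linarith
    have h6 : (κ - ε / 4) * ((p : ℝ) - (3 * C + 1) * δ * p) ≤ (κ - ε / 4) * p' :=
      mul_le_mul_of_nonneg_left h5 (by linarith)
    have h7 : 0 ≤ (3 * C + 1) * δ * p := by positivity
    have h8 : κ * ((3 * C + 1) * δ) * p ≤ ε / 4 * p := mul_le_mul_of_nonneg_right hδκ hpos
    nlinarith
  refine ⟨D, k, P, ?_⟩
  intro M B hL
  obtain ⟨hME, hBE, hMB, z, X0, hX0c, hX0E, hX0B, hreach, hU⟩ := hL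
  obtain ⟨w, hw1, hw2⟩ := h1 Γ G C c₀ D P B z hU
  set z' := z * P.g w with hz'
  set E1 := (P.wk w).edges.toFinset.image (Sym2.map fun x => z * x) with hE1
  set T' := T.image (Sym2.map fun x => z' * x) with hT'
  have hE1E : (E1 : Set (Sym2 Γ)) ⊆ G.edgeSet := by
    intro e he
    rw [mem_coe, hE1, mem_image] at he
    obtain ⟨e', he', rfl⟩ := he
    exact trn_edge h.inv z e' ((P.wk w).edges_subset_edgeSet (List.mem_toFinset.1 he'))
  have hT'E : (T' : Set (Sym2 Γ)) ⊆ G.edgeSet := by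
    intro e he
    rw [mem_coe, hT', mem_image] at he
    obtain ⟨e', he', rfl⟩ := he
    exact trn_edge h.inv z' e' (hTE he')
  have hdz : ∀ o, G.dist z' o = G.dist (P.g w) (z⁻¹ * o) := by
    intro o
    rw [← h.dist_mul z (P.g w) (z⁻¹ * o), mul_inv_cancel_left]
  have hfar : ∀ o ∈ vert B, D < G.dist z' o := by
    intro o ho
    rw [hdz]
    exact (hw1 o ho).2
  have hT'v : ∀ u ∈ vert T', (G.dist z' u : ℝ) ≤ δ * p := by
    intro u hu
    obtain ⟨a, ha, rfl⟩ := trn_vert z' T u hu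
    rw [h.dist_self_mul]
    refine (hTv a ha).trans ?_
    exact mul_le_mul_of_nonneg_left hp'p hδ0.le
  have hT'D : ∀ u ∈ vert T', G.dist z' u ≤ D := by
    intro u hu
    have h5 := hT'v u hu
    rw [hD]
    apply Nat.le_floor
    nlinarith
  have hE1B : Disjoint E1 B := by
    rw [Finset.disjoint_left]
    intro e he heB
    rw [hE1, mem_image] at he
    obtain ⟨e', he', rfl⟩ := he
    rw [List.mem_toFinset] at he'
    induction e' using Sym2.ind with
    | _ a b =>
      rw [Sym2.map_mk] at heB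
      have h5 := (hw1 (z * a) (mem_vert_left heB)).1
      rw [inv_mul_cancel_left] at h5
      exact h5 ((P.wk w).fst_mem_support_of_mem_edges he')
  have hT'B : Disjoint T' B := by
    rw [Finset.disjoint_left]
    intro e he heB
    induction e using Sym2.ind with
    | _ a b =>
      exact absurd (hT'D a (mem_vert_left he)) (not_le.2 (hfar a (mem_vert_left heB)))
  -- the move
  set F := (X0 ∪ E1 ∪ T') \ M with hF
  have hFc : F.card ≤ p := by
    have h5 : E1.card ≤ C * D := by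
      refine card_image_le.trans ((List.toFinset_card_le _).trans ?_)
      rw [SimpleGraph.Walk.length_edges]
      exact P.len w
    have h6 : T'.card ≤ p' := card_image_le.trans hTc
    calc F.card ≤ (X0 ∪ E1 ∪ T').card := card_le_card sdiff_subset
      _ ≤ (X0 ∪ E1).card + T'.card := card_union_le _ _
      _ ≤ X0.card + E1.card + T'.card := Nat.add_le_add_right (card_union_le _ _) _
      _ ≤ k + C * D + p' := by omega
      _ = p := hp'.symm
  have hFE : (F : Set (Sym2 Γ)) ⊆ G.edgeSet := by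
    intro e he
    rw [mem_coe, hF, Finset.mem_sdiff, mem_union, mem_union] at he
    rcases he.1 with (h5 | h5) | h5
    · exact hX0E h5
    · exact hE1E h5
    · exact hT'E h5
  have hFMB : Disjoint (F : Set (Sym2 Γ)) ((M ∪ B : Finset (Sym2 Γ)) : Set (Sym2 Γ)) := by
    rw [disjoint_coe, Finset.disjoint_left]
    intro e he heMB
    rw [hF, Finset.mem_sdiff, mem_union, mem_union] at he
    rcases mem_union.1 heMB with h6 | h6
    · exact he.2 h6
    · rcases he.1 with (h5 | h5) | h5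
      · exact Finset.disjoint_left.1 hX0B h5 h6
      · exact Finset.disjoint_left.1 hE1B h5 h6
      · exact Finset.disjoint_left.1 hT'B h5 h6
  obtain ⟨X, hFX, hXc, hXE, hXd⟩ := exists_move h.edge_infinite F (M ∪ B) p hFE hFMB hFc
  refine ⟨X, hXc, hXE, by rwa [disjoint_coe] at hXd, ?_⟩
  intro Y hYc hYE hYd
  have hYκ : (Y.card : ℝ) ≤ κ * p := by
    rw [hYc]
    nlinarith
  have hsub : X0 ∪ E1 ∪ T' ⊆ M ∪ X := by
    intro e he
    by_cases heM : e ∈ M
    · exact mem_union_left _ heM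
    · exact mem_union_right _ (hFX (Finset.mem_sdiff.2 ⟨he, heM⟩))
  obtain ⟨j, N, hj, hLv, hN⟩ := hpR p hp2 z' T' B Y k D
    (fun u hu => Nat.le_floor (hT'v u hu)) hYκ hfar (by linarith) (by
      intro N hN
      refine h.adm_mul z' T _ ?_ N hN.1 ?_
      · intro W hW
        rw [hYc]
        exact hmain.trans (hTcut W hW)
      · intro a b hab ha
        refine hN.2 _ _ ?_ ha
        rw [hT', mem_image]
        exact ⟨s(a, b), hab, rfl⟩)
  have hjk : j + c₀ ≤ k := by
    have : ((j + c₀ : ℕ) : ℝ) < k + 1 := by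
      push_cast
      linarith
    have h5 : j + c₀ < k + 1 := by exact_mod_cast this
    omega
  have hkjD : k + j + c₀ ≤ D := by
    have : ((k + j + c₀ : ℕ) : ℝ) < D + 1 := by
      push_cast
      linarith
    have h5 : k + j + c₀ < D + 1 := by exact_mod_cast this
    omega
  obtain ⟨e, heE, X1, hX1c, hX1E, hX1d, hX1r, hX1U⟩ := hpE p hp3 D P (by linarith) hDp z' T' B Y k j N hYκ hfar hLv hkjD hN
  have hYM : Disjoint (M ∪ X) Y := by
    rw [Finset.disjoint_left]
    intro a ha haY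
    exact Finset.disjoint_left.1 hYd haY (mem_union_left _ ha)
  refine ⟨?_, ?_, ?_, z' * e, X1, hX1c.trans hjk, hX1E, hX1d, ?_, ?_⟩
  · rw [coe_union]
    exact Set.union_subset hME hXE
  · rw [coe_union]
    exact Set.union_subset hBE hYE
  · rw [disjoint_union_right]
    refine ⟨?_, hYM⟩
    rw [disjoint_union_left]
    refine ⟨hMB, ?_⟩
    rw [disjoint_coe] at hXd
    exact hXd.mono_right subset_union_right
  · have r1 : (SimpleGraph.fromEdgeSet
        ((M ∪ X ∪ X1 : Finset (Sym2 Γ)) : Set (Sym2 Γ))).Reachable 1 z := by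
      refine reach_mono ?_ hreach
      intro a ha
      rcases mem_union.1 ha with h5 | h5
      · exact mem_union_left _ (mem_union_left _ h5)
      · exact mem_union_left _ (hsub (mem_union_left _ (mem_union_left _ h5)))
    have r2 : (SimpleGraph.fromEdgeSet
        ((M ∪ X ∪ X1 : Finset (Sym2 Γ)) : Set (Sym2 Γ))).Reachable z z' := by
      have r3 := trn_reach z (P.wk w) (M ∪ X ∪ X1) (by
        intro a ha
        refine mem_union_left _ (hsub (mem_union_left _ (mem_union_right _ ?_)))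
        rw [hE1, mem_image]
        exact ⟨a, List.mem_toFinset.2 ha, rfl⟩)
      rwa [mul_one] at r3
    have r4 : (SimpleGraph.fromEdgeSet
        ((M ∪ X ∪ X1 : Finset (Sym2 Γ)) : Set (Sym2 Γ))).Reachable z' (z' * e) := by
      refine reach_mono ?_ hX1r
      intro a ha
      rcases mem_union.1 ha with h5 | h5
      · exact mem_union_left _ (hsub (mem_union_right _ h5))
      · exact mem_union_right _ h5
    exact r1.trans (r2.trans r4)
  · have h5 := trn_U P B Y (z' * e)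
    have h6 := hw2 e heE
    linarith

end Pool.Agent.SIM
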