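import Pool.Agent.SIM.St

/-!
# Words: contraction and separation
-/

set_option autoImplicit false
set_option linter.unusedSectionVars false

namespace Pool.Agent.SIM

open Finset Filter Pool.Agent.Helper30.Perc Pool.Agent.Helper22.PG

section wd1

variable {Γ : Type} [Group Γ] [DecidableEq Γ] {G : SimpleGraph Γ}
  {H : Subgroup Γ} {lam : Γ → ℝ} {δ : Γ → Γ → ℝ} {t k : Γ} {Λ : ℝ} {c₀ : ℕ}

/-- a letter -/
private def wd1_x (t k : Γ) (b : Bool) : Γ := if b then k * t else t

private lemma wd1_cons (t k : Γ) (b : Bool) (l : List Bool) :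
    wd t k (b :: l) = wd1_x t k b * wd t k l := rfl

private lemma wd1_kkt (h : SimD G H lam δ t k Λ c₀) : δ k (k * t) = 0 := by
  have h1 := h.sc k h.kH 1 t
  rw [mul_one, h.k1, h.t0, mul_zero] at h1
  exact h1

private lemma wd1_mem (h : SimD G H lam δ t k Λ c₀) (b : Bool) : wd1_x t k b ∈ H := by
  unfold wd1_x
  split_ifs
  · exact H.mul_mem h.kH h.tH
  · exact h.tH

private lemma wd1_lam (h : SimD G H lam δ t k Λ c₀) (b : Bool) : lam (wd1_x t k b) = lam t := by
  unfold wd1_x
  split_ifs
  · rw [h.lmul k h.kH t h.tH, h.k1, one_mul]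
  · rfl

private lemma wd1_one (h : SimD G H lam δ t k Λ c₀) : lam 1 = 1 := by
  have h1 := h.lmul 1 H.one_mem 1 H.one_mem
  rw [mul_one] at h1
  have h2 := h.lpos 1 H.one_mem
  have h3 : lam 1 * (lam 1 - 1) = 0 := by linarith
  rcases mul_eq_zero.1 h3 with h4 | h4 <;> linarith

private lemma wd1_le (h : SimD G H lam δ t k Λ c₀) (b : Bool) : δ 1 (wd1_x t k b) ≤ δ 1 k := by
  unfold wd1_x
  split_ifs
  · have h1 := h.tri 1 k (k * t)
    rw [wd1_kkt h, add_zero] at h1
    exact h1
  · rw [h.t0]
    exact h.k0.le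

private lemma wd1_sc (h : SimD G H lam δ t k Λ c₀) (b : Bool) (w w' : Γ) :
    δ (wd1_x t k b * w) (wd1_x t k b * w') = lam t * δ w w' := by
  rw [h.sc _ (wd1_mem h b), wd1_lam h]

private lemma wd1_sc1 (h : SimD G H lam δ t k Λ c₀) (b : Bool) (w : Γ) :
    δ (wd1_x t k b) (wd1_x t k b * w) = lam t * δ 1 w := by
  have h1 := wd1_sc h b 1 w
  rwa [mul_one] at h1

private lemma wd1_main (h : SimD G H lam δ t k Λ c₀) (l : List Bool) :
    wd t k l ∈ H ∧ lam (wd t k l) = lam t ^ l.length ∧ δ 1 (wd t k l) ≤ 4 / 3 * δ 1 k := by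
  induction l with
  | nil =>
    refine ⟨H.one_mem, ?_, ?_⟩
    · rw [List.length_nil, pow_zero]
      exact wd1_one h
    · have h1 : δ 1 (wd t k []) = 0 := h.d0 1
      rw [h1]
      have := h.k0
      positivity
  | cons b l ih =>
    obtain ⟨h1, h2, h3⟩ := ih
    rw [wd1_cons]
    refine ⟨H.mul_mem (wd1_mem h b) h1, ?_, ?_⟩
    · rw [h.lmul _ (wd1_mem h b) _ h1, h2, wd1_lam h, List.length_cons, pow_succ']
    · have h4 := h.tri 1 (wd1_x t k b) (wd1_x t k b * wd t k l)
      rw [wd1_sc1 h] at h4
      have h5 := wd1_le h b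
      have h6 := h.t1
      have h7 := h.lpos t h.tH
      have h8 := h.k0
      have h9 := h.dn 1 (wd t k l)
      nlinarith

private lemma wd1_sep (h : SimD G H lam δ t k Λ c₀) (l : List Bool) : ∀ l' : List Bool,
    l.length = l'.length → l ≠ l' →
      δ 1 k / 3 * lam t ^ l.length ≤ δ (wd t k l) (wd t k l') := by
  have hk0 := h.k0
  have ht1 := h.t1
  have htp := h.lpos t h.tH
  have hfar : ∀ l l' : List Bool, δ 1 k / 3 ≤ δ (wd t k (false :: l)) (wd t k (true :: l')) := by
    intro l l'
    rw [wd1_cons, wd1_cons]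
    have h1 : δ 1 k ≤ δ t (k * t) := by
      have a1 := h.tri 1 t k
      have a2 := h.tri t (k * t) k
      rw [h.sym (k * t) k, wd1_kkt h] at a2
      rw [h.t0] at a1
      linarith
    have h2 : δ (wd1_x t k false) (wd1_x t k true) = δ t (k * t) := rfl
    have h3 := h.tri (wd1_x t k false) (wd1_x t k false * wd t k l) (wd1_x t k true)
    have h4 := h.tri (wd1_x t k false * wd t k l) (wd1_x t k true * wd t k l') (wd1_x t k true)
    rw [wd1_sc1 h] at h3
    rw [h.sym (wd1_x t k true * wd t k l') (wd1_x t k true), wd1_sc1 h] at h4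
    have h5 := (wd1_main h l).2.2
    have h6 := (wd1_main h l').2.2
    have h7 := h.dn 1 (wd t k l)
    have h8 := h.dn 1 (wd t k l')
    have h9 : lam t * δ 1 (wd t k l) ≤ 1 / 4 * (4 / 3 * δ 1 k) :=
      mul_le_mul ht1 h5 h7 (by norm_num)
    have h10 : lam t * δ 1 (wd t k l') ≤ 1 / 4 * (4 / 3 * δ 1 k) :=
      mul_le_mul ht1 h6 h8 (by norm_num)
    linarith
  induction l with
  | nil =>
    intro l' hl hne
    exact absurd (List.length_eq_zero_iff.1 hl.symm).symm hne
  | cons b l ih =>
    intro l' hl hne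
    cases l' with
    | nil => simp at hl
    | cons b' l' =>
      have hle : δ 1 k / 3 * lam t ^ (b :: l).length ≤ δ 1 k / 3 := by
        have h1 : lam t ^ (b :: l).length ≤ 1 := pow_le_one₀ htp.le (by linarith)
        have h2 : (0 : ℝ) ≤ δ 1 k / 3 := by positivity
        calc δ 1 k / 3 * lam t ^ (b :: l).length ≤ δ 1 k / 3 * 1 :=
              mul_le_mul_of_nonneg_left h1 h2
          _ = δ 1 k / 3 := mul_one _
      have hl2 : l.length = l'.length := by
        rw [List.length_cons, List.length_cons] at hl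
        omega
      rcases eq_or_ne b b' with hbb | hbb
      · subst hbb
        have hne2 : l ≠ l' := fun h0 => hne (by rw [h0])
        have h1 := ih l' hl2 hne2
        rw [wd1_cons, wd1_cons, wd1_sc h, List.length_cons, pow_succ']
        have h2 := mul_le_mul_of_nonneg_left h1 htp.le
        linarith
      · refine hle.trans ?_
        cases b <;> cases b'
        · exact absurd rfl hbb
        · exact hfar l l'
        · rw [h.sym (wd t k (true :: l)) (wd t k (false :: l'))]
          exact hfar l' l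
        · exact absurd rfl hbb

private lemma wd1_append (t k : Γ) (l l' : List Bool) :
    wd t k (l ++ l') = wd t k l * wd t k l' := by
  induction l with
  | nil => simp [wd]
  | cons b l ih =>
    rw [List.cons_append, wd1_cons, wd1_cons, ih, mul_assoc]

private lemma wd1_zero (h : SimD G H lam δ t k Λ c₀) (m : ℕ) :
    δ 1 (wd t k (List.replicate m false)) = 0 := by
  induction m with
  | zero => exact h.d0 1
  | succ m ih =>
    rw [List.replicate_succ, wd1_cons]
    have h1 := h.tri 1 (wd1_x t k false) (wd1_x t k false * wd t k (List.replicate m false))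
    rw [wd1_sc1 h, ih, mul_zero] at h1
    have h2 : δ 1 (wd1_x t k false) = 0 := h.t0
    rw [h2] at h1
    have h3 := h.dn 1 (wd1_x t k false * wd t k (List.replicate m false))
    linarith

end wd1

theorem thm_Wd1 : St_Wd1 := by
  intro Γ _ _ G H lam δ t k Λ c₀ h
  refine ⟨fun l => wd1_main h l, fun l l' hl hne => wd1_sep h l l' hl hne, fun l m => ?_⟩
  rw [wd1_append]
  have h1 := h.sc _ (wd1_main h l).1 1 (wd t k (List.replicate m false))
  rw [mul_one, wd1_zero h, mul_zero] at h1
  exact h1

end Pool.Agent.SIM
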