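import Pool.Agent.SIM.St

/-!
# SIM module Wd2: walks along words
-/

set_option autoImplicit false

namespace Pool.Agent.SIM

open Finset Filter Pool.Agent.Helper30.Perc Pool.Agent.Helper22.PG

theorem thm_Wd2 : St_Wd2 := by
  intro Γ _ _ G _ hinv hconn H lam δ t k Λ c₀ hS
  let x : Bool → Γ := fun b => if b then k * t else t
  have hkt : δ 1 (k * t) ≤ δ 1 k := by
    have h1 := hS.tri 1 k (k * t)
    have h2 := hS.sc k hS.kH 1 t
    rw [mul_one, hS.k1, hS.t0, mul_zero] at h2
    linarith
  have hx1 : ∀ b, x b ∈ H ∧ lam (x b) ≤ 1 / 4 ∧ 0 < lam (x b) ∧ δ 1 (x b) ≤ δ 1 k := by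
    intro b
    cases b with
    | false =>
      refine ⟨hS.tH, hS.t1, hS.lpos t hS.tH, ?_⟩
      change δ 1 t ≤ δ 1 k
      rw [hS.t0]
      exact hS.k0.le
    | true =>
      have h1 : lam (k * t) = lam t := by
        rw [hS.lmul k hS.kH t hS.tH, hS.k1, one_mul]
      refine ⟨H.mul_mem hS.kH hS.tH, ?_, ?_, hkt⟩
      · change lam (k * t) ≤ 1 / 4
        rw [h1]
        exact hS.t1
      · change 0 < lam (k * t)
        rw [h1]
        exact hS.lpos t hS.tH
  set cu : ℕ := max (G.dist 1 (x false)) (G.dist 1 (x true)) + 1 with hcu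
  have hcub : ∀ b, G.dist 1 (x b) ≤ cu := by
    intro b
    cases b with
    | false => exact (le_max_left _ _).trans (Nat.le_succ _)
    | true => exact (le_max_right _ _).trans (Nat.le_succ _)
  have hΛ1 : 1 ≤ Λ := by linarith [hS.two]
  have hΔ : 0 < δ 1 k := hS.k0
  have hP : 0 < Λ ^ (cu + 1) := by positivity
  refine ⟨cu, 4 / 3 * δ 1 k + Λ ^ (cu + 1), Nat.succ_pos _, fun l => ?_⟩
  let tr : Γ → (G →g G) := fun g => ⟨fun y => g * y, fun {a b} h => (hinv g a b).2 h⟩
  induction l with
  | nil =>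
    refine ⟨(SimpleGraph.Walk.nil : G.Walk (1 : Γ) 1), Nat.zero_le _, fun y hy => ?_⟩
    have h1 : y = 1 := by
      change y ∈ (SimpleGraph.Walk.nil : G.Walk (1 : Γ) 1).support at hy
      rw [SimpleGraph.Walk.support_nil] at hy
      exact List.mem_singleton.1 hy
    rw [h1, hS.d0]
    positivity
  | cons b l ih =>
    obtain ⟨w, hw1, hw2⟩ := ih
    obtain ⟨w0, hw0⟩ := (hconn.preconnected 1 (x b)).exists_walk_length_eq_dist
    obtain ⟨hb1, hb2, hb3, hb4⟩ := hx1 b
    have e1 : tr (x b) 1 = x b := mul_one (x b)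
    have e2 : tr (x b) (wd t k l) = wd t k (b :: l) := rfl
    refine ⟨w0.append ((w.map (tr (x b))).copy e1 e2), ?_, ?_⟩
    · rw [SimpleGraph.Walk.length_append, SimpleGraph.Walk.length_copy,
        SimpleGraph.Walk.length_map, hw0, List.length_cons, Nat.mul_add, Nat.mul_one, add_comm]
      exact Nat.add_le_add hw1 (hcub b)
    · intro y hy
      rw [SimpleGraph.Walk.mem_support_append_iff] at hy
      rcases hy with hy | hy
      · have h1 : G.dist 1 y ≤ cu := by
          classical
          have h2 := SimpleGraph.dist_le (w0.takeUntil y hy)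
          have h3 := w0.length_takeUntil_le_length hy
          have h4 := hcub b
          omega
        have h5 : Λ ^ (G.dist 1 y + 1) ≤ Λ ^ (cu + 1) := pow_le_pow_right₀ hΛ1 (by omega)
        have h6 := hS.gr y
        linarith
      · rw [SimpleGraph.Walk.support_copy, SimpleGraph.Walk.support_map, List.mem_map] at hy
        obtain ⟨y', hy', rfl⟩ := hy
        have h1 := hw2 y' hy'
        have h2 := hS.tri 1 (x b) (x b * y')
        have h3 := hS.sc (x b) hb1 1 y'
        rw [mul_one] at h3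
        have h4 : lam (x b) * δ 1 y' ≤ 1 / 4 * (4 / 3 * δ 1 k + Λ ^ (cu + 1)) :=
          mul_le_mul hb2 h1 (hS.dn _ _) (by norm_num)
        change δ 1 (x b * y') ≤ _
        rw [h3] at h2
        linarith

end Pool.Agent.SIM
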