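import Pool.Agent.SIM.Sta
import Pool.Agent.SIM.Trn
import Pool.Agent.SIM.Loc
import Pool.Agent.SIM.Pcs
import Pool.Agent.SIM.Num2
import Pool.Agent.SIM.Nf
import Pool.Agent.SIM.Pln
import Pool.Agent.SIM.Ext
import Pool.Agent.SIM.Gro
import Pool.Agent.SIM.Rch
import Pool.Agent.SIM.Min
import Pool.Agent.SIM.Cut
import Pool.Agent.SIM.Plc
import Pool.Agent.SIM.Iso1
import Pool.Agent.SIM.Pos
import Pool.Agent.SIM.Wd1
import Pool.Agent.SIM.Inf
import Pool.Agent.SIM.Wd2
import Pool.Agent.SIM.Stp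
import Pool.Agent.SIM.Blk
import Pool.Agent.SIM.Num1
import Pool.Agent.SIM.Gr
import Pool.Agent.SIM.Iso2
import Pool.Agent.SIM.Mkr

/-!
# Percolation games on Cayley graphs of exponential growth: the theorem
-/

set_option autoImplicit false

namespace Pool.Agent.SIM

open Finset Filter Topology Pool.Agent.Helper30.Perc Pool.Agent.Helper22.PG

/-! ## The modules put together -/

theorem final_iso2 : St_Iso2 := thm_Iso2 thm_Iso1

theorem final_min : St_Min := thm_Min final_iso2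

theorem final_loc : St_Loc := thm_Loc final_iso2

theorem final_sta : St_Sta :=
  thm_Sta final_min (thm_Blk final_min) thm_Plc (thm_Pcs final_loc) thm_Cut thm_Num1 thm_Num2

theorem final_pos : St_Pos := thm_Pos thm_Iso1 final_min final_loc thm_Num1

theorem final_mkr : St_Mkr :=
  thm_Mkr (thm_Inf thm_Stp) (thm_Trn thm_Stp (thm_Rch final_iso2 thm_Gro) thm_Ext)

/-! ## The static half -/

section

variable {Γ : Type} [Group Γ] [DecidableEq Γ] {G : SimpleGraph Γ} [G.LocallyFinite]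

private lemma final_cap (hE : G.edgeSet.Infinite) {κ : ℝ} (hS : Stat G κ) (ε : ℝ)
    (hε : 0 < ε) : ∃ p0 : ℕ, ∀ p : ℕ, p0 ≤ p → CapGE G 1 p ((κ - ε) * p) := by
  obtain ⟨p0, hp0⟩ := hS ε 1 hε one_pos
  refine ⟨p0, fun p hp => ?_⟩
  obtain ⟨T, hT1, hT2, -, hT3⟩ := hp0 p hp
  obtain ⟨M, hTM, hMc, hME, -⟩ := exists_move hE T ∅ p hT1 (by simp) hT2
  exact ⟨M, hME, hMc, fun W hW => hT3 W ⟨hW.1, fun a b hab ha => hW.2 a b (hTM hab) ha⟩⟩

/-- The limit exists, Breaker wins above it, and there are templates below it. -/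
theorem final_static {d c : ℕ} {v : ℕ → ℕ} (h : CG G d c v) : ∃ b : ℝ, 0 < b ∧
    (∀ v₀ : Γ, Tendsto (fun p : ℕ => (maxCap G v₀ p : ℝ) / p) atTop (𝓝 b)) ∧
    (∀ ε : ℝ, 0 < ε → ∃ p₀ : ℕ, ∀ p q : ℕ, p₀ ≤ p → ∀ v₀ : Γ,
      (b + ε) * (p : ℝ) < (q : ℝ) → BreakerWins G v₀ p q) ∧
    ∀ ε : ℝ, 0 < ε → Stat G (b - ε) := by
  have hE := h.edge_infinite
  have hd := h.deg
  obtain ⟨b₀, hb₀, hb₀'⟩ := final_pos Γ G d c v h
  set S : Set ℝ := {c | ∃ᶠ n : ℕ in atTop, CapGE G 1 n (c * n)} with hS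
  have h0S : b₀ ∈ S := (Eventually.of_forall fun n => hb₀' n).frequently
  have hbdd : BddAbove S := by
    refine ⟨3 * d, ?_⟩
    intro c hc
    obtain ⟨n, ⟨M, k1, k2, k3⟩, hn⟩ := (hc.and_eventually (eventually_ge_atTop 1)).exists
    obtain ⟨W, hW, hW'⟩ := exists_adm_small G d hd 1 M
    have h4 := k3 W hW
    rw [k2] at hW'
    have h5 : (cut G W : ℝ) ≤ (2 * n + 1) * d := by exact_mod_cast hW'
    have h6 : (1 : ℝ) ≤ n := by exact_mod_cast hn
    have h7 : (0 : ℝ) < n := by linarith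
    have h8 : c * n ≤ 3 * d * n := by nlinarith [(Nat.cast_nonneg d : (0 : ℝ) ≤ d)]
    exact le_of_mul_le_mul_right h8 h7
  set b : ℝ := sSup S with hb
  have hb0 : 0 < b := lt_of_lt_of_le hb₀ (le_csSup hbdd h0S)
  have hlow : ∀ ε : ℝ, 0 < ε → ∃ᶠ n : ℕ in atTop, CapGE G 1 n ((b - ε) * n) := by
    intro ε hε
    obtain ⟨c, hc, hc'⟩ := exists_lt_of_lt_csSup ⟨b₀, h0S⟩ (show b - ε < sSup S by
      rw [← hb]; linarith)
    refine Frequently.mono hc fun n hn => hn.mono G ?_
    exact mul_le_mul_of_nonneg_right hc'.le (by positivity)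
  have hup : ∀ ε : ℝ, 0 < ε → ∀ᶠ n : ℕ in atTop, ¬ CapGE G 1 n ((b + ε) * n) := by
    intro ε hε
    have h1 : b + ε ∉ S := by
      intro h2
      have := le_csSup hbdd h2
      linarith
    exact not_frequently.1 h1
  have htr : ∀ v w : Γ, ∀ n c, CapGE G v n c → CapGE G w n c := by
    intro v w n c hc
    obtain ⟨φ, hφ⟩ := h.trans v w
    rw [← hφ]
    exact hc.translate G φ
  have hstat : ∀ ε : ℝ, 0 < ε → Stat G (b - ε) := fun ε hε =>
    final_sta Γ G d _ v h (b - ε) (hlow ε hε)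
  have hlow' : ∀ ε : ℝ, 0 < ε → ∃ p0 : ℕ, ∀ p : ℕ, p0 ≤ p → ∀ v,
      CapGE G v p ((b - ε) * p) := by
    intro ε hε
    obtain ⟨p0, hp0⟩ := final_cap hE (hstat (ε / 2) (by linarith)) (ε / 2) (by linarith)
    refine ⟨p0, fun p hp v => htr 1 v _ _ ?_⟩
    have h4 := hp0 p hp
    have h5 : b - ε / 2 - ε / 2 = b - ε := by ring
    rw [h5] at h4
    exact h4
  refine ⟨b, hb0, ?_, ?_, hstat⟩
  · intro w
    rw [Metric.tendsto_atTop]
    intro ε hε
    obtain ⟨p1, hp1⟩ := hlow' (ε / 2) (by linarith)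
    obtain ⟨p2, hp2⟩ := eventually_atTop.1 (hup (ε / 2) (by linarith))
    refine ⟨max (max p1 p2) 1, ?_⟩
    intro p hp
    have hpp : (0 : ℝ) < p := by
      have : 1 ≤ p := (le_max_right _ _).trans hp
      exact_mod_cast this
    have h1 := hp1 p ((le_max_left _ _).trans ((le_max_left _ _).trans hp)) w
    have h2 := hp2 p ((le_max_right _ _).trans ((le_max_left _ _).trans hp))
    have h3 : ¬ CapGE G w p ((b + ε / 2) * p) := fun hc => h2 (htr w 1 _ _ hc)
    rw [capGE_iff G d hd hE] at h1 h3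
    rw [not_le] at h3
    rw [Real.dist_eq, abs_lt]
    constructor
    · have : b - ε / 2 ≤ (maxCap G w p : ℝ) / p := by
        rw [le_div_iff₀ hpp]; exact h1
      linarith
    · have : (maxCap G w p : ℝ) / p < b + ε / 2 := by
        rw [div_lt_iff₀ hpp]; exact h3
      linarith
  · intro ε hε
    obtain ⟨p2, hp2⟩ := eventually_atTop.1 (hup ε hε)
    refine ⟨p2, ?_⟩
    intro p q hp w hq
    refine breakerWins_of_cut G hE w p q ?_
    intro X hX hXE
    have h1 : ¬ CapGE G w p ((b + ε) * p) := fun hc => hp2 p hp (htr w 1 _ _ hc)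
    have h2 : ∃ W : Finset Γ, Adm w X W ∧ (cut G W : ℝ) < (b + ε) * p := by
      by_contra hcon
      push Not at hcon
      exact h1 ⟨X, hXE, hX, hcon⟩
    obtain ⟨W, hW, hWc⟩ := h2
    refine ⟨W, bdE G W, hW.1, ?_, ?_, ?_, ?_⟩
    · rw [card_bdE]
      have : (cut G W : ℝ) < q := hWc.trans hq
      have : cut G W < q := by exact_mod_cast this
      exact this.le
    · intro e he
      rw [mem_coe, mem_bdE] at he
      obtain ⟨a, -, b, -, hab, rfl⟩ := he
      simpa using hab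
    · rw [adm_iff G w X hXE, bdry_eq] at hW
      exact hW.2
    · intro a ha b' hb' hab
      rw [mem_bdE]
      exact ⟨a, ha, b', hb', hab, rfl⟩

end

/-! ## Cayley graphs -/

section

variable {Γ : Type} [Group Γ]

private lemma final_adj (S : Finset Γ) (x y : Γ) :
    (cay S).Adj x y ↔ x ≠ y ∧ (x⁻¹ * y ∈ S ∨ y⁻¹ * x ∈ S) := Iff.rfl

private lemma final_inv (S : Finset Γ) (g x y : Γ) :
    (cay S).Adj (g * x) (g * y) ↔ (cay S).Adj x y := by
  rw [final_adj, final_adj]
  have h1 : (g * x)⁻¹ * (g * y) = x⁻¹ * y := by group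
  have h2 : (g * y)⁻¹ * (g * x) = y⁻¹ * x := by group
  rw [h1, h2]
  constructor
  · rintro ⟨h, h'⟩
    exact ⟨fun e => h (by rw [e]), h'⟩
  · rintro ⟨h, h'⟩
    exact ⟨fun e => h (mul_left_cancel e), h'⟩

private def final_iso (S : Finset Γ) (g : Γ) : cay S ≃g cay S where
  toEquiv := Equiv.mulLeft g
  map_rel_iff' := fun {x y} => final_inv S g x y

private lemma final_reach (S : Finset Γ) (g x y : Γ)
    (h : (cay S).Reachable x y) : (cay S).Reachable (g * x) (g * y) :=
  h.map (final_iso S g).toHom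

private lemma final_conn (S : Finset Γ) (hS : Subgroup.closure (S : Set Γ) = ⊤) :
    (cay S).Connected := by
  have h1 : ∀ g : Γ, (cay S).Reachable 1 g := by
    intro g
    have hg : g ∈ Subgroup.closure (S : Set Γ) := by
      rw [hS]
      exact Subgroup.mem_top g
    induction hg using Subgroup.closure_induction with
    | mem x hx =>
      by_cases hx1 : x = 1
      · rw [hx1]
      · apply SimpleGraph.Adj.reachable
        rw [final_adj]
        refine ⟨fun h => hx1 h.symm, Or.inl ?_⟩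
        rw [inv_one, one_mul]
        exact mem_coe.1 hx
    | one => exact SimpleGraph.Reachable.refl 1
    | mul x y _ _ hx hy =>
      refine hx.trans ?_
      have := final_reach S x 1 y hy
      rwa [mul_one] at this
    | inv x _ hx =>
      have := final_reach S x⁻¹ 1 x hx
      rw [mul_one, inv_mul_cancel] at this
      exact this.symm
  have h2 : (cay S).Preconnected := fun x y => (h1 x).symm.trans (h1 y)
  exact ⟨h2⟩

private lemma final_nbr [DecidableEq Γ] (S : Finset Γ) (x : Γ) :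
    (cay S).neighborSet x ⊆
      ((S.image fun s => x * s) ∪ S.image fun s => x * s⁻¹ : Finset Γ) := by
  intro y hy
  have h : (cay S).Adj x y := hy
  rw [final_adj] at h
  rw [mem_coe, mem_union, mem_image, mem_image]
  rcases h.2 with h | h
  · exact Or.inl ⟨_, h, by group⟩
  · exact Or.inr ⟨_, h, by group⟩

private lemma final_vol [DecidableEq Γ] (S : Finset Γ) [(cay S).LocallyFinite]
    (hconn : (cay S).Connected) (x : Γ) (r : ℕ) :
    (bl (cay S) x r).card = (bl (cay S) 1 r).card := by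
  have hb : bl (cay S) x r = (bl (cay S) 1 r).image fun y => x * y := by
    ext y
    rw [mem_image, mem_bl hconn]
    constructor
    · intro hy
      refine ⟨x⁻¹ * y, ?_, by group⟩
      rw [mem_bl hconn]
      have := dist_iso hconn (final_iso S x) 1 (x⁻¹ * y)
      change (cay S).dist (x * 1) (x * (x⁻¹ * y)) = _ at this
      rw [mul_one, mul_inv_cancel_left] at this
      rw [← this]
      exact hy
    · rintro ⟨u, hu, rfl⟩
      rw [mem_bl hconn] at hu
      have := dist_iso hconn (final_iso S x) 1 u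
      change (cay S).dist (x * 1) (x * u) = _ at this
      rw [mul_one] at this
      rw [this]
      exact hu
  rw [hb]
  exact card_image_of_injective _ (mul_right_injective x)

/-- A group which has a subgroup of finite index that acts on a complete nonempty metric space by
similarities, not only by isometries, without a common fixed point. -/
def Sims (Γ : Type) [Group Γ] : Prop :=
  ∃ (H : Subgroup Γ) (_ : H.FiniteIndex) (X : Type) (_ : MetricSpace X) (_ : CompleteSpace X)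
    (_ : Nonempty X) (_ : MulAction H X) (lam : H → ℝ),
    (∀ (h : H) (x y : X), dist (h • x) (h • y) = lam h * dist x y) ∧ (∃ h, lam h ≠ 1) ∧
      ¬ ∃ x : X, ∀ h : H, h • x = x

theorem final (Γ : Type) [Group Γ] (S : Finset Γ) (hS : Subgroup.closure (S : Set Γ) = ⊤)
    (hgr : (∃ c : ℕ, ∀ n : ℕ, 2 ^ n ≤ {g : Γ | (cay S).dist 1 g ≤ c * n}.ncard) ∨ Sims Γ) :
    ∃ b : ℝ, 0 < b ∧
      (∀ v₀ : Γ, Tendsto (fun p : ℕ => (maxCap (cay S) v₀ p : ℝ) / (p : ℝ)) atTop (𝓝 b)) ∧
      ∀ ε : ℝ, 0 < ε → ∃ p₀ : ℕ, ∀ p q : ℕ, p₀ ≤ p → ∀ v₀ : Γ,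
        ((b + ε) * (p : ℝ) < (q : ℝ) → BreakerWins (cay S) v₀ p q) ∧
        (Sims Γ → (q : ℝ) < (b - ε) * (p : ℝ) → MakerWins (cay S) v₀ p q) := by
  classical
  have hfin : ∀ x, ((cay S).neighborSet x).Finite := fun x =>
    (finite_toSet _).subset (final_nbr S x)
  let inst : (cay S).LocallyFinite := fun x => (hfin x).fintype
  have hconn := final_conn S hS
  have hinv := final_inv S
  have hc : ∃ c : ℕ, ∀ n : ℕ, 2 ^ n ≤ (bl (cay S) 1 (c * n)).card := by
    rcases hgr with ⟨c, hc⟩ | ⟨H, hH, X, hX1, hX2, hX3, hX4, lam, h1, h2, h3⟩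
    · refine ⟨c, fun n => ?_⟩
      have h1 : {g : Γ | (cay S).dist 1 g ≤ c * n} = (bl (cay S) 1 (c * n) : Set Γ) := by
        ext g
        rw [Finset.mem_coe, mem_bl hconn]
        exact Iff.rfl
      have h2 := hc n
      rwa [h1, Set.ncard_coe_finset] at h2
    · obtain ⟨lam', δ, t, k, Λ, c₀, hsim⟩ := thm_Nf Γ S hS H X lam h1 h2 h3
      exact thm_Gr thm_Wd1 thm_Wd2 Γ (cay S) hinv hconn H lam' δ t k Λ c₀ hsim
  obtain ⟨c, hc⟩ := hc
  have hCG : CG (cay S) (S.card + S.card) c (fun r => (bl (cay S) 1 r).card) := by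
    refine ⟨hinv, hconn, fun x => ?_, final_vol S hconn, hc⟩
    have hsub : (cay S).neighborFinset x ⊆
        (S.image fun s => x * s) ∪ S.image fun s => x * s⁻¹ := by
      intro y hy
      rw [SimpleGraph.mem_neighborFinset] at hy
      exact mem_coe.1 (final_nbr S x hy)
    refine (card_le_card hsub).trans ((card_union_le _ _).trans ?_)
    exact Nat.add_le_add card_image_le card_image_le
  obtain ⟨b, hb, hlim, hbr, hstat⟩ := final_static hCG
  refine ⟨b, hb, hlim, fun ε hε => ?_⟩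
  obtain ⟨p1, hp1⟩ := hbr ε hε
  by_cases hsims : Sims Γ
  · obtain ⟨H, hH, X, hX1, hX2, hX3, hX4, lam, h1, h2, h3⟩ := hsims
    obtain ⟨lam', δ, t, k, Λ, c₀, hsim⟩ := thm_Nf Γ S hS H X lam h1 h2 h3
    obtain ⟨C, hC⟩ := thm_Pln thm_Wd1 thm_Wd2 Γ (cay S) _ c _ hCG H lam' δ t k Λ c₀ hsim
    obtain ⟨p3, hp3⟩ : ∃ p3 : ℕ, ∀ p q : ℕ, p3 ≤ p → (q : ℝ) < (b - ε) * p →
        MakerWins (cay S) 1 p q := by
      by_cases hεb : ε < b
      · obtain ⟨p3, hp3⟩ := final_mkr Γ (cay S) _ c _ hCG C c₀ hC (b - ε / 2)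
          (hstat (ε / 2) (by linarith)) (ε / 2) (by linarith) (by linarith)
        refine ⟨p3, fun p q hp hq => hp3 p hp q ?_⟩
        have h5 : b - ε / 2 - ε / 2 = b - ε := by ring
        rw [h5]
        exact hq.le
      · refine ⟨0, fun p q _ hq => ?_⟩
        exfalso
        have h6 : (b - ε) * (p : ℝ) ≤ 0 :=
          mul_nonpos_of_nonpos_of_nonneg (by linarith) (Nat.cast_nonneg p)
        have h7 : (0 : ℝ) ≤ q := Nat.cast_nonneg q
        linarith
    refine ⟨max p1 p3, fun p q hp w => ⟨hp1 p q ((le_max_left _ _).trans hp) w,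
      fun _ hq => ?_⟩⟩
    have hMo : MakerWins (cay S) 1 p q := hp3 p q ((le_max_right _ _).trans hp) hq
    obtain ⟨φ, hφ⟩ := hCG.trans 1 w
    rw [← hφ]
    exact makerWins_map φ hMo
  · exact ⟨p1, fun p q hp w => ⟨hp1 p q hp w, fun h => absurd h hsims⟩⟩

end

end Pool.Agent.SIM
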