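import Pool.Agent.SIM.Defs

/-!
# Percolation games on Cayley graphs: basic facts
-/

set_option autoImplicit false

namespace Pool.Agent.SIM

open Finset Filter Pool.Agent.Helper30.Perc Pool.Agent.Helper22.PG

variable {Γ : Type} [Group Γ] [DecidableEq Γ] {G : SimpleGraph Γ} [G.LocallyFinite]
  {d c : ℕ} {v : ℕ → ℕ}

namespace CG

/-- left translation -/
def lt (h : CG G d c v) (g : Γ) : G ≃g G where
  toEquiv := Equiv.mulLeft g
  map_rel_iff' := fun {x y} => h.inv g x y

@[simp] lemma lt_apply (h : CG G d c v) (g x : Γ) : h.lt g x = g * x := rfl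

variable (h : CG G d c v)

include h

lemma dist_mul (g x y : Γ) : G.dist (g * x) (g * y) = G.dist x y :=
  dist_iso h.conn (h.lt g) x y

lemma dist_one (x y : Γ) : G.dist x y = G.dist 1 (x⁻¹ * y) := by
  rw [← h.dist_mul x⁻¹ x y, inv_mul_cancel]

lemma dist_self_mul (x s : Γ) : G.dist x (x * s) = G.dist 1 s := by
  rw [h.dist_one, inv_mul_cancel_left]

lemma dist_inv (x : Γ) : G.dist 1 x⁻¹ = G.dist 1 x := by
  rw [SimpleGraph.dist_comm, h.dist_one x⁻¹ 1, inv_inv, mul_one]

lemma dist_mul_le (x y : Γ) : G.dist 1 (x * y) ≤ G.dist 1 x + G.dist 1 y := by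
  have h1 := h.conn.dist_triangle (u := 1) (v := x) (w := x * y)
  rw [h.dist_self_mul] at h1
  exact h1

lemma v_zero : v 0 = 1 := by
  rw [← h.vol 1 0]
  simp [bl]

lemma v_mono {r s : ℕ} (hrs : r ≤ s) : v r ≤ v s := by
  rw [← h.vol 1 r, ← h.vol 1 s]
  exact card_le_card (bl_mono h.conn 1 hrs)

lemma v_pos (r : ℕ) : 0 < v r := by
  rw [← h.vol 1 r, card_pos]
  exact ⟨1, self_mem_bl 1 r⟩

lemma v_le (r : ℕ) : v r ≤ (d + 1) ^ r := by
  induction r with
  | zero => rw [h.v_zero]; simp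
  | succ r ih =>
    rw [← h.vol 1 (r + 1)]
    have h1 : (bl G 1 (r + 1)).card ≤ (bl G 1 r).card + (bl G 1 r).card * d := by
      simp only [bl]
      refine (card_union_le _ _).trans (Nat.add_le_add_left ?_ _)
      refine card_biUnion_le.trans ?_
      refine (sum_le_sum fun a _ => h.deg a).trans ?_
      rw [sum_const, smul_eq_mul]
    rw [h.vol 1 r] at h1
    calc (bl G 1 (r + 1)).card ≤ v r + v r * d := h1
      _ = v r * (d + 1) := by ring
      _ ≤ (d + 1) ^ r * (d + 1) := Nat.mul_le_mul_right _ ih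
      _ = (d + 1) ^ (r + 1) := by ring

lemma c_pos : 0 < c := by
  rcases Nat.eq_zero_or_pos c with h0 | h0
  · have h1 := h.gr 1
    rw [h0, Nat.zero_mul, h.v_zero] at h1
    omega
  · exact h0

lemma d_pos : 0 < d := by
  rcases Nat.eq_zero_or_pos d with h0 | h0
  · have h1 := h.gr 1
    have h2 := h.v_le (c * 1)
    rw [h0] at h2
    simp only [Nat.zero_add, one_pow] at h2
    omega
  · exact h0

lemma v_unb (n : ℕ) : n < v (c * n) := lt_of_lt_of_le n.lt_two_pow_self (h.gr n)

lemma exists_dist_eq (x : Γ) (r : ℕ) : ∃ z, G.dist x z = r := by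
  by_contra hcon
  push Not at hcon
  have h1 : ∀ y s, y ∈ bl G x s → y ∈ bl G x r := by
    intro y s _
    rw [mem_bl h.conn]
    by_contra hy
    obtain ⟨z, hz⟩ := exists_dist_eq_of_le h.conn x y r (by omega)
    exact hcon z hz
  have h2 : v (c * v r) ≤ v r := by
    rw [← h.vol x (c * v r)]
    refine (card_le_card fun y hy => h1 y _ hy).trans ?_
    rw [h.vol x r]
  exact absurd (h.v_unb (v r)) (by omega)

lemma inf : Infinite Γ := by
  rw [← not_finite_iff_infinite]
  intro hfin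
  have := Fintype.ofFinite Γ
  have h1 : v (c * Fintype.card Γ) ≤ Fintype.card Γ := by
    rw [← h.vol 1 (c * Fintype.card Γ)]
    exact card_le_univ _
  exact absurd (h.v_unb (Fintype.card Γ)) (by omega)

lemma edge_infinite : G.edgeSet.Infinite := by
  intro hfin
  have h1 : (⋃ e ∈ G.edgeSet, {u : Γ | u ∈ e}).Finite := by
    refine hfin.biUnion fun e _ => ?_
    refine (Sym2.toFinset e).finite_toSet.subset ?_
    intro u hu
    simpa using hu
  have := h.inf
  have h2 : (Set.univ : Set Γ).Infinite := Set.infinite_univ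
  refine h2 (h1.subset ?_)
  intro u _
  obtain ⟨z, hz⟩ := h.exists_dist_eq u 1
  rw [SimpleGraph.dist_eq_one_iff_adj] at hz
  simp only [Set.mem_iUnion]
  exact ⟨s(u, z), hz, by simp⟩

lemma trans (x y : Γ) : ∃ φ : G ≃g G, φ x = y :=
  ⟨h.lt (y * x⁻¹), by simp⟩

/-- translation does not change the number of boundary edges -/
lemma cut_mul (g : Γ) (W : Finset Γ) : cut G (W.image fun x => g * x) = cut G W := by
  have h1 := cut_map G (h.lt g) W
  have h2 : W.map (h.lt g).toEquiv.toEmbedding = W.image fun x => g * x := by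
    rw [Finset.map_eq_image]
    rfl
  rw [h2] at h1
  exact h1

/-- admissible sets for translated templates -/
lemma adm_mul (g : Γ) (T : Finset (Sym2 Γ)) (c₁ : ℝ) (hT : ∀ W, Adm 1 T W → c₁ ≤ cut G W)
    (W : Finset Γ) (hg : g ∈ W)
    (hW : ∀ a b, s(a, b) ∈ T → g * a ∈ W → g * b ∈ W) : c₁ ≤ cut G W := by
  have h1 := h.cut_mul g⁻¹ W
  have hmem : ∀ x, x ∈ W.image (fun x => g⁻¹ * x) ↔ g * x ∈ W := by
    intro x
    rw [mem_image]
    constructor
    · rintro ⟨y, hy, rfl⟩
      simpa using hy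
    · intro hx
      exact ⟨g * x, hx, by simp⟩
  have h2 := hT (W.image fun x => g⁻¹ * x) ⟨(hmem 1).2 (by simpa using hg), fun a b hab ha =>
    (hmem b).2 (hW a b hab ((hmem a).1 ha))⟩
  rwa [h1] at h2

end CG

omit [Group Γ] in
/-- two vertices of one edge -/
lemma mem_vert_left {e : Finset (Sym2 Γ)} {a b : Γ} (hab : s(a, b) ∈ e) : a ∈ vert e :=
  (mem_vert _ _).2 ⟨_, hab, by simp⟩

omit [Group Γ] in
lemma mem_vert_right {e : Finset (Sym2 Γ)} {a b : Γ} (hab : s(a, b) ∈ e) : b ∈ vert e :=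
  (mem_vert _ _).2 ⟨_, hab, by simp⟩

end Pool.Agent.SIM
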