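import Pool.Agent.Helper22.PG.CutBound
import Pool.Agent.Helper22.PG.Iso

/-!
# Percolation games on Cayley graphs of groups acting by similarities: definitions
-/

set_option autoImplicit false

namespace Pool.Agent.SIM

open Finset Filter Pool.Agent.Helper30.Perc Pool.Agent.Helper22.PG

/-- The Cayley graph of a group with respect to a finite set. -/
def cay {Γ : Type} [Group Γ] (S : Finset Γ) : SimpleGraph Γ :=
  SimpleGraph.fromRel fun x y => x⁻¹ * y ∈ S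

section

variable {Γ : Type} [Group Γ] [DecidableEq Γ]

/-- Standing assumptions: `G` is a connected left invariant graph on the group `Γ` (a Cayley
graph) of degree at most `d`; the balls of radius `r` have `v r` elements, and those of radius
`c n` have at least `2 ^ n` elements. -/
structure CG (G : SimpleGraph Γ) [G.LocallyFinite] (d c : ℕ) (v : ℕ → ℕ) : Prop where
  inv : ∀ g x y, G.Adj (g * x) (g * y) ↔ G.Adj x y
  conn : G.Connected
  deg : ∀ x, (G.neighborFinset x).card ≤ d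
  vol : ∀ x r, (bl G x r).card = v r
  gr : ∀ n, 2 ^ n ≤ v (c * n)

/-- `W` is admissible, it has the least possible number of boundary edges, and it has the least
cardinality among the admissible sets with that number of boundary edges. -/
def MinAdm (G : SimpleGraph Γ) [G.LocallyFinite] (o : Γ) (T : Finset (Sym2 Γ))
    (W : Finset Γ) : Prop :=
  Adm o T W ∧ ∀ W', Adm o T W' → cut G W ≤ cut G W' ∧ (cut G W' = cut G W → W.card ≤ W'.card)

/-- the exponent in the localisation lemma -/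
def kk (d c r : ℕ) : ℕ := Nat.sqrt (r / (16 * c * d + 1))

/-- the radius of blocks with `n` edges -/
def rad (d c n : ℕ) : ℕ := 4 * (4 * c * (d * (2 * n + 1))) ^ 2

/-- Blocks hung along a geodesic `γ` starting at `1`: block number `j` is the translate of `M1` by
`g j`, and `π j` is a geodesic from the vertex number `j ℓ` of `γ` to `g j`. -/
structure Hng (G : SimpleGraph Γ) (M1 : Finset (Sym2 Γ)) (R1 ℓ ρ R0 R2 m : ℕ) {z : Γ}
    (γ : G.Walk 1 z) (g : ℕ → Γ) (π : ∀ j, G.Walk (γ.getVert (j * ℓ)) (g j)) : Prop where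
  hγ : γ.length = G.dist 1 z
  hℓ : 0 < ℓ
  hm : m * ℓ ≤ γ.length
  hM1 : (M1 : Set (Sym2 Γ)) ⊆ G.edgeSet
  hV1 : ∀ u ∈ insert 1 (vert M1), G.dist 1 u ≤ R1
  hπ : ∀ j, (π j).length = G.dist (γ.getVert (j * ℓ)) (g j)
  h1 : ∀ j < m, G.dist (γ.getVert (j * ℓ)) (g j) ≤ ρ
  h2 : ∀ j < m, ∀ u ∈ insert 1 (vert M1), ∀ k ≤ γ.length, R2 < G.dist (g j * u) (γ.getVert k)
  h3 : ∀ i < m, ∀ j < m, i ≠ j → ∀ u ∈ insert 1 (vert M1), ∀ u' ∈ insert 1 (vert M1),
    2 * R0 + 1 < G.dist (g i * u) (g j * u')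

/-- The edges of block number `j`, together with the connecting path. -/
def blkE {G : SimpleGraph Γ} (M1 : Finset (Sym2 Γ)) {ℓ : ℕ} {z : Γ} {γ : G.Walk 1 z}
    {g : ℕ → Γ} (π : ∀ j, G.Walk (γ.getVert (j * ℓ)) (g j)) (j : ℕ) : Finset (Sym2 Γ) :=
  M1.image (Sym2.map fun x => g j * x) ∪ (π j).edges.toFinset

/-- All edges: the first `m ℓ` edges of `γ` and `m` blocks. -/
def hngE {G : SimpleGraph Γ} (M1 : Finset (Sym2 Γ)) {ℓ : ℕ} {z : Γ} {γ : G.Walk 1 z}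
    {g : ℕ → Γ} (π : ∀ j, G.Walk (γ.getVert (j * ℓ)) (g j)) (m : ℕ) : Finset (Sym2 Γ) :=
  ((range (m * ℓ)).image fun k => s(γ.getVert k, γ.getVert (k + 1))) ∪
    (range m).biUnion (blkE M1 π)

/-- Near every vertex of `W` there is a vertex of the geodesic, of a connecting path, or of a
block. -/
def Near {G : SimpleGraph Γ} (M1 : Finset (Sym2 Γ)) {ℓ : ℕ} (R0 Rθ m : ℕ) {z : Γ}
    {γ : G.Walk 1 z} {g : ℕ → Γ} (π : ∀ j, G.Walk (γ.getVert (j * ℓ)) (g j))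
    (W : Finset Γ) : Prop :=
  ∀ x ∈ W, (∃ k ≤ γ.length, G.dist x (γ.getVert k) ≤ Rθ) ∨
    (∃ j < m, ∃ u ∈ (π j).support, G.dist x u ≤ Rθ) ∨
    ∃ j < m, ∃ u ∈ insert 1 (vert M1), G.dist x (g j * u) ≤ R0

/-- Numerical conditions for localisation. -/
structure Nm (d c s : ℕ) (Rθ R0 ρ ℓ : ℕ) : Prop where
  n1 : ∀ r, Rθ < r → 32 * c * d * (kk d c r + 1) * (2 * (2 * r + 1)) ≤ 2 ^ kk d c r
  n2 : ∀ r, R0 < r → 32 * c * d * (kk d c r + 1) *
    ((2 * r + 1) + (2 * (r + ρ + rad d c s) + 1) * ((ρ + 1) + (2 * s + 1))) ≤ 2 ^ kk d c r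
  n3 : Rθ ≤ R0
  n4 : 2 * (R0 + ρ) < ℓ

/-- Templates: `T` has at most `p` edges, it is contained in the ball of radius `δ p` around `1`,
and every admissible set has at least `(κ - ε) p` boundary edges. -/
def Stat (G : SimpleGraph Γ) [G.LocallyFinite] (κ : ℝ) : Prop :=
  ∀ ε δ : ℝ, 0 < ε → 0 < δ → ∃ p₀ : ℕ, ∀ p : ℕ, p₀ ≤ p → ∃ T : Finset (Sym2 Γ),
    (T : Set (Sym2 Γ)) ⊆ G.edgeSet ∧ T.card ≤ p ∧ (∀ u ∈ vert T, (G.dist 1 u : ℝ) ≤ δ * p) ∧
    ∀ W : Finset Γ, Adm 1 T W → (κ - ε) * p ≤ cut G W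

/-- `N` is a set of vertices within distance `ρ + j` of `o` which can be reached from `o` by edges
of `T` and at most `j` other edges, not in `B`. -/
structure Lv (G : SimpleGraph Γ) [G.LocallyFinite] (o : Γ) (T B : Finset (Sym2 Γ)) (ρ j : ℕ)
    (N : Finset Γ) : Prop extends Lev G o T B j N where
  di : ∀ x ∈ N, G.dist o x ≤ ρ + j

/-- A steering plan of scale `D`: finitely many words `g w`, with walks of length at most `C D`
from `1` to `g w`, a finite set `E` of exits which is `c₀`-dense in the ball of radius `D`, and a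
potential `u`. -/
structure Plan (G : SimpleGraph Γ) (C c₀ D : ℕ) where
  /-- the set of words -/
  W : Type
  [fin : Fintype W]
  [ne : Nonempty W]
  /-- the elements of the group -/
  g : W → Γ
  /-- the walks -/
  wk : ∀ w, G.Walk 1 (g w)
  /-- the exits -/
  E : Finset Γ
  /-- the potential -/
  u : Γ → ℝ
  /-- the contribution of the walks -/
  pth : Γ → ℝ
  len : ∀ w, (wk w).length ≤ C * D
  E1 : 1 ∈ E
  Ec : ∀ y, G.dist 1 y + c₀ ≤ D → ∃ e ∈ E, G.dist y e ≤ c₀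
  u0 : ∀ x, 0 ≤ u x
  p0 : ∀ x, 0 ≤ pth x
  up : ∀ x, u x ≤ (1 / 2) ^ D + pth x
  psum : ∀ F : Finset Γ, ∑ x ∈ F, pth x ≤ C * D
  key : ∀ x, ∑ w, ((if x ∈ (wk w).support ∨ G.dist (g w) x ≤ D then (1 : ℝ) else 0) +
    ∑ e ∈ E, u ((g w * e)⁻¹ * x)) ≤ Fintype.card W / 2 * u x
  prod : ∀ l : List W, l ≠ [] → (l.map g).prod ≠ 1

attribute [instance] Plan.fin Plan.ne

/-- the total potential at `z` of the endpoints of the edges in `B` -/
noncomputable def Plan.U {G : SimpleGraph Γ} {C c₀ D : ℕ} (P : Plan G C c₀ D)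
    (B : Finset (Sym2 Γ)) (z : Γ) : ℝ :=
  ∑ o ∈ vert B, P.u (z⁻¹ * o)

/-- Maker is live: she can reach a vertex `z` of potential less than `1` with at most `k` new
edges. -/
def Live (G : SimpleGraph Γ) {C c₀ D : ℕ} (P : Plan G C c₀ D) (k : ℕ)
    (M B : Finset (Sym2 Γ)) : Prop :=
  (M : Set (Sym2 Γ)) ⊆ G.edgeSet ∧ (B : Set (Sym2 Γ)) ⊆ G.edgeSet ∧ Disjoint M B ∧
  ∃ (z : Γ) (X0 : Finset (Sym2 Γ)), X0.card ≤ k ∧ (X0 : Set (Sym2 Γ)) ⊆ G.edgeSet ∧
    Disjoint X0 B ∧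
    (SimpleGraph.fromEdgeSet ((M ∪ X0 : Finset (Sym2 Γ)) : Set (Sym2 Γ))).Reachable 1 z ∧
    P.U B z < 1

/-- The group acts by similarities, in terms of the pull back `δ` of the metric to `Γ`: elements
of `H` multiply `δ` by `lam`, `t` contracts and fixes the base point, and `k` is an isometry that
moves it. -/
structure SimD (G : SimpleGraph Γ) (H : Subgroup Γ) (lam : Γ → ℝ) (δ : Γ → Γ → ℝ) (t k : Γ)
    (Λ : ℝ) (c₀ : ℕ) : Prop where
  d0 : ∀ x, δ x x = 0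
  dn : ∀ x y, 0 ≤ δ x y
  sym : ∀ x y, δ x y = δ y x
  tri : ∀ x y z, δ x z ≤ δ x y + δ y z
  sc : ∀ h ∈ H, ∀ x y, δ (h * x) (h * y) = lam h * δ x y
  lpos : ∀ h ∈ H, 0 < lam h
  lmul : ∀ g ∈ H, ∀ h ∈ H, lam (g * h) = lam g * lam h
  tH : t ∈ H
  t1 : lam t ≤ 1 / 4
  t0 : δ 1 t = 0
  kH : k ∈ H
  k1 : lam k = 1
  k0 : 0 < δ 1 k
  two : 2 ≤ Λ
  gr : ∀ x, δ 1 x ≤ Λ ^ (G.dist 1 x + 1)
  grl : ∀ h ∈ H, lam h ≤ Λ ^ G.dist 1 h
  fin : ∀ x, ∃ s, G.dist 1 s ≤ c₀ ∧ x * s ∈ H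

/-- words in the letters `t` (for `false`) and `k t` (for `true`) -/
def wd (t k : Γ) : List Bool → Γ
  | [] => 1
  | b :: l => (if b then k * t else t) * wd t k l

end

end Pool.Agent.SIM
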