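import Pool.Agent.SIM.St

set_option autoImplicit false

namespace Pool.Agent.SIM

open Finset Filter Pool.Agent.Helper30.Perc Pool.Agent.Helper22.PG

private theorem fin_adj {Γ : Type} [Group Γ] (S : Finset Γ) (x y : Γ) :
    (cay S).Adj x y ↔ x ≠ y ∧ (x⁻¹ * y ∈ S ∨ y⁻¹ * x ∈ S) := Iff.rfl

private theorem fin_inv {Γ : Type} [Group Γ] (S : Finset Γ) (g x y : Γ) :
    (cay S).Adj (g * x) (g * y) ↔ (cay S).Adj x y := by
  rw [fin_adj, fin_adj]
  have h1 : (g * x)⁻¹ * (g * y) = x⁻¹ * y := by group
  have h2 : (g * y)⁻¹ * (g * x) = y⁻¹ * x := by group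
  rw [h1, h2]
  constructor
  · rintro ⟨h, h'⟩
    exact ⟨fun e => h (by rw [e]), h'⟩
  · rintro ⟨h, h'⟩
    exact ⟨fun e => h (mul_left_cancel e), h'⟩

private def fin_iso {Γ : Type} [Group Γ] (S : Finset Γ) (g : Γ) : cay S ≃g cay S where
  toEquiv := Equiv.mulLeft g
  map_rel_iff' := fun {x y} => fin_inv S g x y

private theorem fin_reach {Γ : Type} [Group Γ] (S : Finset Γ) (g x y : Γ)
    (h : (cay S).Reachable x y) : (cay S).Reachable (g * x) (g * y) :=
  h.map (fin_iso S g).toHom

private theorem fin_conn {Γ : Type} [Group Γ] (S : Finset Γ)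
    (hS : Subgroup.closure (S : Set Γ) = ⊤) : (cay S).Connected := by
  have h1 : ∀ g : Γ, (cay S).Reachable 1 g := by
    intro g
    have hg : g ∈ Subgroup.closure (S : Set Γ) := by
      rw [hS]
      exact Subgroup.mem_top g
    induction hg using Subgroup.closure_induction with
    | mem x hx =>
      by_cases hx1 : x = 1
      · rw [hx1]
      · apply SimpleGraph.Adj.reachable
        rw [fin_adj]
        refine ⟨fun h => hx1 h.symm, Or.inl ?_⟩
        rw [inv_one, one_mul]
        exact mem_coe.1 hx
    | one => exact SimpleGraph.Reachable.refl 1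
    | mul x y _ _ hx hy =>
      refine hx.trans ?_
      have := fin_reach S x 1 y hy
      rwa [mul_one] at this
    | inv x _ hx =>
      have := fin_reach S x⁻¹ 1 x hx
      rw [mul_one, inv_mul_cancel] at this
      exact this.symm
  have h2 : (cay S).Preconnected := fun x y => (h1 x).symm.trans (h1 y)
  exact ⟨h2⟩

private theorem fin_nbr {Γ : Type} [Group Γ] [DecidableEq Γ] (S : Finset Γ) (x : Γ) :
    (cay S).neighborSet x ⊆
      ((S.image fun s => x * s) ∪ S.image fun s => x * s⁻¹ : Finset Γ) := by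
  intro y hy
  have h : (cay S).Adj x y := hy
  rw [fin_adj] at h
  rw [mem_coe, mem_union, mem_image, mem_image]
  rcases h.2 with h | h
  · exact Or.inl ⟨_, h, by group⟩
  · exact Or.inr ⟨_, h, by group⟩

theorem thm_Fin (h1 : St_Nf) (h2 : St_Gr) (h3 : St_Pln) (h4 : St_Asm) : St_Fin := by
  classical
  intro Γ _ S hS H _ X _ _ _ _ lam hlam hne hfix
  obtain ⟨lam', δ, t, k, Λ, c₀, hsim⟩ := h1 Γ S hS H X lam hlam hne hfix
  have hfin : ∀ x, ((cay S).neighborSet x).Finite := fun x =>
    (finite_toSet _).subset (fin_nbr S x)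
  let inst : (cay S).LocallyFinite := fun x => (hfin x).fintype
  have hconn := fin_conn S hS
  have hinv := fin_inv S
  obtain ⟨c, hc⟩ := h2 Γ (cay S) hinv hconn H lam' δ t k Λ c₀ hsim
  have hvol : ∀ x r, (bl (cay S) x r).card = (bl (cay S) 1 r).card := by
    intro x r
    have hb : bl (cay S) x r = (bl (cay S) 1 r).image fun y => x * y := by
      ext y
      rw [mem_image, mem_bl hconn]
      constructor
      · intro hy
        refine ⟨x⁻¹ * y, ?_, by group⟩
        rw [mem_bl hconn]
        have := dist_iso hconn (fin_iso S x) 1 (x⁻¹ * y)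
        change (cay S).dist (x * 1) (x * (x⁻¹ * y)) = _ at this
        rw [mul_one, mul_inv_cancel_left] at this
        rw [← this]
        exact hy
      · rintro ⟨u, hu, rfl⟩
        rw [mem_bl hconn] at hu
        have := dist_iso hconn (fin_iso S x) 1 u
        change (cay S).dist (x * 1) (x * u) = _ at this
        rw [mul_one] at this
        rw [this]
        exact hu
    rw [hb]
    exact card_image_of_injective _ (mul_right_injective x)
  have hCG : CG (cay S) (S.card + S.card) c (fun r => (bl (cay S) 1 r).card) := by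
    refine ⟨hinv, hconn, fun x => ?_, hvol, hc⟩
    have hsub : (cay S).neighborFinset x ⊆
        (S.image fun s => x * s) ∪ S.image fun s => x * s⁻¹ := by
      intro y hy
      rw [SimpleGraph.mem_neighborFinset] at hy
      exact mem_coe.1 (fin_nbr S x hy)
    refine (card_le_card hsub).trans ((card_union_le _ _).trans ?_)
    exact Nat.add_le_add card_image_le card_image_le
  obtain ⟨C, hC⟩ := h3 Γ (cay S) _ c _ hCG H lam' δ t k Λ c₀ hsim
  exact h4 Γ (cay S) _ c _ hCG C c₀ hC

end Pool.Agent.SIM
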