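import Pool.Agent.SIM.Basic

/-!
# Percolation games on Cayley graphs: frozen statements, with proofs in the docstrings

In all statements `G` is a connected left invariant graph on the group `Γ` (`CG G d c v`).
Basic facts (translations, `dist_mul`, `v_le`, `v_unb`, `adm_mul`, ...) are in `Basic.lean`; facts on
balls `bl`, geodesics (`dist_getVert`, `card_geod_ball`, `card_support_ball`, `window_count`) in
`Helper22/PG/{Defs,Basic,Vitali,CutBound}.lean`; `cut`, `bdE`, `Adm`, `vert`, `cut_map`, `Lev` in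
`Helper30/Perc/{Cap,Grow}.lean`; `CapGE`, `exists_adm_small`, `exists_move` in
`Helper30/Perc/{Const,Main,Game}.lean`.
-/

set_option autoImplicit false

namespace Pool.Agent.SIM

open Finset Filter Pool.Agent.Helper30.Perc Pool.Agent.Helper22.PG

/-! ## Isoperimetry -/

/-- [Iso1] If `W` fills at most half of the ball of radius `r` around each of its points then
`|W| ≤ 2 r |∂W|`.
Proof. For `g ∈ bl 1 r` the set `{x ∈ W | x * g ∉ W}` has at most `dist 1 g * cut W ≤ r * cut W`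
elements: take a walk `1 = g_0, ..., g_n = g`, `n = dist 1 g`; if `x ∈ W` and `x g ∉ W` then
`x g_i ∈ W`, `x g_{i+1} ∉ W` for some `i`, and for fixed `i` the map `x ↦ (x g_i, x g_{i+1})` is an
injection into the pairs `(a, b)`, `a ∈ W`, `b ∈ G.neighborFinset a \ W`, whose number is `cut G W`.
Sum over `g ∈ bl 1 r`: `∑_{x ∈ W} (v r - #(W ∩ bl x r)) ≤ v r * (r * cut W)` (`g ↦ x g` is a bijection
from `bl 1 r` to `bl x r`), and the left side is at least `#W * v r / 2`. -/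
def St_Iso1 : Prop := ∀ (Γ : Type) [Group Γ] [DecidableEq Γ] (G : SimpleGraph Γ)
  [G.LocallyFinite] (d c : ℕ) (v : ℕ → ℕ), CG G d c v → ∀ (W : Finset Γ) (r : ℕ),
  (∀ x ∈ W, 2 * (W ∩ bl G x r).card ≤ v r) → W.card ≤ 2 * r * cut G W

/-- [Iso2] Proof. `W = ∅` is trivial. Otherwise `r = c * (Nat.log 2 #W + 2)`,
`v r ≥ 2 ^ (log 2 #W + 2) ≥ 2 * #W` (`CG.gr`), and `St_Iso1`; `2 c (l + 2) ≤ 4 c (l + 1)`. -/
def St_Iso2 : Prop := ∀ (Γ : Type) [Group Γ] [DecidableEq Γ] (G : SimpleGraph Γ)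
  [G.LocallyFinite] (d c : ℕ) (v : ℕ → ℕ), CG G d c v → ∀ W : Finset Γ,
  W.card ≤ 4 * c * (Nat.log 2 W.card + 1) * cut G W

/-- [Min] minimal admissible sets. Proof. Existence: `insert o (vert T)` is admissible; minimise
first `cut`, then `card` (well foundedness of `ℕ`, e.g. `WellFounded.min` for the set of pairs or two
uses of `Nat.find`). Distance: let `A` be the set of `x ∈ W` which can be joined to `o` inside `W`
(`(G.induce W).Reachable`); `A` is admissible (edges of `T`: if `a ∈ A`, `s(a,b) ∈ T` then `b ∈ W`; if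
`s(a,b)` is not an edge of `G` adjacency may fail, so assume here `T ⊆ G.edgeSet`), and
`cut A ≤ cut W` because neighbours of `A` in `W` are in `A`; so `cut A = cut W`, `#W ≤ #A`, `A = W`.
A path inside `W` from `o` to `x` has fewer than `#W` edges (`SimpleGraph.Walk.IsPath.length_lt`).
Size: `cut W ≤ cut (insert o (vert T)) ≤ d (2 #T + 1)` (`card_vert`), so by `St_Iso2`
`n = #W ≤ A (log 2 n + 1)` with `A = 4 c (d (2 #T + 1))`, and `(log 2 n + 1)^2 ≤ 4 n`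
(`(j+1)^2 ≤ 4 * 2^j`), so `n^2 ≤ 4 A^2 n`. -/
def St_Min : Prop := ∀ (Γ : Type) [Group Γ] [DecidableEq Γ] (G : SimpleGraph Γ)
  [G.LocallyFinite] (d c : ℕ) (v : ℕ → ℕ), CG G d c v → ∀ (o : Γ) (T : Finset (Sym2 Γ)),
  (∃ W, MinAdm G o T W) ∧ ((T : Set (Sym2 Γ)) ⊆ G.edgeSet → ∀ W, MinAdm G o T W →
    (∀ x ∈ W, G.dist o x < W.card) ∧ W.card ≤ 4 * (4 * c * (d * (2 * T.card + 1))) ^ 2)

/-- [Loc] localisation of minimal admissible sets.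
Proof. Let `A = 4 c`, `C2 = 4 d A + 1 = 16 c d + 1`, `V0 = insert o (vert T)`, `N r = #(V0 ∩ bl x r)`,
`F r = #((W ∩ bl x r) \ V0)`; suppose `8 d A (kk r + 1) N r ≤ 2 ^ kk r` for all `r` (`kk r = kk d c r`,
`8 d A = 32 c d`). For `r = 0` this gives `N 0 = 0`, so `F 0 = 1`.
Let `Q = (W ∩ bl x r) \ V0`, nonempty. `W \ Q` is admissible (`o` and the endpoints of edges of `T`
are in `V0`) and smaller than `W`, so `cut W < cut (W \ Q)`. Writing `e(X,Y)` for the number of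
pairs of adjacent vertices in `X × Y`: `cut W = e(W \ Q, Wᶜ) + e(Q, Wᶜ)` and
`cut (W \ Q) = e(W \ Q, Wᶜ) + e(W \ Q, Q)`, so `e(Q, Wᶜ) < e(Q, W \ Q)` and
`cut Q = e(Q, Wᶜ) + e(Q, W \ Q) < 2 e(Q, W \ Q)`. If `a ∈ Q`, `b ∈ W \ Q` are adjacent then `b ∈ V0 ∩ bl x r`
or `b ∉ bl x r`, and then `a ∉ bl x (r-1)`. So for `r ≥ 1`
`cut Q < 2 d (N r + F r - F (r-1))`.
Claim: `2 ^ k ≤ F (C2 k^2)` for all `k`; this contradicts `F r ≤ #W`. Induction on `k`. Let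
`C2 k^2 < r < C2 (k+1)^2`, so `kk r = k`. `F` is increasing. If `F r < 2 ^ (k+1)` then `log 2 (F r) = k` and
`St_Iso2` for `Q` gives `2 ^ k ≤ F r ≤ A (k+1) cut Q ≤ 2 d A (k+1) (N r + F r - F (r-1))`, and
`8 d A (k+1) N r ≤ 2 ^ k`, so `4 d A (k+1) (F r - F (r-1)) ≥ 2 ^ k`. If this holds for all these `r`,
summing over the `C2 (2k+1) - 1 ≥ 4 d A (k+1)` values of `r` gives
`F (C2 (k+1)^2 - 1) ≥ F (C2 k^2) + 2 ^ k ≥ 2 ^ (k+1)`. -/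
def St_Loc : Prop := ∀ (Γ : Type) [Group Γ] [DecidableEq Γ] (G : SimpleGraph Γ)
  [G.LocallyFinite] (d c : ℕ) (v : ℕ → ℕ), CG G d c v → ∀ (o : Γ) (T : Finset (Sym2 Γ))
  (W : Finset Γ), MinAdm G o T W → ∀ x ∈ W, ∃ r : ℕ,
    2 ^ kk d c r < 32 * c * d * (kk d c r + 1) * ((insert o (vert T)) ∩ bl G x r).card

/-! ## Templates of small diameter -/

/-- [Blk] blocks of bounded radius. Proof. Let `M` be as in `CapGE`, `R = rad d c n`, `M1` the edges of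
`M` with both endpoints in `bl 1 R`. Let `W` be minimal admissible for `M1` (`St_Min`): `#W ≤ R` (as
`#M1 ≤ n`) and `dist 1 x < #W ≤ R` on `W`. If `a ∈ W`, `s(a,b) ∈ M` then `a`, `b` are adjacent, so
`dist 1 b ≤ R` and `s(a,b) ∈ M1`, `b ∈ W`. So `W` is admissible for `M` and `c₁ ≤ cut W ≤ cut W'` for all
`W'` admissible for `M1`. Radius: `dist 1 1 = 0`. -/
def St_Blk : Prop := ∀ (Γ : Type) [Group Γ] [DecidableEq Γ] (G : SimpleGraph Γ)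
  [G.LocallyFinite] (d c : ℕ) (v : ℕ → ℕ), CG G d c v → ∀ (n : ℕ) (c₁ : ℝ),
  CapGE G 1 n c₁ → ∃ M1 : Finset (Sym2 Γ), (M1 : Set (Sym2 Γ)) ⊆ G.edgeSet ∧ M1.card ≤ n ∧
    (∀ u ∈ insert 1 (vert M1), G.dist 1 u ≤ rad d c n) ∧
    ∀ W, Adm 1 M1 W → c₁ ≤ cut G W

/-- [Plc] greedy placement of blocks. Proof. Choose `g j` by recursion on `j` in `bl (γ (j ℓ)) ρ`, which
has `v ρ` elements, avoiding bad elements:
(a) for `i < j`, `u, u' ∈ V1`: `g` with `dist (g u) (g_i u') ≤ 2 R0 + 1`, that is `g ∈ (bl (g_i u') (2 R0 + 1)) u⁻¹`,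
`v (2 R0 + 1)` elements; such `i` satisfy `(j - i) ℓ = dist (γ (i ℓ)) (γ (j ℓ)) ≤ 2 ρ + 2 R1 + 2 R0 + 1`
(`dist_getVert`), so there are at most `2 ρ + 2 R1 + 2 R0 + 1` of them (`ℓ ≥ 1`, `i < j`);
(b) for `k ≤ length`, `u ∈ V1`: `g` with `dist (g u) (γ k) ≤ R2`, `v R2` elements; such `k` satisfy
`dist (γ (j ℓ)) (γ k) ≤ ρ + R1 + R2`: at most `2 (ρ + R1 + R2) + 1` of them (`card_geod_ball`). -/
def St_Plc : Prop := ∀ (Γ : Type) [Group Γ] [DecidableEq Γ] (G : SimpleGraph Γ)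
  [G.LocallyFinite] (d c : ℕ) (v : ℕ → ℕ), CG G d c v → ∀ (z : Γ) (γ : G.Walk 1 z),
  γ.length = G.dist 1 z → ∀ (ℓ m : ℕ), 0 < ℓ → m * ℓ ≤ γ.length →
  ∀ (V1 : Finset Γ) (R1 ρ R0 R2 : ℕ), (∀ u ∈ V1, G.dist 1 u ≤ R1) →
  (2 * ρ + 2 * R1 + 2 * R0 + 1) * (V1.card ^ 2 * v (2 * R0 + 1)) +
    (2 * (ρ + R1 + R2) + 1) * (V1.card * v R2) < v ρ →
  ∃ g : ℕ → Γ, (∀ j < m, G.dist (γ.getVert (j * ℓ)) (g j) ≤ ρ) ∧
    (∀ j < m, ∀ u ∈ V1, ∀ k ≤ γ.length, R2 < G.dist (g j * u) (γ.getVert k)) ∧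
    ∀ i < m, ∀ j < m, i ≠ j → ∀ u ∈ V1, ∀ u' ∈ V1, 2 * R0 + 1 < G.dist (g i * u) (g j * u')

/-- [Pcs] position of minimal admissible sets. Proof. Let `x ∈ W`, `r` from `St_Loc`, `k = kk r`.
`V0 = insert 1 (vert (hngE ...))` consists of vertices `γ i`, `i ≤ m ℓ`, vertices of the paths `π j`,
`j < m`, and vertices `g j u`, `u ∈ vert M1`. Suppose `x` is not within `R0` of a block vertex.
(1) `r ≤ R0`: no block vertex is in `bl x r`; at most `2 r + 1` vertices of `γ`; a path `π j` that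
meets `bl x r` has `dist (γ (j ℓ)) x ≤ r + ρ`, and for two such `j` the difference is at most
`2 (r + ρ) / ℓ < 1` (`n4`), so there is at most one, with at most `2 r + 1` vertices in `bl x r`
(`card_support_ball`). If `Rθ < r` this contradicts `n1`. So `r ≤ Rθ`, `V0 ∩ bl x r` is nonempty: a
vertex of `γ` or of a path within `r ≤ Rθ` of `x`.
(2) `r > R0`: `#(V0 ∩ bl x r) ≤ (2 r + 1) + ∑_j ((ρ + 1) + (2 s + 1))` over the `j < m` with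
`dist (γ (j ℓ)) x ≤ r + ρ + R1`, at most `2 (r + ρ + R1) / ℓ + 1` of them (`window_count`); contradiction to
`n2`. (`#(insert 1 (vert M1)) ≤ 2 s + 1`; `π j` has at most `ρ + 1` vertices.) -/
def St_Pcs : Prop := ∀ (Γ : Type) [Group Γ] [DecidableEq Γ] (G : SimpleGraph Γ)
  [G.LocallyFinite] (d c : ℕ) (v : ℕ → ℕ), CG G d c v → ∀ (M1 : Finset (Sym2 Γ))
  (s ℓ ρ R0 R2 Rθ m : ℕ) (z : Γ) (γ : G.Walk 1 z) (g : ℕ → Γ)
  (π : ∀ j, G.Walk (γ.getVert (j * ℓ)) (g j)), Hng G M1 (rad d c s) ℓ ρ R0 R2 m γ g π →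
  M1.card ≤ s → Nm d c s Rθ R0 ρ ℓ → ∀ W : Finset Γ, MinAdm G 1 (hngE M1 π m) W →
  Near M1 R0 Rθ m π W

/-- [Cut] the cut bound. Proof. `W` contains `1`, so (edges of `hngE`) `γ k`, `k ≤ m ℓ`, the vertices of
`π j`, in particular `g j`, for `j < m`. Let `W_j = {x ∈ W | ∃ u ∈ V1, dist x (g_j u) ≤ R0}`,
`V1 = insert 1 (vert M1)`. `W_j` contains `g_j` and is closed under the edges of `g_j M1`, so
`C0 ≤ cut W_j` (`CG.adm_mul`). The `W_j` are pairwise disjoint (`h3`). Let `Y` be the set of vertices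
within `Rθ` of a vertex of some `π j`, `j < m`; `#Y ≤ m (ρ + 1) v Rθ`. If `a ∈ W_j`, `b ∈ W \ W_j` are
adjacent then `b ∈ Y`: by `Near`, otherwise `b` is within `Rθ` of `γ`, so `g_j u` is within
`R0 + 1 + Rθ ≤ R2` of `γ`, against `h2`, or `b` is within `R0` of `g_i u'`; then `i ≠ j` and
`dist (g_j u) (g_i u') ≤ 2 R0 + 1`, against `h3`. So
`∑_j cut W_j ≤ ∑_j ∑_{a ∈ W_j} #(N a \ W) + ∑_j ∑_{a ∈ W_j} #(N a ∩ Y) ≤ cut W + ∑_{y ∈ Y} #(N y)`. -/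
def St_Cut : Prop := ∀ (Γ : Type) [Group Γ] [DecidableEq Γ] (G : SimpleGraph Γ)
  [G.LocallyFinite] (d c : ℕ) (v : ℕ → ℕ), CG G d c v → ∀ (M1 : Finset (Sym2 Γ))
  (R1 ℓ ρ R0 R2 Rθ m C0 : ℕ) (z : Γ) (γ : G.Walk 1 z) (g : ℕ → Γ)
  (π : ∀ j, G.Walk (γ.getVert (j * ℓ)) (g j)), Hng G M1 R1 ℓ ρ R0 R2 m γ g π →
  R0 + Rθ + 1 ≤ R2 → (∀ W, Adm 1 M1 W → C0 ≤ cut G W) → ∀ W : Finset Γ,
  Adm 1 (hngE M1 π m) W → Near M1 R0 Rθ m π W →
  m * C0 ≤ cut G W + m * (d * ((ρ + 1) * v Rθ))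

/-- [Num1] Proof. `32 c d (k + 1) (2 (2 r + 1)) ≤ 2 ^ k` with `k = kk d c r = sqrt (r / C2)`,
`C2 = 16 c d + 1`: `r < C2 (k + 1)^2`, so the left side is at most a polynomial in `k`. -/
def St_Num1 : Prop := ∀ d c : ℕ, ∃ Rθ : ℕ, ∀ r, Rθ < r →
  32 * c * d * (kk d c r + 1) * (2 * (2 * r + 1)) ≤ 2 ^ kk d c r

/-- [Num2] choice of the scales. `c, d > 0`, `v r ≤ (d+1)^r`, `2 ^ n ≤ v (c n)`, `v` monotone.
Proof. `R0 = sqrt (sqrt s)`, `ρ = c C4 (R0 + 1)` with `C4 = 4 (d + 1) + 1` (or any larger constant),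
`ℓ = ⌊δ s⌋`. `rad d c s ≤ C s^2`, `s < (R0 + 1)^4`.
`n2`: for `r > R0` the left side is at most a polynomial in `r` (`s < r^4`...), as in `St_Num1`, and
`R0` is large. Placement: the left side is at most `poly(s) (d+1)^(2 R0 + Rθ + 2)`, with
`(d+1)^(2 R0 + Rθ + 2) ≤ 2^((d+1)(2 R0 + Rθ + 2)) ≤ 2^(4 (d+1) R0)` for `R0 ≥ Rθ + 2`, and
`v ρ ≥ 2^(C4 (R0 + 1)) ≥ 2^(4 (d+1) R0) 2^(R0 + 1)`, and `2^(R0+1)` beats `poly(s) ≤ poly(R0)`. -/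
def St_Num2 : Prop := ∀ (d c : ℕ) (v : ℕ → ℕ), 0 < d → 0 < c → (∀ r, v r ≤ (d + 1) ^ r) →
  (∀ r s, r ≤ s → v r ≤ v s) → (∀ n, 2 ^ n ≤ v (c * n)) → ∀ Rθ : ℕ,
  (∀ r, Rθ < r → 32 * c * d * (kk d c r + 1) * (2 * (2 * r + 1)) ≤ 2 ^ kk d c r) →
  ∀ ε δ : ℝ, 0 < ε → 0 < δ → ∃ s₀ : ℕ, ∀ s, s₀ ≤ s → ∃ R0 ρ ℓ : ℕ, Nm d c s Rθ R0 ρ ℓ ∧
    0 < ℓ ∧ (ℓ : ℝ) ≤ δ * s ∧ (ρ : ℝ) + d * ((ρ + 1) * v Rθ) ≤ ε * s ∧
    (2 * ρ + 2 * rad d c s + 2 * R0 + 1) * ((2 * s + 1) ^ 2 * v (2 * R0 + 1)) +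
      (2 * (ρ + rad d c s + (R0 + Rθ + 1)) + 1) * ((2 * s + 1) * v (R0 + Rθ + 1)) < v ρ

/-- [Sta] templates. Proof. If `κ ≤ ε` take `T = ∅`. Let `κ > 0`, `ε' = δ' = min(δ, ε / (4 (κ + 1))) / 4` or
similar. Take `s ≥ s₀` (from `St_Num2` with `ε', δ'`) with `CapGE G 1 s (κ s)` and `s ≥ 1`, `M1` from `St_Blk`,
`C0 = ⌈κ s⌉₊`. For `p` put `m = p / (s + ℓ + ρ)`, `γ` a geodesic from `1` to a vertex at distance `m ℓ`
(`CG.exists_dist_eq`), `g` from `St_Plc` (`V1 = insert 1 (vert M1)`, `#V1 ≤ 2 s + 1`, `R2 = R0 + Rθ + 1`),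
`π j` geodesics, `T = hngE M1 π m`: `#T ≤ m ℓ + m s + m ρ ≤ p`; its vertices are within
`m ℓ + ρ + rad d c s ≤ δ' p + const ≤ δ p` of `1` for `p` large (`m ℓ ≤ p ℓ / s ≤ δ' p`). For `W` admissible
let `W'` be minimal admissible (`St_Min`): `St_Pcs` and `St_Cut` give
`cut W ≥ cut W' ≥ m (C0 - d (ρ + 1) v Rθ) ≥ m (κ - ε') s` and
`m ≥ p / (s (1 + δ' + ε')) - 1`; so `cut W ≥ (κ - ε) p` for `p` large. -/
def St_Sta : Prop := ∀ (Γ : Type) [Group Γ] [DecidableEq Γ] (G : SimpleGraph Γ)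
  [G.LocallyFinite] (d c : ℕ) (v : ℕ → ℕ), CG G d c v → ∀ κ : ℝ,
  (∃ᶠ n : ℕ in atTop, CapGE G 1 n (κ * n)) → Stat G κ

/-- [Pos] the isoperimetric constant is positive. Proof. `Rθ` from `St_Num1`; choose `r0 ≥ 1` with
`2 (2 (r0 + Rθ) + 1) v Rθ ≤ v r0` (exponential growth). Let `γ` be a geodesic of length `p` from `1`,
`T` its edges, `W` minimal admissible. By `St_Loc` and `#(V0 ∩ bl x r) ≤ 2 r + 1`
(`card_support_ball`) every `x ∈ W` is within `Rθ` of `γ`. So `W ∩ bl x r0` is contained in the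
union of the balls `bl (γ k) Rθ`, `γ k ∈ bl x (r0 + Rθ)`, so has at most `(2 (r0 + Rθ) + 1) v Rθ`
elements; by `St_Iso1` `#W ≤ 2 r0 cut W`, and `W` contains the `p + 1` vertices of `γ`. So
`p / (2 r0) ≤ cut W`. Finally extend `T` to exactly `p` edges (`exists_move`; or `T` has `p`
elements). -/
def St_Pos : Prop := ∀ (Γ : Type) [Group Γ] [DecidableEq Γ] (G : SimpleGraph Γ)
  [G.LocallyFinite] (d c : ℕ) (v : ℕ → ℕ), CG G d c v → ∃ b : ℝ, 0 < b ∧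
  ∀ p : ℕ, CapGE G 1 p (b * p)

/-! ## Reaching many vertices -/

/-- [Gro] a growth lemma. Proof. `f j ≥ j ε p / d` for `j ≤ J`, so `f j₁ ≥ p^(3/2)` for
`j₁ = ⌈(d / ε) √p⌉ + 1`. As long as `p^(3/2) ≤ f j < p^3` one has `log 2 (f j) + 1 ≤ 3 log 2 p + 4` and
`f j / (A (log 2 (f j) + 1)) ≥ 2 K p` (`p` large), so `f (j+1) ≥ f j + f j / τ` with
`τ = 2 d A (3 log 2 p + 4)`: `f` doubles in at most `τ + 1` steps, and at most `3 log 2 p + 4` doublings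
are needed. The total number of steps is `O(√p)`, less than `η p - 1` for `p` large. -/
def St_Gro : Prop := ∀ (d A : ℕ) (K ε η : ℝ), 0 < d → 0 < A → 0 < ε → 0 < η → ∃ p₀ : ℕ,
  ∀ p : ℕ, p₀ ≤ p → ∀ (J : ℕ) (f : ℕ → ℕ), η * p ≤ J + 1 → 1 ≤ f 0 →
    (∀ j < J, ε * p + d * (f j : ℝ) ≤ d * (f (j + 1) : ℝ)) →
    (∀ j < J, (f j : ℝ) / (A * (Nat.log 2 (f j) + 1)) + d * (f j : ℝ) ≤
      K * p + d * (f (j + 1) : ℝ)) → ∃ j ≤ J, p ^ 3 ≤ f j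

/-- [Rch] Maker reaches at least `p^3` vertices. `B` are old edges of Breaker, far away, `Y` new ones.
Proof. Build `N_0, N_1, ...`: `N_0` is the set of vertices reachable from `z` by edges of `T`
(`exists_clos T {z}`), `N_{j+1}` the closure under `T` of `N_j` and its neighbours along edges not
in `B ∪ Y` (as in `lev_succ`; `dist ≤ ρ + j + 1` is clear, vertices of `T` are within `ρ`). For
`ρ + j ≤ R` the boundary edges of `N_j` have an endpoint within `R` of `z`, so they are not in `B`,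
so at most `#Y` of them are in `B ∪ Y`, and `cut N_j + d #N_j ≤ #Y + d #N_{j+1}`. Use `St_Gro` with
`f j = #N_j`, `A = 4 c` (`St_Iso2`), `J = ⌊η p⌋`. -/
def St_Rch : Prop := ∀ (Γ : Type) [Group Γ] [DecidableEq Γ] (G : SimpleGraph Γ)
  [G.LocallyFinite] (d c : ℕ) (v : ℕ → ℕ), CG G d c v → ∀ K ε η : ℝ, 0 < ε → 0 < η →
  ∃ p₀ : ℕ, ∀ p : ℕ, p₀ ≤ p → ∀ (z : Γ) (T B Y : Finset (Sym2 Γ)) (ρ R : ℕ),
    (∀ u ∈ vert T, G.dist z u ≤ ρ) → (Y.card : ℝ) ≤ K * p →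
    (∀ o ∈ vert B, R < G.dist z o) → (ρ : ℝ) + η * p + 1 ≤ R →
    (∀ N, Adm z T N → (Y.card : ℝ) + ε * p ≤ cut G N) →
    ∃ (j : ℕ) (N : Finset Γ), (j : ℝ) ≤ η * p ∧ Lv G z T (B ∪ Y) ρ j N ∧ p ^ 3 ≤ N.card

/-- [Ext] choice of a good exit. Proof. Call `x ∈ N` near if some `o ∈ vert Y` has `dist x o ≤ c₀`: at
most `2 K p v c₀` vertices (`card_vert`). For `x ∈ N` let `e = e(x) ∈ P.E` with
`dist (z⁻¹ x) e ≤ c₀` (`P.Ec`, `hN`); the map `e` is at most `v c₀` to one. Call `e` bad if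
`∑_{o ∈ vert Y} P.u ((z e)⁻¹ o) ≥ 1/2`. As `u ≤ 2^(-D) + pth` and `2 K p 2^(-D) ≤ 1/4` (`p` large, `D ≥ δ p`),
then `∑_o pth (e⁻¹ z⁻¹ o) ≥ 1/4`; summing over bad `e` (for fixed `o` the elements `e⁻¹ z⁻¹ o` are
distinct) `#bad / 4 ≤ #(vert Y) C D ≤ 2 K p C D`. So if `p^3 > 2 K p v c₀ + v c₀ 8 K p C D` (`D ≤ p`, `p`
large) there is `x ∈ N`, not near, with `e(x)` not bad. A geodesic from `x` to `z e(x)` has at most
`c₀` edges; its vertices `y` have `dist x y ≤ c₀`, so are not in `vert Y`, and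
`dist z y ≤ D`, so are not in `vert B`. Its edges together with `P` from `Lv` form `X`. -/
def St_Ext : Prop := ∀ (Γ : Type) [Group Γ] [DecidableEq Γ] (G : SimpleGraph Γ)
  [G.LocallyFinite] (d c : ℕ) (v : ℕ → ℕ), CG G d c v → ∀ (C c₀ : ℕ) (K δ : ℝ), 0 < δ →
  ∃ p₀ : ℕ, ∀ p : ℕ, p₀ ≤ p → ∀ (D : ℕ) (P : Plan G C c₀ D), δ * p ≤ D → D ≤ p →
    ∀ (z : Γ) (T B Y : Finset (Sym2 Γ)) (ρ j : ℕ) (N : Finset Γ), (Y.card : ℝ) ≤ K * p →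
    (∀ o ∈ vert B, D < G.dist z o) → Lv G z T (B ∪ Y) ρ j N → ρ + j + c₀ ≤ D →
    p ^ 3 ≤ N.card →
    ∃ e ∈ P.E, ∃ X : Finset (Sym2 Γ), X.card ≤ j + c₀ ∧ (X : Set (Sym2 Γ)) ⊆ G.edgeSet ∧
      Disjoint X (B ∪ Y) ∧
      (SimpleGraph.fromEdgeSet ((T ∪ X : Finset (Sym2 Γ)) : Set (Sym2 Γ))).Reachable z
        (z * e) ∧ P.U Y (z * e) < 1 / 2

/-! ## The game -/

/-- [Stp] the averaging step. Proof. Sum `P.key (z⁻¹ o)` over `o ∈ vert B`: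
`∑_w (#{o | z⁻¹ o ∈ supp or dist (g w) (z⁻¹ o) ≤ D} + ∑_{e ∈ E} P.U B (z g_w e)) ≤ #W / 2 * P.U B z`
(`(g_w e)⁻¹ z⁻¹ = (z g_w e)⁻¹`). So some `w` has a term `≤ P.U B z / 2 < 1/2`; the first summand is an
integer, hence `0`, all summands are nonnegative. -/
def St_Stp : Prop := ∀ (Γ : Type) [Group Γ] [DecidableEq Γ] (G : SimpleGraph Γ) (C c₀ D : ℕ)
  (P : Plan G C c₀ D) (B : Finset (Sym2 Γ)) (z : Γ), P.U B z < 1 →
  ∃ w : P.W, (∀ o ∈ vert B, z⁻¹ * o ∉ (P.wk w).support ∧ D < G.dist (P.g w) (z⁻¹ * o)) ∧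
    ∀ e ∈ P.E, P.U B (z * P.g w * e) ≤ P.U B z / 2

/-- [Inf] a live Maker has an infinite component. Proof. `z` with `P.U B z < 1` is reachable from `1`
in `G` minus `B` (`M ∪ X0` is disjoint from `B`). By `St_Stp` with `e = 1` construct `z_0 = z`,
`z_{n+1} = z_n g_{w_n}`, `P.U B z_n < 1`; `z_n` is joined to `z_{n+1}` by the translate by `z_n` of the walk
`wk w_n`, none of whose vertices is in `vert B`. The `z_n` are distinct by `P.prod`. -/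
def St_Inf : Prop := ∀ (Γ : Type) [Group Γ] [DecidableEq Γ] (G : SimpleGraph Γ)
  [G.LocallyFinite] (d c : ℕ) (v : ℕ → ℕ), CG G d c v → ∀ (C c₀ D : ℕ)
  (P : Plan G C c₀ D) (k : ℕ) (M B : Finset (Sym2 Γ)), Live G P k M B →
  {w : Γ | (G.deleteEdges (B : Set (Sym2 Γ))).Reachable 1 w}.Infinite

/-- [Trn] one turn. Proof. Let `ε < κ`, `K = κ`. Take `δ > 0` small (`δ ≤ 1/4`,
`(3 C + 3) δ κ ≤ ε / 8`, ...), `η = δ / 2`; for `p` large let `D = ⌊3 δ p⌋`, `k = ⌊δ p⌋`,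
`p' = p - k - C D` (so `p' ≥ (1 - (3 C + 1) δ) p`), `P` a plan of scale `D`, `T` a template from `Stat` with
`(ε / 4, δ)` for `p'`: `(κ - ε / 4) p' ≥ (κ - ε / 2) p ≥ q + (ε / 2) p`.
Let `z, X0` be as in `Live`, `w` from `St_Stp`, `z' = z g_w`. Maker claims `X0`, the edges of the
walk `z wk w` and those of `z' T`, as far as unclaimed: at most `k + C D + p' ≤ p` edges, not in `B`
(vertices of the walk are not in `vert B`; vertices of `z' T` are within `δ p' ≤ D` of `z'` and those of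
`vert B` are not), and arbitrary other edges (`exists_move`). Let Breaker answer `Y`, `#Y = q`.
`St_Rch` with `z', z' T, B, Y`, `ρ = ⌊δ p⌋`, `R = D`, `ε / 2`, `η` (`CG.adm_mul`) and `St_Ext` give `e`, `X`
(`#X ≤ j + c₀ ≤ k`). Then `z' e`, `X` show that Maker is live: it is reachable by edges of
`M ∪ X0 ∪ (walk) ∪ z' T ∪ X`, and
`P.U (B ∪ Y) (z' e) ≤ P.U B (z' e) + P.U Y (z' e) < 1/2 + 1/2`. -/
def St_Trn : Prop := ∀ (Γ : Type) [Group Γ] [DecidableEq Γ] (G : SimpleGraph Γ)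
  [G.LocallyFinite] (d c : ℕ) (v : ℕ → ℕ), CG G d c v → ∀ C c₀ : ℕ,
  (∀ D : ℕ, 1 ≤ D → Nonempty (Plan G C c₀ D)) → ∀ κ : ℝ, Stat G κ → ∀ ε : ℝ, 0 < ε → ε < κ →
  ∃ p₀ : ℕ, ∀ p : ℕ, p₀ ≤ p → ∀ q : ℕ, (q : ℝ) ≤ (κ - ε) * p →
    ∃ (D k : ℕ) (P : Plan G C c₀ D), ∀ M B : Finset (Sym2 Γ), Live G P k M B →
      ∃ X : Finset (Sym2 Γ), X.card = p ∧ (X : Set (Sym2 Γ)) ⊆ G.edgeSet ∧
        Disjoint X (M ∪ B) ∧ ∀ Y : Finset (Sym2 Γ), Y.card = q →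
          (Y : Set (Sym2 Γ)) ⊆ G.edgeSet → Disjoint Y (M ∪ X ∪ B) →
          Live G P k (M ∪ X) (B ∪ Y)

/-- [Mkr] Maker wins. Proof. `makerWins_of_invariant` with the invariant `Live G P k M B`: at the start
`z = 1`, `X0 = ∅`, `P.U ∅ 1 = 0`. -/
def St_Mkr : Prop := ∀ (Γ : Type) [Group Γ] [DecidableEq Γ] (G : SimpleGraph Γ)
  [G.LocallyFinite] (d c : ℕ) (v : ℕ → ℕ), CG G d c v → ∀ C c₀ : ℕ,
  (∀ D : ℕ, 1 ≤ D → Nonempty (Plan G C c₀ D)) → ∀ κ : ℝ, Stat G κ → ∀ ε : ℝ, 0 < ε → ε < κ →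
  ∃ p₀ : ℕ, ∀ p : ℕ, p₀ ≤ p → ∀ q : ℕ, (q : ℝ) ≤ (κ - ε) * p → MakerWins G 1 p q

/-- [Asm] assembly. Proof. As `main_of` in `Helper22/PG/FinalOf.lean`: `S = {c₁ | ∃ᶠ n, CapGE G 1 n (c₁ n)}` is
bounded above (`exists_adm_small`) and contains a positive number (`St_Pos`); `b = sSup S > 0`. For
`κ < b`: `∃ᶠ n, CapGE G 1 n (κ n)`, so `Stat G κ` (`St_Sta`), so `CapGE G 1 p ((κ - ε) p)` for all large `p`
(extend `T` to `p` edges by `exists_move`); for `κ > b` `CapGE G 1 p (κ p)` fails for all large `p`. This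
gives the limit (`capGE_iff`) and Breaker's half (`breakerWins_of_cut`, translate to `v₀`);
Maker's half is `St_Mkr` with `κ = b - ε / 2`, `ε / 2` for the root `1`, `makerWins_map` for other
roots. -/
def St_Asm : Prop := ∀ (Γ : Type) [Group Γ] [DecidableEq Γ] (G : SimpleGraph Γ)
  [G.LocallyFinite] (d c : ℕ) (v : ℕ → ℕ), CG G d c v → ∀ C c₀ : ℕ,
  (∀ D : ℕ, 1 ≤ D → Nonempty (Plan G C c₀ D)) →
  ∃ b : ℝ, 0 < b ∧
    (∀ v₀ : Γ, Tendsto (fun p : ℕ => (maxCap G v₀ p : ℝ) / p) atTop (nhds b)) ∧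
    ∀ ε : ℝ, 0 < ε → ∃ p₀ : ℕ, ∀ p q : ℕ, p₀ ≤ p → ∀ v₀ : Γ,
      ((b + ε) * (p : ℝ) < (q : ℝ) → BreakerWins G v₀ p q) ∧
      ((q : ℝ) < (b - ε) * (p : ℝ) → MakerWins G v₀ p q)

/-! ## Groups acting by similarities -/

/-- [Nf] normal form of the action. Proof. Let `G = cay S`. There are two points (no common fixed
point), so `lam h > 0` and `lam (g h) = lam g * lam h`. Some `h₀` has `lam h₀ ≠ 1`, WLOG `< 1` (inverse);
`t = h₀ ^ n` with `lam t ≤ 1/4`; by Banach's theorem (`ContractingWith`) `t` fixes a point `x₀`. Some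
`h'` moves `x₀`; `k = h' t h'⁻¹ t⁻¹` has `lam k = 1`, and `k x₀ = h' t h'⁻¹ x₀ ≠ x₀` because the only fixed
point of `h' t h'⁻¹` is `h' x₀`. For `y : Γ` let `s y = 1` if `y ∈ H` and otherwise the chosen
representative of `H y` (`Quotient.out` for `QuotientGroup.rightRel H`), `f y = y (s y)⁻¹ ∈ H`,
`b y = f y • x₀`, `δ x y = dist (b x) (b y)`; `f (h y) = h f y`, `b (h y) = h • b y` for `h ∈ H`, so `sc`.
`s` takes finitely many values (finite index); let `Λ ≥ 2` bound `lam x` and `dist x₀ (x • x₀)` for the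
finitely many elements `x = s σ s'⁻¹ ∈ H`, `s, s'` values of `s`, `σ` or `σ⁻¹` in `S`. If `y, y' = y σ` are
adjacent then `f y' = f y (s y σ (s y')⁻¹)`, so `lam (f y') ≤ Λ lam (f y)`,
`δ y y' = lam (f y) dist x₀ (x • x₀) ≤ Λ lam (f y)`. So `lam (f y) ≤ Λ ^ r`, `δ 1 y ≤ ∑_{i<r} Λ^(i+1) ≤ Λ^(r+1)`
for `r = dist 1 y`. `fin`: finite index of left cosets. (`lam` is extended by `1` outside `H`.) -/
def St_Nf : Prop := ∀ (Γ : Type) [Group Γ] [DecidableEq Γ] (S : Finset Γ),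
  Subgroup.closure (S : Set Γ) = ⊤ → ∀ (H : Subgroup Γ) [H.FiniteIndex] (X : Type)
  [MetricSpace X] [CompleteSpace X] [Nonempty X] [MulAction H X] (lam : H → ℝ),
  (∀ (h : H) (x y : X), dist (h • x) (h • y) = lam h * dist x y) → (∃ h, lam h ≠ 1) →
  (¬ ∃ x : X, ∀ h : H, h • x = x) →
  ∃ (lam' : Γ → ℝ) (δ : Γ → Γ → ℝ) (t k : Γ) (Λ : ℝ) (c₀ : ℕ),
    SimD (cay S) H lam' δ t k Λ c₀

/-- [Wd1] words. Proof. Letters: `x_0 = t`, `x_1 = k t`; `lam x_b = lam t =: λ`, `δ 1 x_b ≤ δ 1 k =: Δ`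
(`δ 1 (k t) ≤ δ 1 k + δ k (k t) = Δ + δ 1 t`). Induction: `lam (wd l) = λ ^ l.length`;
`δ 1 (x_b w) ≤ Δ + λ δ 1 w ≤ Δ + (1/4)(4/3)Δ = (4/3)Δ`. Separation: at the first difference
`δ (x_0 w) (x_1 w') ≥ δ t (k t) - λ δ 1 w - λ δ 1 w' ≥ Δ - (2/4)(4/3) Δ = Δ / 3`, where
`δ t (k t) ≥ δ 1 k - δ 1 t - δ k (k t) = Δ`, and a common initial part of length `i` multiplies `δ` by
`λ ^ i ≥ λ ^ n`. `wd (l ++ replicate m false) = wd l * t ^ m` and `δ 1 (t ^ m) = 0`. -/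
def St_Wd1 : Prop := ∀ (Γ : Type) [Group Γ] [DecidableEq Γ] (G : SimpleGraph Γ)
  (H : Subgroup Γ) (lam : Γ → ℝ) (δ : Γ → Γ → ℝ) (t k : Γ) (Λ : ℝ) (c₀ : ℕ),
  SimD G H lam δ t k Λ c₀ →
  (∀ l, wd t k l ∈ H ∧ lam (wd t k l) = lam t ^ l.length ∧ δ 1 (wd t k l) ≤ 4 / 3 * δ 1 k) ∧
  (∀ l l', l.length = l'.length → l ≠ l' →
    δ 1 k / 3 * lam t ^ l.length ≤ δ (wd t k l) (wd t k l')) ∧
  ∀ l m, δ (wd t k l) (wd t k (l ++ List.replicate m false)) = 0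

/-- [Wd2] walks. Proof. Concatenate translates of geodesics from `1` to the letters. With
`c_u = max (dist 1 t) (dist 1 (k t))` and `R = (4/3) Δ + Λ ^ (c_u + 1)`: vertices `y` on a geodesic from `1` to
`x_b` have `δ 1 y ≤ Λ ^ (c_u + 1)`, and for vertices `y'` on the walk for `l`
`δ 1 (x_b y') ≤ Δ + λ δ 1 y' ≤ Δ + R / 4 ≤ R`. -/
def St_Wd2 : Prop := ∀ (Γ : Type) [Group Γ] [DecidableEq Γ] (G : SimpleGraph Γ)
  [G.LocallyFinite], (∀ g x y, G.Adj (g * x) (g * y) ↔ G.Adj x y) → G.Connected →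
  ∀ (H : Subgroup Γ) (lam : Γ → ℝ) (δ : Γ → Γ → ℝ) (t k : Γ) (Λ : ℝ) (c₀ : ℕ),
  SimD G H lam δ t k Λ c₀ → ∃ (cu : ℕ) (R : ℝ), 0 < cu ∧ ∀ l : List Bool,
    ∃ w : G.Walk 1 (wd t k l), w.length ≤ cu * l.length ∧ ∀ y ∈ w.support, δ 1 y ≤ R

/-- [Gr] exponential growth. Proof. The `2 ^ n` words of length `n` are distinct elements
(`St_Wd1`: separation, `k0`, `lam t > 0`) of the ball of radius `cu n` (`St_Wd2`); `c = cu`. -/
def St_Gr : Prop := ∀ (Γ : Type) [Group Γ] [DecidableEq Γ] (G : SimpleGraph Γ)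
  [G.LocallyFinite], (∀ g x y, G.Adj (g * x) (g * y) ↔ G.Adj x y) → G.Connected →
  ∀ (H : Subgroup Γ) (lam : Γ → ℝ) (δ : Γ → Γ → ℝ) (t k : Γ) (Λ : ℝ) (c₀ : ℕ),
  SimD G H lam δ t k Λ c₀ → ∃ c : ℕ, ∀ n, 2 ^ n ≤ (bl G 1 (c * n)).card

/-- [Pln] plans. Proof. `Δ = δ 1 k`, `λ = lam t ≤ 1/4`, `cu, R` from `St_Wd2`, `R₁ = max R ((4/3) Δ + 1)`,
`c1 = 16 (d + 1)`, `c2` with `4 ^ c2 ≥ (6 / Δ + 1) (1 + R₁) Λ ^ 2`; `n = c1 D`, `m = c2 D`, `C` large.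
`W = Fin n → Bool` (or `List.Vector`), `g w = wd (w ++ 0^m)`, walk from `St_Wd2`, of length
`≤ cu (n + m) ≤ C D`; `E = {e ∈ bl 1 D | e ∈ H}`; `pth x = (2 / #W) #{w | x ∈ support}`,
`u x = pth x + (if δ 1 x ≤ R₁ then 2^(-D) else 0)`. `Ec`: from `fin`. `psum`:
`∑_{x ∈ F} pth x ≤ (2 / #W) ∑_w (length + 1) ≤ 2 (cu (n + m) + 1) ≤ C D`. `u ≤ 3`.
`key`: let `Bd` be the set of `w` with `dist (g w) x ≤ D` or `u ((g_w e)⁻¹ x) ≠ 0` for some `e ∈ E`. If `w ∈ Bd`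
then `x = g_w y` with `δ 1 y ≤ R₂ = Λ^(D+1) + Λ^D R₁` (`δ 1 (e y') ≤ δ 1 e + lam e δ 1 y'`, and
`u y' ≠ 0` implies `δ 1 y' ≤ R₁`), so `δ (g w) x ≤ λ^(n+m) R₂`. Two such `w` would give
`(Δ/3) λ^n ≤ 2 λ^(n+m) R₂`, impossible since `6 R₂ < Δ 4^m`; so `#Bd ≤ 1`, and if `Bd ≠ ∅` then
`δ 1 x ≤ (4/3) Δ + λ^m R₂ ≤ R₁`. The left side is at most
`#{w | x ∈ support} + (if Bd ≠ ∅ then 1 + 3 #E else 0)`, the right side is
`#{w | x ∈ support} + (#W / 2) (if δ 1 x ≤ R₁ then 2^(-D) else 0)`, and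
`2 ^ n ≥ (16 (d+1))^D ≥ 2^(D+1) (1 + 3 (d+1)^D)`, `#E ≤ v D ≤ (d+1)^D`.
`prod`: `lam` of the product is `λ^((n+m) length) < 1 = lam 1`. -/
def St_Pln : Prop := ∀ (Γ : Type) [Group Γ] [DecidableEq Γ] (G : SimpleGraph Γ)
  [G.LocallyFinite] (d c : ℕ) (v : ℕ → ℕ), CG G d c v →
  ∀ (H : Subgroup Γ) (lam : Γ → ℝ) (δ : Γ → Γ → ℝ) (t k : Γ) (Λ : ℝ) (c₀ : ℕ),
  SimD G H lam δ t k Λ c₀ → ∃ C : ℕ, ∀ D : ℕ, 1 ≤ D → Nonempty (Plan G C c₀ D)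

/-- [Fin] the theorem. Proof. `G = cay S` is left invariant, connected (`Subgroup.closure_induction`
or walks), locally finite of degree at most `2 #S`. `St_Nf`, `St_Gr` (with `(bl 1 r).card`;
`(bl x r).card = (bl 1 r).card` by translation) give `CG`; `St_Pln`, `St_Asm`. -/
def St_Fin : Prop := ∀ (Γ : Type) [Group Γ] (S : Finset Γ),
  Subgroup.closure (S : Set Γ) = ⊤ → ∀ (H : Subgroup Γ) [H.FiniteIndex] (X : Type)
  [MetricSpace X] [CompleteSpace X] [Nonempty X] [MulAction H X] (lam : H → ℝ),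
  (∀ (h : H) (x y : X), dist (h • x) (h • y) = lam h * dist x y) → (∃ h, lam h ≠ 1) →
  (¬ ∃ x : X, ∀ h : H, h • x = x) →
  ∃ b : ℝ, 0 < b ∧
    (∀ v₀ : Γ, Tendsto (fun p : ℕ => (maxCap (cay S) v₀ p : ℝ) / p) atTop (nhds b)) ∧
    ∀ ε : ℝ, 0 < ε → ∃ p₀ : ℕ, ∀ p q : ℕ, p₀ ≤ p → ∀ v₀ : Γ,
      ((b + ε) * (p : ℝ) < (q : ℝ) → BreakerWins (cay S) v₀ p q) ∧
      ((q : ℝ) < (b - ε) * (p : ℝ) → MakerWins (cay S) v₀ p q)

end Pool.Agent.SIM
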