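import Pool.Agent.SIM.St

/-! # Percolation games on Cayley graphs: existence of templates of small diameter -/

set_option autoImplicit false

namespace Pool.Agent.SIM

open Finset Filter Pool.Agent.Helper30.Perc Pool.Agent.Helper22.PG

section

variable {Γ : Type} [Group Γ] [DecidableEq Γ] {G : SimpleGraph Γ} [G.LocallyFinite]
  {d c : ℕ} {v : ℕ → ℕ} {M1 : Finset (Sym2 Γ)} {ℓ m : ℕ} {z : Γ} {γ : G.Walk 1 z}
  {g : ℕ → Γ}

private lemma sta_subset (h : CG G d c v) (π : ∀ j, G.Walk (γ.getVert (j * ℓ)) (g j))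
    (hM1 : (M1 : Set (Sym2 Γ)) ⊆ G.edgeSet) (hm : m * ℓ ≤ γ.length) :
    (hngE M1 π m : Set (Sym2 Γ)) ⊆ G.edgeSet := by
  intro e he
  rw [mem_coe, hngE, mem_union] at he
  rcases he with he | he
  · rw [mem_image] at he
    obtain ⟨k, hk, rfl⟩ := he
    rw [mem_range] at hk
    exact γ.adj_getVert_succ (by omega)
  · rw [mem_biUnion] at he
    obtain ⟨j, hj, he⟩ := he
    rw [blkE, mem_union] at he
    rcases he with he | he
    · rw [mem_image] at he
      obtain ⟨e', he', rfl⟩ := he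
      induction e' with
      | _ a b =>
        have h1 : G.Adj a b := by simpa using hM1 (mem_coe.2 he')
        have h2 := (h.inv (g j) a b).2 h1
        simpa using h2
    · rw [List.mem_toFinset] at he
      exact (π j).edges_subset_edgeSet he

private lemma sta_card (π : ∀ j, G.Walk (γ.getVert (j * ℓ)) (g j)) (ρ : ℕ)
    (hρ : ∀ j < m, (π j).length ≤ ρ) :
    (hngE M1 π m).card ≤ m * ℓ + m * (M1.card + ρ) := by
  rw [hngE]
  refine (card_union_le _ _).trans (Nat.add_le_add ?_ ?_)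
  · refine card_image_le.trans ?_
    rw [card_range]
  · refine card_biUnion_le.trans ?_
    have h1 : ∀ j ∈ range m, (blkE M1 π j).card ≤ M1.card + ρ := by
      intro j hj
      rw [blkE]
      refine (card_union_le _ _).trans (Nat.add_le_add card_image_le ?_)
      refine (List.toFinset_card_le _).trans ?_
      rw [SimpleGraph.Walk.length_edges]
      exact hρ j (mem_range.1 hj)
    refine (sum_le_sum h1).trans ?_
    rw [sum_const, card_range, smul_eq_mul]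

private lemma sta_dist_support {x y : Γ} (w : G.Walk x y) (u : Γ) (hu : u ∈ w.support) :
    G.dist x u ≤ w.length :=
  (SimpleGraph.dist_le (w.takeUntil u hu)).trans (w.length_takeUntil_le_length hu)

private lemma sta_vert (h : CG G d c v) (π : ∀ j, G.Walk (γ.getVert (j * ℓ)) (g j)) (ρ R1 : ℕ)
    (hπ : ∀ j, (π j).length = G.dist (γ.getVert (j * ℓ)) (g j))
    (h1 : ∀ j < m, G.dist (γ.getVert (j * ℓ)) (g j) ≤ ρ)
    (hV1 : ∀ u ∈ insert 1 (vert M1), G.dist 1 u ≤ R1) (u : Γ)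
    (hu : u ∈ vert (hngE M1 π m)) : G.dist 1 u ≤ m * ℓ + ρ + R1 := by
  have hg : ∀ k, G.dist 1 (γ.getVert k) ≤ k := by
    intro k
    have h2 := dist_getVert_le h.conn γ 0 k (Nat.zero_le _)
    rw [γ.getVert_zero] at h2
    simpa using h2
  rw [mem_vert] at hu
  obtain ⟨e, he, hue⟩ := hu
  rw [hngE, mem_union] at he
  rcases he with he | he
  · rw [mem_image] at he
    obtain ⟨k, hk, rfl⟩ := he
    rw [mem_range] at hk
    rw [Sym2.mem_iff] at hue
    rcases hue with rfl | rfl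
    · have := hg k
      omega
    · have := hg (k + 1)
      omega
  · rw [mem_biUnion] at he
    obtain ⟨j, hj, he⟩ := he
    rw [mem_range] at hj
    have hjl : j * ℓ ≤ m * ℓ := Nat.mul_le_mul_right _ hj.le
    have hgj := hg (j * ℓ)
    have h1j := h1 j hj
    rw [blkE, mem_union] at he
    rcases he with he | he
    · rw [mem_image] at he
      obtain ⟨e', he', rfl⟩ := he
      rw [Sym2.mem_map] at hue
      obtain ⟨u0, h2, rfl⟩ := hue
      have h3 := hV1 u0 (mem_insert_of_mem ((mem_vert _ _).2 ⟨e', he', h2⟩))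
      have h4 := h.conn.dist_triangle (u := 1) (v := γ.getVert (j * ℓ)) (w := g j)
      have h5 := h.conn.dist_triangle (u := 1) (v := g j) (w := g j * u0)
      rw [h.dist_self_mul] at h5
      omega
    · rw [List.mem_toFinset] at he
      have h2 := (π j).mem_support_of_mem_edges he hue
      have h3 := sta_dist_support (π j) u h2
      rw [hπ j] at h3
      have h4 := h.conn.dist_triangle (u := 1) (v := γ.getVert (j * ℓ)) (w := u)
      omega

end

private lemma sta_num (κ ε η s p m : ℝ) (hκ : ε < κ) (hε : 0 < ε) (hη : 0 < η)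
    (hη1 : η * (1 + 2 * κ) ≤ ε / 2) (hs : 0 ≤ s) (h1 : p ≤ (m + 1) * s * (1 + 2 * η))
    (h2 : κ * s ≤ ε / 2 * p) (hm : 0 ≤ m) : (κ - ε) * p ≤ (κ - η) * (m * s) := by
  have hκ0 : 0 < κ := hε.trans hκ
  have hηκ : η ≤ κ := by nlinarith
  have hp : 0 ≤ p := by
    by_contra hp
    push Not at hp
    nlinarith [mul_nonneg hκ0.le hs]
  have hA : (κ - ε / 2) * (1 + 2 * η) ≤ κ - η := by nlinarith
  have h3 : (κ - ε / 2) * p * (1 + 2 * η) ≤ (κ - η) * ((m + 1) * s) * (1 + 2 * η) := by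
    calc (κ - ε / 2) * p * (1 + 2 * η) = (κ - ε / 2) * (1 + 2 * η) * p := by ring
      _ ≤ (κ - η) * p := mul_le_mul_of_nonneg_right hA hp
      _ ≤ (κ - η) * ((m + 1) * s * (1 + 2 * η)) := mul_le_mul_of_nonneg_left h1 (by linarith)
      _ = _ := by ring
  have h4 : (κ - ε / 2) * p ≤ (κ - η) * ((m + 1) * s) := le_of_mul_le_mul_right h3 (by linarith)
  have h5 : (κ - η) * ((m + 1) * s) ≤ (κ - η) * (m * s) + κ * s := by nlinarith [mul_nonneg hη.le hs]
  nlinarith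

theorem thm_Sta (h1 : St_Min) (h2 : St_Blk) (h3 : St_Plc) (h4 : St_Pcs) (h5 : St_Cut)
    (h6 : St_Num1) (h7 : St_Num2) : St_Sta := by
  intro Γ _ _ G _ d c v h κ hfr ε δ hε hδ
  rcases le_or_gt κ ε with hκ | hκ
  · refine ⟨0, fun p _ => ⟨∅, by simp, by simp, by simp [vert], fun W _ => ?_⟩⟩
    have ha : (κ - ε) * (p : ℝ) ≤ 0 := mul_nonpos_of_nonpos_of_nonneg (by linarith)
      (Nat.cast_nonneg _)
    exact ha.trans (Nat.cast_nonneg _)
  have hκ0 : 0 < κ := hε.trans hκ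
  set η : ℝ := min (δ / 2) (ε / (4 * (κ + 1))) with hηdef
  have hη : 0 < η := lt_min (by linarith) (by positivity)
  have hηδ : η ≤ δ / 2 := min_le_left _ _
  have hη1 : η * (1 + 2 * κ) ≤ ε / 2 := by
    have ha : η ≤ ε / (4 * (κ + 1)) := min_le_right _ _
    have hb : η * (4 * (κ + 1)) ≤ ε := (le_div_iff₀ (by linarith)).1 ha
    nlinarith
  obtain ⟨Rθ, hRθ⟩ := h6 d c
  obtain ⟨s₀, hs₀⟩ := h7 d c v h.d_pos h.c_pos h.v_le (fun r s hrs => h.v_mono hrs) h.gr Rθ hRθ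
    η η hη hη
  obtain ⟨s, hs, hcap⟩ := (frequently_atTop.1 hfr) (max s₀ 1)
  have hs1 : 1 ≤ s := (le_max_right _ _).trans hs
  obtain ⟨R0, ρ, ℓ, hNm, hℓ, hℓs, hρs, hplc⟩ := hs₀ s ((le_max_left _ _).trans hs)
  obtain ⟨M1, hM1, hM1c, hM1r, hM1cut⟩ := h2 Γ G d c v h s (κ * s) hcap
  set R1 : ℕ := rad d c s with hR1
  set R2 : ℕ := R0 + Rθ + 1 with hR2
  set C0 : ℕ := ⌈κ * s⌉₊ with hC0
  have hC0cut : ∀ W, Adm 1 M1 W → C0 ≤ cut G W := fun W hW => Nat.ceil_le.2 (hM1cut W hW)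
  have hV1c : (insert 1 (vert M1)).card ≤ 2 * s + 1 := by
    have ha := card_insert_le 1 (vert M1)
    have hb := card_vert M1
    omega
  refine ⟨⌈2 * (ρ + R1) / δ⌉₊ + ⌈2 * κ * s / ε⌉₊, fun p hp => ?_⟩
  have hp1 : (ρ : ℝ) + R1 ≤ δ / 2 * p := by
    have ha : 2 * ((ρ : ℝ) + R1) / δ ≤ p := by
      refine (Nat.le_ceil _).trans ?_
      exact_mod_cast le_trans (Nat.le_add_right _ _) hp
    rw [div_le_iff₀ hδ] at ha
    linarith
  have hp2 : κ * s ≤ ε / 2 * p := by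
    have ha : 2 * κ * s / ε ≤ p := by
      refine (Nat.le_ceil _).trans ?_
      exact_mod_cast le_trans (Nat.le_add_left _ _) hp
    rw [div_le_iff₀ hε] at ha
    linarith
  set Q : ℕ := s + ℓ + ρ with hQ
  have hQ0 : 0 < Q := by omega
  set m : ℕ := p / Q with hm
  have hmQ : m * Q ≤ p := Nat.div_mul_le_self p Q
  have hpQ : p < (m + 1) * Q := by
    have := Nat.lt_div_mul_add hQ0 (a := p)
    rw [Nat.add_mul, Nat.one_mul]
    exact this
  obtain ⟨z, hz⟩ := h.exists_dist_eq 1 (m * ℓ)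
  obtain ⟨γ, hγ⟩ := h.conn.exists_walk_length_eq_dist 1 z
  have hmγ : m * ℓ ≤ γ.length := by rw [hγ, hz]
  have hnumplc : (2 * ρ + 2 * R1 + 2 * R0 + 1) * ((insert 1 (vert M1)).card ^ 2 *
      v (2 * R0 + 1)) + (2 * (ρ + R1 + R2) + 1) * ((insert 1 (vert M1)).card * v R2) < v ρ := by
    refine lt_of_le_of_lt ?_ hplc
    gcongr
  obtain ⟨g, hg1, hg2, hg3⟩ := h3 Γ G d c v h z γ hγ ℓ m hℓ hmγ (insert 1 (vert M1)) R1 ρ R0 R2
    hM1r hnumplc
  choose π hπ using fun j : ℕ => h.conn.exists_walk_length_eq_dist (γ.getVert (j * ℓ)) (g j)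
  have hH : Hng G M1 R1 ℓ ρ R0 R2 m γ g π :=
    { hγ := hγ, hℓ := hℓ, hm := hmγ, hM1 := hM1, hV1 := hM1r, hπ := hπ, h1 := hg1, h2 := hg2,
      h3 := hg3 }
  have hms : (m : ℝ) * s ≤ p := by
    have ha : m * s ≤ p := le_trans (Nat.mul_le_mul_left _ (by omega)) hmQ
    exact_mod_cast ha
  refine ⟨hngE M1 π m, sta_subset h π hM1 hmγ, ?_, ?_, ?_⟩
  · refine (sta_card π ρ (fun j hj => by rw [hπ j]; exact hg1 j hj)).trans ?_
    calc m * ℓ + m * (M1.card + ρ) ≤ m * ℓ + m * (s + ρ) := by gcongr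
      _ = m * Q := by rw [hQ]; ring
      _ ≤ p := hmQ
  · intro u hu
    have ha := sta_vert h π ρ R1 hπ hg1 hM1r u hu
    have hb : (G.dist 1 u : ℝ) ≤ m * ℓ + ρ + R1 := by exact_mod_cast ha
    have hc : (m : ℝ) * ℓ ≤ η * p := by
      calc (m : ℝ) * ℓ ≤ m * (η * s) := mul_le_mul_of_nonneg_left hℓs (Nat.cast_nonneg _)
        _ = η * (m * s) := by ring
        _ ≤ η * p := mul_le_mul_of_nonneg_left hms hη.le
    have hd : η * (p : ℝ) ≤ δ / 2 * p := mul_le_mul_of_nonneg_right hηδ (Nat.cast_nonneg _)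
    linarith
  · intro W hW
    obtain ⟨⟨W', hW'⟩, -⟩ := h1 Γ G d c v h 1 (hngE M1 π m)
    have hcut : cut G W' ≤ cut G W := (hW'.2 W hW).1
    have hnear := h4 Γ G d c v h M1 s ℓ ρ R0 R2 Rθ m z γ g π hH hM1c hNm W' hW'
    have hmain := h5 Γ G d c v h M1 R1 ℓ ρ R0 R2 Rθ m C0 z γ g π hH (by omega) hC0cut W' hW'.1
      hnear
    have hmainR : (m : ℝ) * C0 ≤ cut G W + m * (d * ((ρ + 1) * v Rθ)) := by
      have ha : m * C0 ≤ cut G W + m * (d * ((ρ + 1) * v Rθ)) :=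
        hmain.trans (Nat.add_le_add_right hcut _)
      exact_mod_cast ha
    have hCk : κ * s ≤ C0 := Nat.le_ceil _
    have hm0 : (0 : ℝ) ≤ m := Nat.cast_nonneg _
    have hρ0 : (0 : ℝ) ≤ ρ := Nat.cast_nonneg _
    have hD0 : (d : ℝ) * ((ρ + 1) * v Rθ) ≤ η * s := by linarith
    have hpR : (p : ℝ) ≤ (m + 1) * s * (1 + 2 * η) := by
      have ha : (p : ℝ) ≤ (m + 1) * (s + ℓ + ρ) := by
        have hb : p ≤ (m + 1) * (s + ℓ + ρ) := hpQ.le
        exact_mod_cast hb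
      have hb : (ρ : ℝ) ≤ η * s := by
        have : (0 : ℝ) ≤ (d : ℝ) * ((ρ + 1) * v Rθ) := by positivity
        linarith
      have hc : (s : ℝ) + ℓ + ρ ≤ s * (1 + 2 * η) := by linarith
      calc (p : ℝ) ≤ (m + 1) * (s + ℓ + ρ) := ha
        _ ≤ (m + 1) * (s * (1 + 2 * η)) := mul_le_mul_of_nonneg_left hc (by linarith)
        _ = _ := by ring
    have hfin := sta_num κ ε η s p m hκ hε hη hη1 (Nat.cast_nonneg _) hpR hp2 hm0
    have hx1 : (m : ℝ) * (κ * s) ≤ m * C0 := mul_le_mul_of_nonneg_left hCk hm0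
    have hx2 : (m : ℝ) * (d * ((ρ + 1) * v Rθ)) ≤ m * (η * s) :=
      mul_le_mul_of_nonneg_left hD0 hm0
    have hx3 : (κ - η) * (m * s) = m * (κ * s) - m * (η * s) := by ring
    linarith

end Pool.Agent.SIM
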