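import Pool.Agent.SIM.St

set_option autoImplicit false

namespace Pool.Agent.SIM

open Finset Filter Pool.Agent.Helper30.Perc Pool.Agent.Helper22.PG

theorem thm_Stp : St_Stp := by
  intro Γ _ _ G C c₀ D P B z hU
  let ind : P.W → Γ → ℝ := fun w x =>
    if x ∈ (P.wk w).support ∨ G.dist (P.g w) x ≤ D then (1 : ℝ) else 0
  have hind0 : ∀ w x, 0 ≤ ind w x := by
    intro w x
    change (0 : ℝ) ≤ if x ∈ (P.wk w).support ∨ G.dist (P.g w) x ≤ D then (1 : ℝ) else 0
    split_ifs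
    · exact zero_le_one
    · exact le_refl _
  have hk : ∀ x, ∑ w, (ind w x + ∑ e ∈ P.E, P.u ((P.g w * e)⁻¹ * x)) ≤
      Fintype.card P.W / 2 * P.u x := P.key
  have hUn : ∀ y, 0 ≤ P.U B y := fun y => sum_nonneg fun o _ => P.u0 _
  have h2 : ∑ w, (∑ o ∈ vert B, ind w (z⁻¹ * o) + ∑ e ∈ P.E, P.U B (z * P.g w * e)) ≤
      Fintype.card P.W / 2 * P.U B z := by
    calc ∑ w, (∑ o ∈ vert B, ind w (z⁻¹ * o) + ∑ e ∈ P.E, P.U B (z * P.g w * e)) =
        ∑ o ∈ vert B, ∑ w, (ind w (z⁻¹ * o) +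
          ∑ e ∈ P.E, P.u ((P.g w * e)⁻¹ * (z⁻¹ * o))) := by
          rw [sum_comm]
          refine sum_congr rfl fun w _ => ?_
          rw [sum_add_distrib]
          congr 1
          rw [sum_comm]
          refine sum_congr rfl fun e _ => ?_
          unfold Plan.U
          refine sum_congr rfl fun o _ => ?_
          congr 1
          group
      _ ≤ ∑ o ∈ vert B, Fintype.card P.W / 2 * P.u (z⁻¹ * o) := sum_le_sum fun o _ => hk _
      _ = Fintype.card P.W / 2 * P.U B z := by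
          unfold Plan.U
          rw [mul_sum]
  have h3 : ∑ w, (∑ o ∈ vert B, ind w (z⁻¹ * o) + ∑ e ∈ P.E, P.U B (z * P.g w * e)) ≤
      ∑ _w : P.W, P.U B z / 2 := by
    refine h2.trans (le_of_eq ?_)
    rw [sum_const, nsmul_eq_mul, card_univ]
    ring
  obtain ⟨w, -, hw⟩ := exists_le_of_sum_le univ_nonempty h3
  have ha : 0 ≤ ∑ o ∈ vert B, ind w (z⁻¹ * o) := sum_nonneg fun o _ => hind0 _ _
  have hb : 0 ≤ ∑ e ∈ P.E, P.U B (z * P.g w * e) := sum_nonneg fun e _ => hUn _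
  refine ⟨w, fun o ho => ?_, fun e he => ?_⟩
  · have h4 : ind w (z⁻¹ * o) ≤ ∑ o ∈ vert B, ind w (z⁻¹ * o) :=
      single_le_sum (f := fun o => ind w (z⁻¹ * o)) (fun o _ => hind0 _ _) ho
    have h5 : ind w (z⁻¹ * o) < 1 := by linarith
    by_contra hcon
    have h6 : z⁻¹ * o ∈ (P.wk w).support ∨ G.dist (P.g w) (z⁻¹ * o) ≤ D := by
      by_contra h7
      push Not at h7
      exact hcon h7
    have h7 : ind w (z⁻¹ * o) = 1 := if_pos h6
    linarith
  · have h4 : P.U B (z * P.g w * e) ≤ ∑ e ∈ P.E, P.U B (z * P.g w * e) :=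
      single_le_sum (f := fun e => P.U B (z * P.g w * e)) (fun e _ => hUn _) he
    linarith

end Pool.Agent.SIM
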